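import Pool.Agent.H414.LH.Spec

/-! The bias. -/

set_option autoImplicit false

namespace Pool.Agent.H414.LH

open Finset
open Pool.Agent.H414.LT (primesUpTo blk kk)
open Pool.Agent.H414.DF (l2 e2)

namespace Bias

theorem e2_pos (x : ℝ) : 0 < e2 x := Real.rpow_pos_of_pos (by norm_num) x

theorem one_le_e2 {x : ℝ} (hx : 0 ≤ x) : 1 ≤ e2 x := Real.one_le_rpow (by norm_num) hx

theorem e2_le_one {x : ℝ} (hx : x ≤ 0) : e2 x ≤ 1 :=
  Real.rpow_le_one_of_one_le_of_nonpos (by norm_num) hx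

theorem one_le_Q (k : ℕ) : 1 ≤ Q k := by
  unfold Q
  rw [Nat.one_le_floor_iff]
  exact one_le_e2 (by positivity)

theorem card_Icc' (n : ℕ) : ((Icc (-(n : ℤ)) n).card : ℝ) = 2 * n + 1 := by
  rw [Int.card_Icc]
  have : ((n : ℤ) + 1 - -(n : ℤ)).toNat = 2 * n + 1 := by omega
  rw [this]
  push_cast
  ring

/-- the bound for `L` -/
theorem L_le {h M : ℕ} {C₀ : ℝ}
    (hC : ∀ (k q : ℕ) [NeZero q] (Γ : ZMod q → ℂ),
      (q : ℝ) ≤ e2 (k / 2) → (∀ γ, ‖Γ γ‖ ≤ 1) →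
      (q ≤ Q k → ‖(∑ b ∈ Icc (-(B h M k : ℤ)) (B h M k), (Kz k b : ℂ) * Γ (b : ZMod q)) /
          (2 * B h M k + 1) - Γ 0‖ ≤ C₀ * e2 (-(k / 2))) ∧
      ‖(∑ b ∈ Icc (-(B h M k : ℤ)) (B h M k), (Kz k b : ℂ) * Γ (b : ZMod q)) / (2 * B h M k + 1)‖ ≤
          (q.divisors.card : ℝ) ^ 2 + C₀) (k : ℕ) :
    |Lz h M k| ≤ C₀ * e2 (-(k / 2)) := by
  have h1 := (hC k 1 (fun _ => 1) (by
    rw [Nat.cast_one]
    exact one_le_e2 (by positivity)) (by simp)).1 (one_le_Q k)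
  have h2 : (∑ b ∈ Icc (-(B h M k : ℤ)) (B h M k), (Kz k b : ℂ) * (1 : ℂ)) /
          (2 * B h M k + 1) - 1 = ((Lz h M k : ℝ) : ℂ) := by
    unfold Lz
    push_cast
    simp
  rw [h2, Complex.norm_real] at h1
  exact h1

/-- the decomposition -/
theorem decomp (h M k q : ℕ) [NeZero q] (Γ : ZMod q → ℂ) :
    ∑ b ∈ Icc (-(B h M k : ℤ)) (B h M k), (kap h M k b : ℂ) * Γ (b : ZMod q) =
      Γ 0 - (∑ b ∈ Icc (-(B h M k : ℤ)) (B h M k), (Kz k b : ℂ) * Γ (b : ZMod q)) /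
          (2 * B h M k + 1) +
        (Lz h M k : ℂ) * ((∑ b ∈ Icc (-(B h M k : ℤ)) (B h M k), Γ (b : ZMod q)) /
          (2 * B h M k + 1)) := by
  have h0 : (0 : ℤ) ∈ Icc (-(B h M k : ℤ)) (B h M k) := by
    rw [Finset.mem_Icc]
    omega
  have h1 : ∀ b ∈ Icc (-(B h M k : ℤ)) (B h M k), (kap h M k b : ℂ) * Γ (b : ZMod q) =
      (if b = 0 then Γ 0 else 0) - ((Kz k b : ℂ) * Γ (b : ZMod q)) / (2 * B h M k + 1) +
        (Lz h M k : ℂ) * (Γ (b : ZMod q) / (2 * B h M k + 1)) := by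
    intro b hb
    unfold kap
    rw [if_pos hb]
    by_cases hb0 : b = 0
    · subst hb0
      simp only [if_true, Int.cast_zero]
      push_cast
      ring
    · rw [if_neg hb0, if_neg hb0]
      push_cast
      ring
  rw [sum_congr rfl h1, sum_add_distrib, sum_sub_distrib, sum_ite_eq' _ _ _, if_pos h0,
    ← sum_div, ← mul_sum, ← sum_div]

/-- the norm of the mean of `Γ` -/
theorem mean_le (n q : ℕ) [NeZero q] (Γ : ZMod q → ℂ) (S : ℝ) (hS : ∀ γ, ‖Γ γ‖ ≤ S) :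
    ‖(∑ b ∈ Icc (-(n : ℤ)) n, Γ (b : ZMod q)) / (2 * (n : ℂ) + 1)‖ ≤ S := by
  have hpos : (0 : ℝ) < 2 * n + 1 := by positivity
  have hn : ‖(2 * (n : ℂ) + 1)‖ = 2 * n + 1 := by
    have : (2 * (n : ℂ) + 1) = ((2 * n + 1 : ℝ) : ℂ) := by push_cast; ring
    rw [this, Complex.norm_real, Real.norm_of_nonneg hpos.le]
  rw [norm_div, hn, div_le_iff₀ hpos]
  calc ‖∑ b ∈ Icc (-(n : ℤ)) n, Γ (b : ZMod q)‖ ≤ ∑ b ∈ Icc (-(n : ℤ)) (n : ℤ), ‖Γ (b : ZMod q)‖ :=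
        norm_sum_le _ _
    _ ≤ ∑ b ∈ Icc (-(n : ℤ)) (n : ℤ), S := sum_le_sum fun b _ => hS _
    _ = S * (2 * n + 1) := by
        rw [sum_const, nsmul_eq_mul, card_Icc']
        ring

/-- scaling of `S_DEL` -/
theorem scaled {h M : ℕ} {C₀ : ℝ}
    (hC : ∀ (k q : ℕ) [NeZero q] (Γ : ZMod q → ℂ),
      (q : ℝ) ≤ e2 (k / 2) → (∀ γ, ‖Γ γ‖ ≤ 1) →
      (q ≤ Q k → ‖(∑ b ∈ Icc (-(B h M k : ℤ)) (B h M k), (Kz k b : ℂ) * Γ (b : ZMod q)) /
          (2 * B h M k + 1) - Γ 0‖ ≤ C₀ * e2 (-(k / 2))) ∧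
      ‖(∑ b ∈ Icc (-(B h M k : ℤ)) (B h M k), (Kz k b : ℂ) * Γ (b : ZMod q)) / (2 * B h M k + 1)‖ ≤
          (q.divisors.card : ℝ) ^ 2 + C₀) (k q : ℕ) [NeZero q] (Γ : ZMod q → ℂ) (S : ℝ)
    (hq : (q : ℝ) ≤ e2 (k / 2)) (hS : ∀ γ, ‖Γ γ‖ ≤ S) :
    (q ≤ Q k → ‖(∑ b ∈ Icc (-(B h M k : ℤ)) (B h M k), (Kz k b : ℂ) * Γ (b : ZMod q)) /
          (2 * B h M k + 1) - Γ 0‖ ≤ C₀ * S * e2 (-(k / 2))) ∧
      ‖(∑ b ∈ Icc (-(B h M k : ℤ)) (B h M k), (Kz k b : ℂ) * Γ (b : ZMod q)) / (2 * B h M k + 1)‖ ≤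
          ((q.divisors.card : ℝ) ^ 2 + C₀) * S := by
  have hS0 : 0 ≤ S := (norm_nonneg _).trans (hS 0)
  rcases hS0.eq_or_lt with h0 | hpos
  · have hΓ : ∀ γ, Γ γ = 0 := by
      intro γ
      have := hS γ
      rw [← h0] at this
      exact norm_le_zero_iff.1 this
    rw [← h0]
    simp [hΓ]
  · have hSc : (S : ℂ) ≠ 0 := by
      exact_mod_cast hpos.ne'
    obtain ⟨h1, h2⟩ := hC k q (fun γ => Γ γ / S) hq (by
      intro γ
      rw [norm_div, Complex.norm_real, Real.norm_of_nonneg hpos.le, div_le_one hpos]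
      exact hS γ)
    have e1 : ∑ b ∈ Icc (-(B h M k : ℤ)) (B h M k), (Kz k b : ℂ) * (Γ (b : ZMod q) / S) =
        (∑ b ∈ Icc (-(B h M k : ℤ)) (B h M k), (Kz k b : ℂ) * Γ (b : ZMod q)) / S := by
      rw [sum_div]
      exact sum_congr rfl fun b _ => by ring
    rw [e1] at h1 h2
    constructor
    · intro hqQ
      have h3 := h1 hqQ
      have e2' : (∑ b ∈ Icc (-(B h M k : ℤ)) (B h M k), (Kz k b : ℂ) * Γ (b : ZMod q)) / (S : ℂ) /
          (2 * B h M k + 1) - Γ 0 / S =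
          ((∑ b ∈ Icc (-(B h M k : ℤ)) (B h M k), (Kz k b : ℂ) * Γ (b : ZMod q)) /
          (2 * B h M k + 1) - Γ 0) / S := by
        rw [sub_div, div_right_comm]
      rw [e2', norm_div, Complex.norm_real, Real.norm_of_nonneg hpos.le, div_le_iff₀ hpos] at h3
      calc _ ≤ _ := h3
        _ = _ := by ring
    · have e2' : (∑ b ∈ Icc (-(B h M k : ℤ)) (B h M k), (Kz k b : ℂ) * Γ (b : ZMod q)) / (S : ℂ) /
          (2 * B h M k + 1) =
          ((∑ b ∈ Icc (-(B h M k : ℤ)) (B h M k), (Kz k b : ℂ) * Γ (b : ZMod q)) /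
          (2 * B h M k + 1)) / S := by
        rw [div_right_comm]
      rw [e2', norm_div, Complex.norm_real, Real.norm_of_nonneg hpos.le, div_le_iff₀ hpos] at h2
      exact h2

end Bias

open Bias in
theorem bias (hDEL : S_DEL) (hTAU : DF.S_TAU) : S_BIAS := by
  intro h M hh hM ε hε
  obtain ⟨C₀, hC⟩ := hDEL h M hh hM
  obtain ⟨Ct, hCt⟩ := hTAU ε hε
  have hL := L_le hC
  have hC₀ : 0 ≤ C₀ := by
    have h1 := hL 0
    have h2 := abs_nonneg (Lz h M 0)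
    have h3 : e2 (-(((0 : ℕ) : ℝ) / 2)) = 1 := by
      simp [e2]
    rw [h3, mul_one] at h1
    linarith
  refine ⟨1 + Ct ^ 2 + 2 * C₀, by positivity, ?_, ?_⟩
  · intro k
    have h1 := hL k
    have h2 : e2 (-((k : ℝ) / 2)) ≤ 1 := e2_le_one (by
      have : (0 : ℝ) ≤ (k : ℝ) / 2 := by positivity
      linarith)
    have h3 := mul_le_mul_of_nonneg_left h2 hC₀
    nlinarith [sq_nonneg Ct]
  · intro k q _ Γ S hq hS
    have hS0 : 0 ≤ S := (norm_nonneg _).trans (hS 0)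
    obtain ⟨h1, h2⟩ := scaled hC k q Γ S hq hS
    have hmean := mean_le (B h M k) q Γ S hS
    rw [decomp]
    have hLm : ‖(Lz h M k : ℂ) * ((∑ b ∈ Icc (-(B h M k : ℤ)) (B h M k), Γ (b : ZMod q)) /
          (2 * B h M k + 1))‖ ≤ C₀ * e2 (-(k / 2)) * S := by
      rw [norm_mul, Complex.norm_real]
      exact mul_le_mul (hL k) hmean (norm_nonneg _) (mul_nonneg hC₀ (e2_pos _).le)
    constructor
    · intro hqQ
      have h3 := h1 hqQ
      rw [← norm_neg, neg_sub] at h3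
      calc _ ≤ C₀ * S * e2 (-(k / 2)) + C₀ * e2 (-(k / 2)) * S := (norm_add_le _ _).trans
            (add_le_add h3 hLm)
        _ = (2 * C₀) * S * e2 (-(k / 2)) := by ring
        _ ≤ _ := by
          refine mul_le_mul_of_nonneg_right (mul_le_mul_of_nonneg_right ?_ hS0) (e2_pos _).le
          nlinarith [sq_nonneg Ct]
    · have h3 : ((q.divisors.card : ℝ)) ^ 2 ≤ Ct ^ 2 * e2 (ε * k) := by
        have hq1 : 1 ≤ q := Nat.one_le_iff_ne_zero.2 (NeZero.ne q)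
        have h4 := hCt q hq1
        have h5 : ((q.divisors.card : ℝ)) ^ 2 ≤ (Ct * (q : ℝ) ^ ε) ^ 2 :=
          pow_le_pow_left₀ (Nat.cast_nonneg _) h4 2
        refine h5.trans ?_
        rw [mul_pow]
        refine mul_le_mul_of_nonneg_left ?_ (sq_nonneg _)
        have h6 : (q : ℝ) ^ ε ≤ e2 (k / 2) ^ ε := Real.rpow_le_rpow (Nat.cast_nonneg _) hq hε.le
        have h7 : ((q : ℝ) ^ ε) ^ 2 ≤ (e2 (k / 2) ^ ε) ^ 2 :=
          pow_le_pow_left₀ (Real.rpow_nonneg (Nat.cast_nonneg _) _) h6 2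
        refine h7.trans (le_of_eq ?_)
        unfold e2
        rw [← Real.rpow_mul (by norm_num), ← Real.rpow_natCast, ← Real.rpow_mul (by norm_num)]
        congr 1
        push_cast
        ring
      have he : 1 ≤ e2 (ε * k) := one_le_e2 (by positivity)
      have hL' : C₀ * e2 (-(k / 2)) * S ≤ C₀ * S := by
        have : e2 (-((k : ℝ) / 2)) ≤ 1 := e2_le_one (by
          have : (0 : ℝ) ≤ (k : ℝ) / 2 := by positivity
          linarith)
        calc C₀ * e2 (-(k / 2)) * S ≤ C₀ * 1 * S :=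
              mul_le_mul_of_nonneg_right (mul_le_mul_of_nonneg_left this hC₀) hS0
          _ = C₀ * S := by ring
      calc _ ≤ (S + ((q.divisors.card : ℝ) ^ 2 + C₀) * S) + C₀ * e2 (-(k / 2)) * S :=
            (norm_add_le _ _).trans (add_le_add ((norm_sub_le _ _).trans (add_le_add (hS 0) h2)) hLm)
        _ ≤ (S + (Ct ^ 2 * e2 (ε * k) + C₀) * S) + C₀ * S := by
            refine add_le_add (add_le_add le_rfl (mul_le_mul_of_nonneg_right ?_ hS0)) hL'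
            linarith
        _ = (1 + 2 * C₀) * S * 1 + Ct ^ 2 * S * e2 (ε * k) := by ring
        _ ≤ (1 + 2 * C₀) * S * e2 (ε * k) + Ct ^ 2 * S * e2 (ε * k) := by
            refine add_le_add (mul_le_mul_of_nonneg_left he (by positivity)) le_rfl
        _ = _ := by ring

end Pool.Agent.H414.LH
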