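import Pool.Agent.H414.LH.Spec

/-! The difference of `ν` and `μ` in one block. -/

set_option autoImplicit false

namespace Pool.Agent.H414.LH

open Finset
open Pool.Agent.H414.LT (primesUpTo blk kk)
open Pool.Agent.H414.DF (l2 e2)

namespace Blk

theorem e2_pos (x : ℝ) : 0 < e2 x := Real.rpow_pos_of_pos (by norm_num) x

theorem e2_add (x y : ℝ) : e2 (x + y) = e2 x * e2 y := Real.rpow_add (by norm_num) x y

theorem e2_mono {x y : ℝ} (h : x ≤ y) : e2 x ≤ e2 y :=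
  Real.rpow_le_rpow_of_exponent_le (by norm_num) h

theorem e2_nat (k : ℕ) : e2 k = 2 ^ k := Real.rpow_natCast 2 k

theorem e2_zero : e2 0 = 1 := Real.rpow_zero 2

theorem card_blk (k : ℕ) : ((blk k).card : ℝ) ≤ e2 k := by
  rw [e2_nat]
  have : (blk k).card ≤ 2 ^ k := by
    unfold Pool.Agent.H414.LT.blk
    refine (card_filter_le _ _).trans ?_
    rw [Nat.card_Ioc, pow_succ]
    omega
  exact_mod_cast this

theorem kap_zero (h M k : ℕ) (b : ℤ) (hb : b ∉ Icc (-(B h M k : ℤ)) (B h M k)) :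
    kap h M k b = 0 := by
  unfold kap
  rw [if_neg hb]
  have : b ≠ 0 := by
    rintro rfl
    exact hb (by simp)
  simp [this]

theorem inner (hB : S_B) (h M : ℕ) (hM : 1 ≤ M) (τ : ℕ → ℤ) (μ : ℕ → ℤ → ℝ) (m : ℕ → ℝ)
    (k₁ p : ℕ) (hp : p.Prime) (hk : k₁ ≤ kk p) (hd : (M : ℤ) ∣ τ p) (G : ℤ → ℂ) :
    ∑ b ∈ ival h p, ((nu h M τ μ m k₁ p b - μ p b : ℝ) : ℂ) * G b =
      (m (kk p) : ℂ) * ∑ b ∈ Icc (-(B h M (kk p) : ℤ)) (B h M (kk p)),
        (kap h M (kk p) b : ℂ) * G (M * b) := by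
  have hM0 : (M : ℤ) ≠ 0 := by omega
  set I := Icc (-(B h M (kk p) : ℤ)) (B h M (kk p)) with hI
  have hsub : I.image (fun b => (M : ℤ) * b) ⊆ ival h p := by
    intro x hx
    obtain ⟨b, hb, rfl⟩ := mem_image.1 hx
    rw [hI, mem_Icc] at hb
    unfold ival
    rw [mem_Icc]
    have h1 := (hB h M (kk p) hM).2
    have h2 : Nat.sqrt (2 ^ (kk p * h)) ≤ Nat.sqrt (4 * p ^ h) := by
      apply Nat.sqrt_le_sqrt
      have := (Pool.Agent.H414.LT.two_le_kk hp.two_le).1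
      calc 2 ^ (kk p * h) = (2 ^ kk p) ^ h := by rw [pow_mul]
        _ ≤ p ^ h := Nat.pow_le_pow_left this.le h
        _ ≤ 4 * p ^ h := by omega
    have h3 : (M : ℤ) * B h M (kk p) ≤ Nat.sqrt (4 * p ^ h) := by exact_mod_cast h1.trans h2
    have h4 : (0 : ℤ) < M := by omega
    constructor <;> nlinarith
  rw [← sum_subset hsub, sum_image, mul_sum]
  · refine sum_congr rfl fun b hb => ?_
    have : nu h M τ μ m k₁ p (M * b) - μ p (M * b) = m (kk p) * kap h M (kk p) b := by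
      unfold nu
      rw [if_pos ⟨hk, hd, dvd_mul_right _ _⟩, Int.mul_ediv_cancel_left _ hM0]
      ring
    rw [this]
    push_cast
    ring
  · intro a _ b _ hab
    exact mul_left_cancel₀ hM0 hab
  · intro x hx hx'
    have : nu h M τ μ m k₁ p x - μ p x = 0 := by
      unfold nu
      split_ifs with hc
      · obtain ⟨_, _, y, rfl⟩ := hc
        rw [Int.mul_ediv_cancel_left _ hM0, kap_zero]
        · ring
        · intro hy
          exact hx' (mem_image_of_mem _ hy)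
      · ring
    rw [this]
    simp

theorem inner_zero (h M : ℕ) (τ : ℕ → ℤ) (μ : ℕ → ℤ → ℝ) (m : ℕ → ℝ)
    (k₁ p : ℕ) (hd : ¬ (M : ℤ) ∣ τ p) (G : ℤ → ℂ) :
    ∑ b ∈ ival h p, ((nu h M τ μ m k₁ p b - μ p b : ℝ) : ℂ) * G b = 0 := by
  refine sum_eq_zero fun b _ => ?_
  have : nu h M τ μ m k₁ p b - μ p b = 0 := by
    unfold nu
    rw [if_neg (fun hc => hd hc.2.1)]
    ring
  rw [this]
  simp

theorem norm_inner_le {h M : ℕ} {τ : ℕ → ℤ} {μ : ℕ → ℤ → ℝ} {m : ℕ → ℝ}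
    {k₁ p : ℕ} (hp : p.Prime) (hr : IsRef h M τ μ)
    (h0 : ∀ b, 0 ≤ nu h M τ μ m k₁ p b) (h1 : ∑ b ∈ ival h p, nu h M τ μ m k₁ p b = 1)
    (G : ℤ → ℂ) (S : ℝ) (hG : ∀ b, ‖G b‖ ≤ S) :
    ‖∑ b ∈ ival h p, ((nu h M τ μ m k₁ p b - μ p b : ℝ) : ℂ) * G b‖ ≤ 2 * S := by
  calc ‖∑ b ∈ ival h p, ((nu h M τ μ m k₁ p b - μ p b : ℝ) : ℂ) * G b‖
      ≤ ∑ b ∈ ival h p, ‖((nu h M τ μ m k₁ p b - μ p b : ℝ) : ℂ) * G b‖ := norm_sum_le _ _
    _ ≤ ∑ b ∈ ival h p, (nu h M τ μ m k₁ p b + μ p b) * S := by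
        refine sum_le_sum fun b _ => ?_
        rw [norm_mul, Complex.norm_real, Real.norm_eq_abs]
        have h2 := h0 b
        have h3 := hr.nonneg p hp b
        refine mul_le_mul ?_ (hG b) (norm_nonneg _) (by linarith)
        rw [abs_le]
        constructor <;> linarith
    _ = 2 * S := by
        rw [← sum_mul, sum_add_distrib, h1, hr.sum p hp]
        ring

end Blk

open Blk in
theorem blo (hB : S_B) (hBIAS : S_BIAS) : S_BLK := by
  intro h M τ μ δ f m k₀ C' k₁ hh hM hδ hr hm hk₁ h0 h1 ε hε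
  obtain ⟨C₁, hC₁, -, hb⟩ := hBIAS h M hh hM ε hε
  refine ⟨|C'| * C₁ + 2, by positivity, ?_⟩
  intro q _ Γ S hS k hk
  have hS0 : 0 ≤ S := (norm_nonneg (Γ 0 0)).trans (hS 0 0)
  have hq1 : (1 : ℝ) ≤ q := by exact_mod_cast Nat.one_le_iff_ne_zero.2 (NeZero.ne q)
  have hmk : m k ≤ |C'| * e2 (-(k / 4)) := by
    refine (hm.le k (hk₁.trans hk)).trans ?_
    refine mul_le_mul (le_abs_self _) (e2_mono ?_) (e2_pos _).le (abs_nonneg _)
    have : (0 : ℝ) ≤ k * δ := by positivity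
    nlinarith
  have hmk' : m k ≤ |C'| := by
    refine hmk.trans ?_
    refine mul_le_of_le_one_right (abs_nonneg _) ?_
    rw [← e2_zero]
    refine e2_mono ?_
    have : (0 : ℝ) ≤ k := Nat.cast_nonneg _
    linarith
  have hm0 : 0 ≤ m k := hm.nonneg k
  have hmain : ∀ T : ℝ, 0 ≤ T → (∀ p ∈ blk k,
      ‖∑ b ∈ ival h p, ((nu h M τ μ m k₁ p b - μ p b : ℝ) : ℂ) * Γ p (b : ZMod q)‖ ≤ T) →
      ∑ p ∈ blk k, ‖∑ b ∈ ival h p, ((nu h M τ μ m k₁ p b - μ p b : ℝ) : ℂ) * Γ p (b : ZMod q)‖ ≤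
        e2 k * T := by
    intro T hT hle
    refine (sum_le_sum hle).trans ?_
    rw [sum_const, nsmul_eq_mul]
    exact mul_le_mul_of_nonneg_right (card_blk k) hT
  have hfin : ∀ T : ℝ, (∀ γ : ℕ → ZMod q → ℂ, (∀ p x, ‖γ p x‖ ≤ S) → ∀ p,
      ‖∑ b ∈ Icc (-(B h M k : ℤ)) (B h M k), (kap h M k b : ℂ) * γ p (b : ZMod q)‖ ≤ T) →
      ∀ p ∈ blk k,
      ‖∑ b ∈ ival h p, ((nu h M τ μ m k₁ p b - μ p b : ℝ) : ℂ) * Γ p (b : ZMod q)‖ ≤ m k * T := by
    intro T hT p hp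
    have hT0 : 0 ≤ T := (norm_nonneg _).trans (hT Γ hS 0)
    obtain ⟨hpp, hpk⟩ := Pool.Agent.H414.LT.mem_blk.1 hp
    by_cases hd : (M : ℤ) ∣ τ p
    · have h2 := inner hB h M hM τ μ m k₁ p hpp (by rw [hpk]; exact hk) hd
        (fun b => Γ p (b : ZMod q))
      rw [hpk] at h2
      rw [h2, norm_mul, Complex.norm_real, Real.norm_of_nonneg hm0]
      refine mul_le_mul_of_nonneg_left ?_ hm0
      have h3 := hT (fun p x => Γ p ((M : ZMod q) * x)) (fun p x => hS _ _) p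
      simpa using h3
    · rw [inner_zero h M τ μ m k₁ p hd (fun b => Γ p (b : ZMod q)), norm_zero]
      exact mul_nonneg hm0 hT0
  have hE : (0 : ℝ) ≤ k := Nat.cast_nonneg _
  have hkε : (0 : ℝ) ≤ k * ε := by positivity
  by_cases hq : (q : ℝ) ≤ e2 (k / 2)
  · by_cases hq' : q ≤ Q k
    · have h2 : ∀ γ : ℕ → ZMod q → ℂ, (∀ p x, ‖γ p x‖ ≤ S) → ∀ p,
          ‖∑ b ∈ Icc (-(B h M k : ℤ)) (B h M k), (kap h M k b : ℂ) * γ p (b : ZMod q)‖ ≤
            C₁ * S * e2 (-(k / 2)) :=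
        fun γ hγ p => (hb k q (γ p) S hq (hγ p)).1 hq'
      have h3 := hmain (m k * (C₁ * S * e2 (-(k / 2))))
        (mul_nonneg hm0 (mul_nonneg (mul_nonneg hC₁ hS0) (e2_pos _).le)) (hfin _ h2)
      refine h3.trans ?_
      have e1 : e2 k * (m k * (C₁ * S * e2 (-(k / 2)))) = m k * C₁ * S * e2 (k / 2) := by
        have : e2 (k / 2) = e2 k * e2 (-(k / 2)) := by rw [← e2_add]; congr 1; ring
        rw [this]; ring
      rw [e1]
      have e2' : e2 (k / 2) ≤ q * e2 (k * (1 / 2 + ε)) := by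
        have a1 : e2 (k / 2) ≤ e2 (k * (1 / 2 + ε)) := e2_mono (by linarith)
        have a2 : e2 (k * (1 / 2 + ε)) ≤ q * e2 (k * (1 / 2 + ε)) :=
          le_mul_of_one_le_left (e2_pos _).le hq1
        exact a1.trans a2
      calc m k * C₁ * S * e2 (k / 2) ≤ (|C'| * C₁ + 2) * S * e2 (k / 2) := by
            refine mul_le_mul_of_nonneg_right ?_ (e2_pos _).le
            refine mul_le_mul_of_nonneg_right ?_ hS0
            have := mul_le_mul_of_nonneg_right hmk' hC₁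
            linarith
        _ ≤ (|C'| * C₁ + 2) * S * (q * e2 (k * (1 / 2 + ε))) :=
            mul_le_mul_of_nonneg_left e2' (mul_nonneg (by positivity) hS0)
        _ = (|C'| * C₁ + 2) * q * S * e2 (k * (1 / 2 + ε)) := by ring
    · have h2 : ∀ γ : ℕ → ZMod q → ℂ, (∀ p x, ‖γ p x‖ ≤ S) → ∀ p,
          ‖∑ b ∈ Icc (-(B h M k : ℤ)) (B h M k), (kap h M k b : ℂ) * γ p (b : ZMod q)‖ ≤
            C₁ * S * e2 (ε * k) :=
        fun γ hγ p => (hb k q (γ p) S hq (hγ p)).2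
      have h3 := hmain (m k * (C₁ * S * e2 (ε * k)))
        (mul_nonneg hm0 (mul_nonneg (mul_nonneg hC₁ hS0) (e2_pos _).le)) (hfin _ h2)
      refine h3.trans ?_
      have hq4 : e2 (k / 4) ≤ q := by
        have a1 : e2 (k / 4) < (Q k : ℝ) + 1 := by
          unfold Q
          exact Nat.lt_floor_add_one _
        have a2 : (Q k : ℝ) + 1 ≤ q := by
          have : Q k + 1 ≤ q := by omega
          exact_mod_cast this
        linarith
      calc e2 k * (m k * (C₁ * S * e2 (ε * k)))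
          ≤ e2 k * ((|C'| * e2 (-(k / 4))) * (C₁ * S * e2 (ε * k))) := by
            refine mul_le_mul_of_nonneg_left ?_ (e2_pos _).le
            exact mul_le_mul_of_nonneg_right hmk
              (mul_nonneg (mul_nonneg hC₁ hS0) (e2_pos _).le)
        _ = |C'| * C₁ * S * (e2 k * e2 (-(k / 4)) * e2 (ε * k)) := by ring
        _ = |C'| * C₁ * S * (e2 (k / 4) * e2 (k * (1 / 2 + ε))) := by
            rw [← e2_add, ← e2_add, ← e2_add]
            congr 2
            ring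
        _ ≤ |C'| * C₁ * S * (q * e2 (k * (1 / 2 + ε))) := by
            refine mul_le_mul_of_nonneg_left ?_ (mul_nonneg (by positivity) hS0)
            exact mul_le_mul_of_nonneg_right hq4 (e2_pos _).le
        _ ≤ (|C'| * C₁ + 2) * S * (q * e2 (k * (1 / 2 + ε))) := by
            refine mul_le_mul_of_nonneg_right ?_ (mul_nonneg (by positivity) (e2_pos _).le)
            exact mul_le_mul_of_nonneg_right (by linarith) hS0
        _ = (|C'| * C₁ + 2) * q * S * e2 (k * (1 / 2 + ε)) := by ring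
  · have h3 := hmain (2 * S) (by positivity) (fun p hp => by
      obtain ⟨hpp, hpk⟩ := Pool.Agent.H414.LT.mem_blk.1 hp
      exact norm_inner_le hpp hr (h0 p hpp) (h1 p hpp) (fun b => Γ p (b : ZMod q)) S
        (fun b => hS _ _))
    refine h3.trans ?_
    push Not at hq
    calc e2 k * (2 * S) = 2 * S * (e2 (k / 2) * e2 (k / 2)) := by
          rw [← e2_add]
          have : (k : ℝ) / 2 + k / 2 = k := by ring
          rw [this]
          ring
      _ ≤ 2 * S * (q * e2 (k * (1 / 2 + ε))) := by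
          refine mul_le_mul_of_nonneg_left ?_ (by positivity)
          refine mul_le_mul hq.le (e2_mono ?_) (e2_pos _).le (by positivity)
          linarith
      _ ≤ (|C'| * C₁ + 2) * S * (q * e2 (k * (1 / 2 + ε))) := by
          refine mul_le_mul_of_nonneg_right ?_ (mul_nonneg (by positivity) (e2_pos _).le)
          refine mul_le_mul_of_nonneg_right ?_ hS0
          have : 0 ≤ |C'| * C₁ := by positivity
          linarith
      _ = (|C'| * C₁ + 2) * q * S * e2 (k * (1 / 2 + ε)) := by ring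

end Pool.Agent.H414.LH
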