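import Pool.Agent.H414.LH.Spec

set_option autoImplicit false

/-! Task Bnd of the project LH: the size of `B`. -/

namespace Pool.Agent.H414.LH

open Finset
open Pool.Agent.H414.LT (primesUpTo blk kk)
open Pool.Agent.H414.DF (l2 e2)

namespace Bnd

theorem e2_sq (k h : ℕ) : e2 (k * h / 2) ^ 2 = ((2 ^ (k * h) : ℕ) : ℝ) := by
  have h1 : e2 ((k : ℝ) * h / 2) = (2 : ℝ) ^ ((k : ℝ) * h / 2) := rfl
  rw [h1, ← Real.rpow_natCast, ← Real.rpow_mul (by norm_num)]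
  have h2 : (k : ℝ) * h / 2 * ((2 : ℕ) : ℝ) = ((k * h : ℕ) : ℝ) := by
    push_cast
    ring
  rw [h2, Real.rpow_natCast]
  push_cast
  rfl

theorem e2_lt (k h : ℕ) : e2 (k * h / 2) < (Nat.sqrt (2 ^ (k * h)) : ℝ) + 1 := by
  refine lt_of_pow_lt_pow_left₀ 2 (by positivity) ?_
  rw [e2_sq]
  have := Nat.lt_succ_sqrt' (2 ^ (k * h))
  exact_mod_cast this

end Bnd

theorem bnd : S_B := by
  intro h M k hM
  refine ⟨?_, Nat.mul_div_le _ _⟩
  have h1 := Bnd.e2_lt k h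
  have h2 : Nat.sqrt (2 ^ (k * h)) + 1 ≤ M * (B h M k + 1) := by
    have := Nat.lt_mul_div_succ (Nat.sqrt (2 ^ (k * h))) (show 0 < M by omega)
    exact this
  have h3 : (Nat.sqrt (2 ^ (k * h)) : ℝ) + 1 ≤ M * ((B h M k : ℝ) + 1) := by exact_mod_cast h2
  have h4 : (0 : ℝ) ≤ M := Nat.cast_nonneg M
  have h5 : (0 : ℝ) ≤ B h M k := Nat.cast_nonneg _
  nlinarith [mul_nonneg h4 h5]

end Pool.Agent.H414.LH
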