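import Pool.Agent.H414.DF.Defs

/-!
Definitions of the project LH: Hecke systems (`h = 11`: Ramanujan's function `τ`), and what the Riemann
hypothesis and Artin's conjecture for all the fields cut out by the Galois representations modulo `q`
attached to a newform of weight `h + 1` say.

From `Pool.Agent.H414.LT`: `primesUpTo x` is the set of the primes `p ≤ x`, and `blk k` the set of the
primes `2 ^ k < p ≤ 2 ^ (k + 1)`; from `Pool.Agent.H414.DF`: `l2 F = (∑ x, ‖F x‖ ^ 2) ^ (1 / 2)`.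
-/

set_option autoImplicit false

namespace Pool.Agent.H414.LH

open Finset
open Pool.Agent.H414.LT (primesUpTo blk)
open Pool.Agent.H414.DF (l2)

/-- The multiplicative functions with the relations of the coefficients of a normalised Hecke
eigenform of level one and weight `h + 1`; for `h = 11` these are the relations of Ramanujan's `τ`. -/
def IsHecke (h : ℕ) (A : ℕ → ℤ) : Prop :=
  A 1 = 1 ∧ (∀ m n : ℕ, 0 < m → 0 < n → m.Coprime n → A (m * n) = A m * A n) ∧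
    ∀ p k : ℕ, p.Prime → A (p ^ (k + 2)) = A p * A (p ^ (k + 1)) - (p : ℤ) ^ h * A (p ^ k)

/-- Deligne's bound `|a p| ≤ 2 p ^ (h / 2)` for all primes `p`. -/
def IsSystem (h : ℕ) (a : ℕ → ℤ) : Prop := ∀ p : ℕ, p.Prime → a p ^ 2 ≤ 4 * (p : ℤ) ^ h

/-- The integers `b` with `b ^ 2 ≤ 4 p ^ h`. -/
noncomputable def ival (h p : ℕ) : Finset ℤ :=
  Icc (-(Nat.sqrt (4 * p ^ h) : ℤ)) (Nat.sqrt (4 * p ^ h))

/-- Reference laws: `μ p` is a probability on the integers `b` with `b ^ 2 ≤ 4 p ^ h` and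
`b ≡ τ p (mod M)`, which is at most `p ^ (- h / 2)` and, if `b ^ 2 ≤ p ^ h`, at least `p ^ (- h / 2)`,
up to factors `p ^ ε`. -/
structure IsRef (h M : ℕ) (τ : ℕ → ℤ) (μ : ℕ → ℤ → ℝ) : Prop where
  /-- probabilities -/
  nonneg : ∀ p : ℕ, p.Prime → ∀ b, 0 ≤ μ p b
  /-- the total mass is one -/
  sum : ∀ p : ℕ, p.Prime → ∑ b ∈ ival h p, μ p b = 1
  /-- only the `b ≡ τ p (mod M)` occur -/
  supp : ∀ p : ℕ, p.Prime → ∀ b, ¬ (M : ℤ) ∣ b - τ p → μ p b = 0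
  /-- the upper bound -/
  upper : ∀ ε : ℝ, 0 < ε → ∃ C : ℝ, ∀ p : ℕ, p.Prime → ∀ b, μ p b ≤ C * (p : ℝ) ^ (ε - h / 2)
  /-- the lower bound -/
  lower : ∀ ε : ℝ, 0 < ε → ∃ c : ℝ, 0 < c ∧ ∀ p : ℕ, p.Prime → ∀ b : ℤ, (M : ℤ) ∣ b - τ p →
    b ^ 2 ≤ (p : ℤ) ^ h → c * (p : ℝ) ^ (-ε - h / 2) ≤ μ p b

/-- The bounds which the Riemann hypothesis and Artin's conjecture give for functions `F` of the
determinant and the trace modulo `q` (with respect to the laws `μ`), uniformly in `q`, with the twists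
`c i`; up to factors `q ^ ε`, the number `q * l2 F` is the square root of the sum of `|F| ^ 2` over the group
`GL_2(ZMod q)`. -/
def HasBound (h : ℕ) (μ : ℕ → ℤ → ℝ) (c : ℕ → ℕ → ℂ) (a : ℕ → ℤ) : Prop :=
  ∀ (i : ℕ) (ε : ℝ), 0 < ε → ∃ C : ℝ, ∀ (q : ℕ) [NeZero q] (F : ZMod q × ZMod q → ℂ) (x : ℕ),
    ‖∑ p ∈ primesUpTo x, c i p * (F (p, a p) - ∑ b ∈ ival h p, (μ p b : ℂ) * F (p, b))‖ ≤
      C * q * l2 F * ((x : ℝ) + 1) ^ (1 / 2 + ε)

/-- The value at `b ^ 2 / p ^ h` modulo `q` of a function `G`, for `p` prime to `q`, and `0` otherwise. -/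
noncomputable def proj (h : ℕ) {q : ℕ} (G : ZMod q → ℂ) (p : ℕ) (b : ℤ) : ℂ :=
  if p.Coprime q then G ((b : ZMod q) ^ 2 * ((p : ZMod q) ^ h)⁻¹) else 0

/-- The stronger bounds for the functions `G` of `trace ^ 2 / determinant`, which come from the group
`PGL_2(ZMod q)`; up to factors `q ^ ε`, the number `q * l2 G` is (for primes `q`) the square root of the sum
of `|G| ^ 2` over this group. -/
def HasBoundP (h : ℕ) (μ : ℕ → ℤ → ℝ) (c : ℕ → ℕ → ℂ) (a : ℕ → ℤ) : Prop :=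
  ∀ (i : ℕ) (ε : ℝ), 0 < ε → ∃ C : ℝ, ∀ (q : ℕ) [NeZero q] (G : ZMod q → ℂ) (x : ℕ),
    ‖∑ p ∈ primesUpTo x, c i p * (proj h G p (a p) -
      ∑ b ∈ ival h p, (μ p b : ℂ) * proj h G p b)‖ ≤
      C * q * l2 G * ((x : ℝ) + 1) ^ (1 / 2 + ε)

end Pool.Agent.H414.LH
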