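import Pool.Agent.H414.LH.Spec

/-!
The kernel acts as `δ_0` on functions modulo `q ≤ Q` (helper284; the class means `HH` follow the file
`DF/Del.lean` of helper997).
-/

set_option autoImplicit false

namespace Pool.Agent.H414.LH

open Finset
open Pool.Agent.H414.LT (primesUpTo blk kk)
open Pool.Agent.H414.DF (l2 e2)

namespace Del

theorem e2_pos (x : ℝ) : 0 < e2 x := Real.rpow_pos_of_pos (by norm_num) _

theorem e2_add (x y : ℝ) : e2 (x + y) = e2 x * e2 y := Real.rpow_add (by norm_num) _ _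

theorem e2_mono {x y : ℝ} (h : x ≤ y) : e2 x ≤ e2 y :=
  Real.rpow_le_rpow_of_exponent_le (by norm_num) h

theorem e2_zero : e2 0 = 1 := Real.rpow_zero _

theorem e2_pow (x : ℝ) (n : ℕ) : e2 x ^ n = e2 (x * n) := by
  unfold e2
  rw [Real.rpow_mul_natCast (by norm_num)]

/-- the number of the integers of an interval in a residue class -/
theorem count (B D : ℕ) [NeZero D] (γ : ZMod D) :
    |(((Icc (-(B : ℤ)) B).filter (fun b : ℤ => (b : ZMod D) = γ)).card : ℝ) - (2 * B + 1) / D| ≤ 1 := by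
  have hD : (0 : ℤ) < D := by exact_mod_cast Nat.pos_of_ne_zero (NeZero.ne D)
  have h1 : (Icc (-(B : ℤ)) B).filter (fun b : ℤ => (b : ZMod D) = γ) =
      (Ioc (-(B : ℤ) - 1) B).filter (fun b : ℤ => b ≡ (γ.val : ℤ) [ZMOD (D : ℤ)]) := by
    ext b
    rw [mem_filter, mem_filter, mem_Icc, mem_Ioc]
    have e1 : (b : ZMod D) = γ ↔ b ≡ (γ.val : ℤ) [ZMOD (D : ℤ)] := by
      rw [← ZMod.intCast_eq_intCast_iff]
      rw [Int.cast_natCast, ZMod.natCast_zmod_val]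
    rw [e1]
    constructor
    · rintro ⟨⟨h1, h2⟩, h3⟩
      exact ⟨⟨by omega, h2⟩, h3⟩
    · rintro ⟨⟨h1, h2⟩, h3⟩
      exact ⟨⟨by omega, h2⟩, h3⟩
  have h2 := Int.Ioc_filter_modEq_card (-(B : ℤ) - 1) B hD (γ.val : ℤ)
  rw [h1]
  set c := ((Ioc (-(B : ℤ) - 1) B).filter (fun b : ℤ => b ≡ (γ.val : ℤ) [ZMOD (D : ℤ)])).card with hc
  have hD' : (0 : ℚ) < D := by exact_mod_cast hD
  set X : ℚ := ((B : ℤ) - (γ.val : ℤ) : ℚ) / ((D : ℤ) : ℚ) with hX
  set Y : ℚ := ((-(B : ℤ) - 1 : ℤ) - (γ.val : ℤ) : ℚ) / ((D : ℤ) : ℚ) with hY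
  have hXY : X - Y = (2 * B + 1) / D := by
    rw [hX, hY]
    push_cast
    ring
  have hpos : (0 : ℚ) ≤ (2 * B + 1) / D := by positivity
  have hle : ⌊Y⌋ ≤ ⌊X⌋ := Int.floor_le_floor (by linarith)
  have h3 : (c : ℤ) = ⌊X⌋ - ⌊Y⌋ := by
    rw [h2]
    exact max_eq_left (by linarith)
  have h4 : (c : ℚ) = (⌊X⌋ : ℚ) - ⌊Y⌋ := by exact_mod_cast h3
  have h5 : |(c : ℚ) - (2 * B + 1) / D| ≤ 1 := by
    rw [h4, ← hXY, abs_le]
    have a1 := Int.floor_le X
    have a2 := Int.lt_floor_add_one X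
    have a3 := Int.floor_le Y
    have a4 := Int.lt_floor_add_one Y
    constructor <;> linarith
  have h6 : ((|(c : ℚ) - (2 * B + 1) / D| : ℚ) : ℝ) ≤ ((1 : ℚ) : ℝ) := by exact_mod_cast h5
  push_cast at h6
  exact h6

/-- the mean over an interval of a periodic function -/
theorem mean (B D : ℕ) [NeZero D] (G : ZMod D → ℂ) (hG : ∀ γ, ‖G γ‖ ≤ 1) :
    ‖(∑ b ∈ Icc (-(B : ℤ)) B, G (b : ZMod D)) / (2 * B + 1) - (∑ γ, G γ) / D‖ ≤
      (D : ℝ) / (2 * B + 1) := by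
  have hL : (0 : ℝ) < 2 * B + 1 := by positivity
  have hLc : ((2 : ℂ) * B + 1) ≠ 0 := by
    have : ((2 * B + 1 : ℕ) : ℂ) ≠ 0 := Nat.cast_ne_zero.2 (by omega)
    push_cast at this
    exact this
  have hDc : (D : ℂ) ≠ 0 := by exact_mod_cast NeZero.ne D
  set c : ZMod D → ℕ := fun γ =>
    ((Icc (-(B : ℤ)) B).filter (fun b : ℤ => (b : ZMod D) = γ)).card with hc
  have h1 : ∑ b ∈ Icc (-(B : ℤ)) B, G (b : ZMod D) = ∑ γ, (c γ : ℂ) * G γ := by
    rw [← sum_fiberwise_of_maps_to (s := Icc (-(B : ℤ)) B) (t := (univ : Finset (ZMod D)))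
      (g := fun b : ℤ => (b : ZMod D)) (fun b _ => mem_univ _)]
    refine sum_congr rfl fun γ _ => ?_
    rw [sum_congr rfl (g := fun _ => G γ) (fun b hb => by rw [(mem_filter.1 hb).2]), sum_const,
      nsmul_eq_mul]
  have h2 : (∑ b ∈ Icc (-(B : ℤ)) B, G (b : ZMod D)) / (2 * B + 1) - (∑ γ, G γ) / D =
      ∑ γ, (((c γ : ℝ) - (2 * B + 1) / D : ℝ) : ℂ) / (2 * B + 1) * G γ := by
    rw [h1, sum_div, sum_div, ← sum_sub_distrib]
    refine sum_congr rfl fun γ _ => ?_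
    push_cast
    field_simp
  rw [h2]
  refine (norm_sum_le _ _).trans ?_
  have h3 : ∀ γ ∈ (univ : Finset (ZMod D)),
      ‖(((c γ : ℝ) - (2 * B + 1) / D : ℝ) : ℂ) / (2 * B + 1) * G γ‖ ≤ 1 / (2 * B + 1) := by
    intro γ _
    have e1 : ‖((2 : ℂ) * B + 1)‖ = 2 * B + 1 := by
      have : ((2 : ℂ) * B + 1) = ((2 * B + 1 : ℕ) : ℂ) := by push_cast; ring
      rw [this, Complex.norm_natCast]
      push_cast
      ring
    rw [norm_mul, norm_div, Complex.norm_real, Real.norm_eq_abs, e1]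
    have e2' := count B D γ
    calc |(c γ : ℝ) - (2 * B + 1) / D| / (2 * B + 1) * ‖G γ‖ ≤ 1 / (2 * B + 1) * 1 := by
          refine mul_le_mul ?_ (hG γ) (norm_nonneg _) (by positivity)
          exact div_le_div_of_nonneg_right e2' hL.le
      _ = _ := mul_one _
  refine (sum_le_sum h3).trans (le_of_eq ?_)
  rw [sum_const, card_univ, ZMod.card, nsmul_eq_mul]
  ring

/-- the number of the classes modulo `q` over a class modulo `g` -/
theorem fiber_card {g q : ℕ} [NeZero g] [NeZero q] (h : g ∣ q) :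
    ((univ : Finset (ZMod q)).filter (fun α => (α.cast : ZMod g) = 0)).card * g = q := by
  classical
  let f : ZMod q →+ ZMod g := (ZMod.castHom h (ZMod g)).toAddMonoidHom
  have hsurj : Function.Surjective f := ZMod.castHom_surjective h
  have hN : ∀ y : ZMod g, ((univ : Finset (ZMod q)).filter
      (fun α => f α = y)).card = ((univ : Finset (ZMod q)).filter (fun α => f α = 0)).card :=
    fun y => AddMonoidHom.card_fiber_eq_of_mem_range f (hsurj y) (hsurj 0)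
  have h1 := card_eq_sum_card_fiberwise (f := f) (s := (univ : Finset (ZMod q)))
    (t := (univ : Finset (ZMod g))) (fun _ _ => mem_coe.2 (mem_univ _))
  rw [sum_congr rfl fun y _ => hN y, sum_const, card_univ, card_univ, ZMod.card, ZMod.card,
    smul_eq_mul] at h1
  rw [mul_comm]
  exact h1.symm

/-- the means over the classes -/
noncomputable def HH {q : ℕ} [NeZero q] (G : ZMod q → ℂ) (g : ℕ) : ℂ :=
  if g ∣ q then ((g : ℂ) / (q : ℂ)) * ∑ α : ZMod q,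
    (if (α.cast : ZMod g) = 0 then G α else 0) else 0

theorem HH_le {q : ℕ} [NeZero q] {G : ZMod q → ℂ} (hG : ∀ γ, ‖G γ‖ ≤ 1) (g : ℕ) :
    ‖HH G g‖ ≤ 1 := by
  unfold HH
  split_ifs with h
  swap
  · rw [norm_zero]
    exact zero_le_one
  have hq0 : q ≠ 0 := NeZero.ne q
  have hg0 : g ≠ 0 := by
    rintro rfl
    exact hq0 (zero_dvd_iff.1 h)
  have : NeZero g := ⟨hg0⟩
  have h1 : ‖∑ α : ZMod q, (if (α.cast : ZMod g) = 0 then G α else 0)‖ ≤
      (((univ : Finset (ZMod q)).filter (fun α => (α.cast : ZMod g) = 0)).card : ℝ) := by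
    rw [← sum_filter]
    refine (norm_sum_le _ _).trans ?_
    refine (sum_le_sum fun α _ => hG α).trans (le_of_eq ?_)
    rw [sum_const, nsmul_eq_mul, mul_one]
  have h3 : (((univ : Finset (ZMod q)).filter (fun α => (α.cast : ZMod g) = 0)).card : ℝ) *
      (g : ℝ) = (q : ℝ) := by exact_mod_cast fiber_card h
  rw [norm_mul, norm_div, Complex.norm_natCast, Complex.norm_natCast]
  have hq : (0 : ℝ) < (q : ℝ) := by exact_mod_cast Nat.pos_of_ne_zero hq0
  rw [div_mul_eq_mul_div, div_le_one hq, ← h3, mul_comm]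
  exact mul_le_mul_of_nonneg_right h1 (by positivity)

theorem HH_q {q : ℕ} [NeZero q] (G : ZMod q → ℂ) : HH G q = G 0 := by
  unfold HH
  have hq0 : (q : ℂ) ≠ 0 := by exact_mod_cast NeZero.ne q
  rw [if_pos dvd_rfl, div_self hq0, one_mul]
  have h1 : ∀ α : ZMod q, (if (α.cast : ZMod q) = 0 then G α else 0) =
      if α = 0 then G α else 0 := by
    intro α
    rw [ZMod.cast_id]
  rw [sum_congr rfl fun α _ => h1 α, sum_ite_eq' univ (0 : ZMod q) G, if_pos (mem_univ _)]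

/-- Chinese remainders in dimension one -/
theorem crt (hCRT : DF.S_CRT) (d q : ℕ) [NeZero d] [NeZero q] (G : ZMod q → ℂ) :
    ∑ γ : ZMod (d * q), (if (γ.cast : ZMod d) = 0 then G γ.cast else 0) =
      ((Nat.gcd d q : ℕ) : ℂ) * ∑ α : ZMod q,
        (if (α.cast : ZMod (Nat.gcd d q)) = 0 then G α else 0) := by
  have h := hCRT 1 d q 0 (fun α => G (α 0))
  rw [pow_one] at h
  have e1 : ∑ γ : Fin 1 → ZMod (d * q), (if ∀ i, ((γ i).cast : ZMod d) =
      (((0 : Fin 1 → ℤ) i : ℤ) : ZMod d) then G ((γ 0).cast) else 0) =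
      ∑ γ : ZMod (d * q), (if (γ.cast : ZMod d) = 0 then G γ.cast else 0) := by
    rw [← (Equiv.funUnique (Fin 1) (ZMod (d * q))).sum_comp]
    refine sum_congr rfl fun γ _ => ?_
    simp
  have e2' : ∑ α : Fin 1 → ZMod q, (if ∀ i, ((α i).cast : ZMod (Nat.gcd d q)) =
      (((0 : Fin 1 → ℤ) i : ℤ) : ZMod (Nat.gcd d q)) then G (α 0) else 0) =
      ∑ α : ZMod q, (if (α.cast : ZMod (Nat.gcd d q)) = 0 then G α else 0) := by
    rw [← (Equiv.funUnique (Fin 1) (ZMod q)).sum_comp]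
    refine sum_congr rfl fun γ _ => ?_
    simp
  rw [← e1, ← e2']
  exact h

/-- the means over the multiples of `d` -/
noncomputable def WW (B : ℕ) {q : ℕ} (G : ZMod q → ℂ) (d : ℕ) : ℂ :=
  (∑ b ∈ Icc (-(B : ℤ)) B, (if (d : ℤ) ∣ b then G (b : ZMod q) else 0)) / (2 * B + 1)

theorem WW_eq (hCRT : DF.S_CRT) (B : ℕ) {q : ℕ} [NeZero q] {G : ZMod q → ℂ}
    (hG : ∀ γ, ‖G γ‖ ≤ 1) {d : ℕ} (hd : 1 ≤ d) :
    ‖(d : ℂ) * WW B G d - HH G (Nat.gcd d q)‖ ≤ (d : ℝ) ^ 2 * (q / (2 * B + 1)) := by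
  have : NeZero d := ⟨by omega⟩
  have hd0 : (d : ℂ) ≠ 0 := by exact_mod_cast NeZero.ne d
  have hq0 : (q : ℂ) ≠ 0 := by exact_mod_cast NeZero.ne q
  set GD : ZMod (d * q) → ℂ := fun γ => if (γ.cast : ZMod d) = 0 then G γ.cast else 0 with hGD
  have h1 := mean B (d * q) GD (by
    intro γ
    rw [hGD]
    simp only
    split_ifs
    · exact hG _
    · rw [norm_zero]
      exact zero_le_one)
  have h2 : (∑ b ∈ Icc (-(B : ℤ)) B, GD (b : ZMod (d * q))) / (2 * B + 1) = WW B G d := by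
    unfold WW
    rw [sum_congr rfl fun b _ => ?_]
    rw [hGD]
    simp only
    rw [ZMod.cast_intCast (R := ZMod d) (dvd_mul_right d q) b,
      ZMod.cast_intCast (R := ZMod q) (dvd_mul_left q d) b]
    simp only [ZMod.intCast_zmod_eq_zero_iff_dvd]
  have h3 : (∑ γ, GD γ) = ((Nat.gcd d q : ℕ) : ℂ) * ∑ α : ZMod q,
      (if (α.cast : ZMod (Nat.gcd d q)) = 0 then G α else 0) := crt hCRT d q G
  have h4 : (d : ℂ) * ((∑ γ, GD γ) / ((d * q : ℕ) : ℂ)) = HH G (Nat.gcd d q) := by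
    unfold HH
    rw [if_pos (Nat.gcd_dvd_right d q), h3]
    push_cast
    field_simp
  rw [h2] at h1
  have h5 : (d : ℂ) * WW B G d - HH G (Nat.gcd d q) =
      (d : ℂ) * (WW B G d - (∑ γ, GD γ) / ((d * q : ℕ) : ℂ)) := by
    rw [← h4]
    ring
  rw [h5, norm_mul, Complex.norm_natCast]
  refine (mul_le_mul_of_nonneg_left h1 (by positivity)).trans (le_of_eq ?_)
  push_cast
  ring

theorem expand (B : ℕ) {q : ℕ} (G : ZMod q → ℂ) (κ : ℕ) :
    (∑ b ∈ Icc (-(B : ℤ)) B, (DF.Kr 1 κ (fun _ => b) : ℂ) * G (b : ZMod q)) / (2 * B + 1) =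
      ∑ n ∈ Icc 1 κ, ∑ x ∈ n.divisorsAntidiagonal,
        ((ArithmeticFunction.moebius x.1 : ℤ) : ℂ) * ((x.2 : ℂ) * WW B G x.2) := by
  have h1 : ∀ b : ℤ, (DF.Kr 1 κ (fun _ => b) : ℂ) * G (b : ZMod q) =
      ∑ n ∈ Icc 1 κ, ∑ x ∈ n.divisorsAntidiagonal,
        ((ArithmeticFunction.moebius x.1 : ℤ) : ℂ) * ((x.2 : ℂ) *
          (if (x.2 : ℤ) ∣ b then G (b : ZMod q) else 0)) := by
    intro b
    unfold DF.Kr
    push_cast
    rw [sum_mul]
    refine sum_congr rfl fun n _ => ?_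
    rw [sum_mul]
    refine sum_congr rfl fun x _ => ?_
    by_cases h : (x.2 : ℤ) ∣ b
    · rw [if_pos h, if_pos (fun _ => h), Complex.ofReal_one]
      ring
    · rw [if_neg h, if_neg (fun h' => h (h' 0)), Complex.ofReal_zero]
      ring
  rw [sum_congr rfl fun b _ => h1 b, sum_comm, sum_div]
  refine sum_congr rfl fun n _ => ?_
  rw [sum_comm, sum_div]
  refine sum_congr rfl fun x _ => ?_
  unfold WW
  rw [← mul_sum, ← mul_sum]
  ring

/-- the sum of the squares of the divisors of the numbers up to `κ` -/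
theorem sq_sum (κ : ℕ) :
    ∑ n ∈ Icc 1 κ, ∑ x ∈ n.divisorsAntidiagonal, (x.2 : ℝ) ^ 2 ≤ (κ : ℝ) ^ 3 := by
  have h1 : ∀ n ∈ Icc 1 κ, ∑ x ∈ n.divisorsAntidiagonal, (x.2 : ℝ) ^ 2 =
      ∑ d ∈ Icc 1 κ, if d ∣ n then (d : ℝ) ^ 2 else 0 := by
    intro n hn
    rw [mem_Icc] at hn
    rw [Nat.sum_divisorsAntidiagonal' (f := fun _ b => (b : ℝ) ^ 2), ← sum_filter]
    refine sum_congr ?_ fun _ _ => rfl
    ext d
    rw [Nat.mem_divisors, mem_filter, mem_Icc]
    constructor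
    · rintro ⟨h1, h2⟩
      exact ⟨⟨Nat.pos_of_dvd_of_pos h1 (by omega), (Nat.le_of_dvd (by omega) h1).trans hn.2⟩, h1⟩
    · rintro ⟨_, h1⟩
      exact ⟨h1, by omega⟩
  rw [sum_congr rfl h1, sum_comm]
  have h2 : ∀ d ∈ Icc 1 κ, (∑ n ∈ Icc 1 κ, if d ∣ n then (d : ℝ) ^ 2 else 0) ≤ (κ : ℝ) ^ 2 := by
    intro d hd
    rw [mem_Icc] at hd
    rw [← sum_filter, sum_const, nsmul_eq_mul]
    have h3 : ((Icc 1 κ).filter (fun n => d ∣ n)).card = κ / d := by
      have := Nat.Ioc_filter_dvd_card_eq_div κ d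
      exact this
    rw [h3]
    have hd1 : (0 : ℝ) < d := by exact_mod_cast hd.1
    have h4 : ((κ / d : ℕ) : ℝ) ≤ κ / d := Nat.cast_div_le
    have h5 : (d : ℝ) ≤ κ := by exact_mod_cast hd.2
    calc ((κ / d : ℕ) : ℝ) * (d : ℝ) ^ 2 ≤ (κ : ℝ) / d * (d : ℝ) ^ 2 := by gcongr
      _ = (κ : ℝ) * d := by field_simp
      _ ≤ (κ : ℝ) * κ := by gcongr
      _ = (κ : ℝ) ^ 2 := by ring
  refine (sum_le_sum h2).trans (le_of_eq ?_)
  rw [sum_const, Nat.card_Icc, Nat.add_sub_cancel, nsmul_eq_mul]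
  ring

end Del

open Del in
theorem del (hB : S_B) (hCRT : DF.S_CRT) (hMOB : DF.S_MOB) : S_DEL := by
  intro h M hh hM
  refine ⟨4 * M, ?_⟩
  intro k q _ Γ hq hG
  have hh3 : (3 : ℝ) ≤ h := by exact_mod_cast hh
  have hk0 : (0 : ℝ) ≤ k := Nat.cast_nonneg k
  have hM0 : (0 : ℝ) ≤ M := Nat.cast_nonneg M
  have hq0 : (0 : ℝ) ≤ q := Nat.cast_nonneg q
  have hQle : (Q k : ℝ) ≤ e2 (k / 4) := Nat.floor_le (e2_pos _).le
  have hL : (0 : ℝ) < 2 * (B h M k : ℝ) + 1 := by positivity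
  -- the length
  have hinv : 1 / (2 * (B h M k : ℝ) + 1) ≤ 4 * M * e2 (-(3 * k / 2)) := by
    have h1 := (hB h M k hM).1
    have h2 : e2 (3 * k / 2) ≤ e2 (k * h / 2) := by
      apply e2_mono
      nlinarith
    have h3 : e2 (-(3 * k / 2)) * e2 (3 * k / 2) = 1 := by
      rw [← e2_add, neg_add_cancel, e2_zero]
    rw [div_le_iff₀ hL]
    have h4 := e2_pos (-(3 * (k : ℝ) / 2))
    calc (1 : ℝ) = e2 (-(3 * k / 2)) * e2 (3 * k / 2) := h3.symm
      _ ≤ e2 (-(3 * k / 2)) * (4 * M * (2 * (B h M k : ℝ) + 1)) :=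
          mul_le_mul_of_nonneg_left (h2.trans h1) h4.le
      _ = 4 * M * e2 (-(3 * k / 2)) * (2 * (B h M k : ℝ) + 1) := by ring
  -- the error
  have herr : ‖∑ n ∈ Icc 1 (Q k), ∑ x ∈ n.divisorsAntidiagonal,
        ((ArithmeticFunction.moebius x.1 : ℤ) : ℂ) * ((x.2 : ℂ) * WW (B h M k) Γ x.2 -
          HH Γ (Nat.gcd x.2 q))‖ ≤ 4 * M * (q * e2 (-(3 * k / 4))) := by
    have h1 : ∀ n ∈ Icc 1 (Q k), ‖∑ x ∈ n.divisorsAntidiagonal,
        ((ArithmeticFunction.moebius x.1 : ℤ) : ℂ) * ((x.2 : ℂ) * WW (B h M k) Γ x.2 -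
          HH Γ (Nat.gcd x.2 q))‖ ≤
        (∑ x ∈ n.divisorsAntidiagonal, (x.2 : ℝ) ^ 2) * (q / (2 * B h M k + 1)) := by
      intro n hn
      have hn' := mem_Icc.1 hn
      refine (norm_sum_le _ _).trans ?_
      rw [sum_mul]
      refine sum_le_sum fun x hx => ?_
      have h2 := Nat.mem_divisorsAntidiagonal.1 hx
      have hx1 : 1 ≤ x.2 := by
        rcases Nat.eq_zero_or_pos x.2 with h0 | h0
        · rw [h0, mul_zero] at h2
          omega
        · exact h0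
      have h3 := WW_eq hCRT (B h M k) hG hx1
      have h4 : ‖((ArithmeticFunction.moebius x.1 : ℤ) : ℂ)‖ ≤ 1 := by
        rw [Complex.norm_intCast]
        exact_mod_cast ArithmeticFunction.abs_moebius_le_one (n := x.1)
      rw [norm_mul]
      calc _ ≤ 1 * ((x.2 : ℝ) ^ 2 * (q / (2 * B h M k + 1))) :=
            mul_le_mul h4 h3 (norm_nonneg _) zero_le_one
        _ = _ := one_mul _
    refine (norm_sum_le _ _).trans ((sum_le_sum h1).trans ?_)
    rw [← sum_mul]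
    have h5 : (Q k : ℝ) ^ 3 ≤ e2 (3 * k / 4) := by
      calc (Q k : ℝ) ^ 3 ≤ e2 (k / 4) ^ 3 := pow_le_pow_left₀ (Nat.cast_nonneg _) hQle _
        _ = e2 (3 * k / 4) := by
          rw [e2_pow]
          congr 1
          push_cast
          ring
    have h6 : (q : ℝ) / (2 * B h M k + 1) ≤ q * (4 * M * e2 (-(3 * k / 2))) := by
      rw [div_eq_mul_one_div]
      exact mul_le_mul_of_nonneg_left hinv hq0
    calc (∑ n ∈ Icc 1 (Q k), ∑ x ∈ n.divisorsAntidiagonal, (x.2 : ℝ) ^ 2) *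
          (q / (2 * B h M k + 1)) ≤ e2 (3 * k / 4) * (q * (4 * M * e2 (-(3 * k / 2)))) :=
          mul_le_mul ((sq_sum _).trans h5) h6 (by positivity) (e2_pos _).le
      _ = 4 * M * (q * (e2 (3 * k / 4) * e2 (-(3 * k / 2)))) := by ring
      _ = 4 * M * (q * e2 (-(3 * k / 4))) := by
          rw [← e2_add]
          congr 3
          ring
  have hsum : (∑ b ∈ Icc (-(B h M k : ℤ)) (B h M k), (Kz k b : ℂ) * Γ (b : ZMod q)) /
      (2 * B h M k + 1) =
      (∑ n ∈ Icc 1 (Q k), ∑ x ∈ n.divisorsAntidiagonal,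
        ((ArithmeticFunction.moebius x.1 : ℤ) : ℂ) * HH Γ (Nat.gcd x.2 q)) +
      ∑ n ∈ Icc 1 (Q k), ∑ x ∈ n.divisorsAntidiagonal,
        ((ArithmeticFunction.moebius x.1 : ℤ) : ℂ) * ((x.2 : ℂ) * WW (B h M k) Γ x.2 -
          HH Γ (Nat.gcd x.2 q)) := by
    unfold Kz
    rw [expand, ← sum_add_distrib]
    refine sum_congr rfl fun n _ => ?_
    rw [← sum_add_distrib]
    refine sum_congr rfl fun x _ => ?_
    ring
  obtain ⟨hm1, hm2⟩ := hMOB (HH Γ) q (Q k) (Nat.pos_of_ne_zero (NeZero.ne q))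
  constructor
  · intro hqQ
    rw [hsum, hm1 hqQ, HH_q, add_sub_cancel_left]
    refine herr.trans ?_
    have h1 : (q : ℝ) ≤ e2 (k / 4) := le_trans (by exact_mod_cast hqQ) hQle
    calc 4 * (M : ℝ) * (q * e2 (-(3 * k / 4))) ≤ 4 * M * (e2 (k / 4) * e2 (-(3 * k / 4))) := by
          have := e2_pos (-(3 * (k : ℝ) / 4))
          gcongr
      _ = 4 * M * e2 (-(k / 2)) := by
          rw [← e2_add]
          congr 2
          ring
  · rw [hsum]
    have h1 := hm2 1 (HH_le hG)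
    rw [mul_one] at h1
    refine (norm_add_le _ _).trans (add_le_add h1 (herr.trans ?_))
    have h2 : (q : ℝ) * e2 (-(3 * k / 4)) ≤ 1 := by
      calc (q : ℝ) * e2 (-(3 * k / 4)) ≤ e2 (k / 2) * e2 (-(3 * k / 4)) := by
            have := e2_pos (-(3 * (k : ℝ) / 4))
            gcongr
        _ = e2 (-(k / 4)) := by
            rw [← e2_add]
            congr 1
            ring
        _ ≤ 1 := by
            rw [← e2_zero]
            apply e2_mono
            linarith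
    have h3 : (0 : ℝ) ≤ 4 * M := by positivity
    calc 4 * (M : ℝ) * (q * e2 (-(3 * k / 4))) ≤ 4 * M * 1 := mul_le_mul_of_nonneg_left h2 h3
      _ = 4 * M := mul_one _

end Pool.Agent.H414.LH
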