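import Pool.Agent.H414.LH.Spec
import Pool.Agent.H414.DF.Fin

/-!
Assembly of the project LH from the statements of `Spec.lean`.
-/

set_option autoImplicit false

namespace Pool.Agent.H414.LH

open Finset Filter
open Pool.Agent.H414.LT (primesUpTo blk kk)
open Pool.Agent.H414.DF (l2 e2)

theorem Fin.le_l2 {α : Type} [Fintype α] (G : α → ℂ) (x : α) : ‖G x‖ ≤ l2 G := by
  unfold l2
  apply Real.le_sqrt_of_sq_le
  exact single_le_sum (f := fun x => ‖G x‖ ^ 2) (fun _ _ => by positivity) (mem_univ x)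

theorem Fin.l2_nonneg {α : Type} [Fintype α] (G : α → ℂ) : 0 ≤ l2 G := Real.sqrt_nonneg _

/-- The bounds with respect to `ν` and the small bias give the bounds with respect to `μ`. -/
theorem Fin.conv {h : ℕ} (μ ν : ℕ → ℤ → ℝ) (c : ℕ → ℂ) (a : ℕ → ℤ) {q : ℕ} [NeZero q]
    (Γ : ℕ → ZMod q → ℂ) (S : ℝ) (hS : 0 ≤ S) (C1 C2 ε : ℝ) (hε : 0 < ε) (x : ℕ)
    (h1 : ‖∑ p ∈ primesUpTo x, c p * (Γ p (a p : ZMod q) -
      ∑ b ∈ ival h p, (ν p b : ℂ) * Γ p (b : ZMod q))‖ ≤ C1 * q * S * √((x : ℝ) + 1))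
    (h2 : ‖∑ p ∈ primesUpTo x, c p * ∑ b ∈ ival h p,
      ((ν p b - μ p b : ℝ) : ℂ) * Γ p (b : ZMod q)‖ ≤ C2 * q * S * ((x : ℝ) + 1) ^ (1 / 2 + ε)) :
    ‖∑ p ∈ primesUpTo x, c p * (Γ p (a p : ZMod q) -
      ∑ b ∈ ival h p, (μ p b : ℂ) * Γ p (b : ZMod q))‖ ≤
      (|C1| + C2) * q * S * ((x : ℝ) + 1) ^ (1 / 2 + ε) := by
  have e : ∑ p ∈ primesUpTo x, c p * (Γ p (a p : ZMod q) -
      ∑ b ∈ ival h p, (μ p b : ℂ) * Γ p (b : ZMod q)) =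
      ∑ p ∈ primesUpTo x, c p * (Γ p (a p : ZMod q) -
        ∑ b ∈ ival h p, (ν p b : ℂ) * Γ p (b : ZMod q)) +
      ∑ p ∈ primesUpTo x, c p * ∑ b ∈ ival h p,
        ((ν p b - μ p b : ℝ) : ℂ) * Γ p (b : ZMod q) := by
    rw [← sum_add_distrib]
    refine sum_congr rfl fun p _ => ?_
    rw [← mul_add]
    congr 1
    have : ∑ b ∈ ival h p, ((ν p b - μ p b : ℝ) : ℂ) * Γ p (b : ZMod q) =
        ∑ b ∈ ival h p, (ν p b : ℂ) * Γ p (b : ZMod q) -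
        ∑ b ∈ ival h p, (μ p b : ℂ) * Γ p (b : ZMod q) := by
      rw [← sum_sub_distrib]
      refine sum_congr rfl fun b _ => ?_
      push_cast
      ring
    rw [this]
    ring
  rw [e]
  refine (norm_add_le _ _).trans ?_
  have hx : (1 : ℝ) ≤ (x : ℝ) + 1 := by linarith [Nat.cast_nonneg (α := ℝ) x]
  have hq : 0 ≤ (q : ℝ) := Nat.cast_nonneg q
  have h3 : C1 * q * S * √((x : ℝ) + 1) ≤ |C1| * q * S * ((x : ℝ) + 1) ^ (1 / 2 + ε) := by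
    have hs : √((x : ℝ) + 1) ≤ ((x : ℝ) + 1) ^ (1 / 2 + ε) := by
      rw [Real.sqrt_eq_rpow]
      exact Real.rpow_le_rpow_of_exponent_le hx (by linarith)
    have h4 : C1 * q * S * √((x : ℝ) + 1) ≤ |C1| * q * S * √((x : ℝ) + 1) := by
      have := le_abs_self C1
      gcongr
    refine h4.trans ?_
    gcongr
  refine (add_le_add (h1.trans h3) h2).trans (le_of_eq ?_)
  ring

/-- The numbers of the zeros. -/
theorem Fin.numbers (a : ℕ → ℤ) (ν : ℕ → ℤ → ℝ) (f : ℕ → ℕ) (k₁ : ℕ) (C C'' : ℝ)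
    (hC : ∀ k : ℕ, |(((blk k).filter fun p => a p = 0).card : ℝ) - ∑ p ∈ blk k, ν p 0| ≤
      C * (k + 1) * e2 (k / 2))
    (hC'' : ∀ k, k₁ ≤ k → |∑ p ∈ blk k, ν p 0 - f k| ≤ C'') :
    ∀ ε : ℝ, 0 < ε → ∃ C : ℝ, ∀ k, k₁ ≤ k →
    |(((blk k).filter fun p => a p = 0).card : ℝ) - f k| ≤ C * e2 (k * (1 / 2 + ε)) := by
  intro ε hε
  obtain ⟨C2, hC20, hC2⟩ := DF.Fin.poly 1 hε
  refine ⟨|C| * C2 + |C''|, fun k hk => ?_⟩
  have h1 := hC k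
  have h2 := hC'' k hk
  have h3 : |(((blk k).filter fun p => a p = 0).card : ℝ) - f k| ≤
      C * (k + 1) * e2 (k / 2) + C'' := by
    have := abs_sub_le (((blk k).filter fun p => a p = 0).card : ℝ) (∑ p ∈ blk k, ν p 0) (f k)
    linarith
  refine h3.trans ?_
  have h4 : C * (k + 1) * e2 (k / 2) ≤ |C| * C2 * e2 (k * (1 / 2 + ε)) := by
    have h5 : C * (k + 1) * e2 (k / 2) ≤ |C| * (k + 1) * e2 (k / 2) := by
      have := le_abs_self C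
      have := (DF.Fin.e2_pos (k / 2 : ℝ)).le
      gcongr
    have h6 : ((k : ℝ) + 1) ≤ C2 * e2 (k * ε) := by simpa using hC2 k
    have h7 : e2 (k * (1 / 2 + ε)) = e2 (k * ε) * e2 (k / 2) := by
      rw [← DF.Fin.e2_add]
      congr 1
      ring
    rw [h7]
    have h8 : |C| * (k + 1) * e2 (k / 2) ≤ |C| * (C2 * e2 (k * ε)) * e2 (k / 2) := by
      have := (DF.Fin.e2_pos (k / 2 : ℝ)).le
      have := abs_nonneg C
      gcongr
    refine (h5.trans h8).trans (le_of_eq ?_)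
    ring
  have h9 : C'' ≤ |C''| * e2 (k * (1 / 2 + ε)) := by
    have : 1 ≤ e2 (k * (1 / 2 + ε)) := by
      have h0 : e2 0 = 1 := by unfold e2; simp
      rw [← h0]
      exact DF.Fin.e2_mono (by positivity)
    calc C'' ≤ |C''| := le_abs_self _
      _ = |C''| * 1 := (mul_one _).symm
      _ ≤ _ := by
        have := abs_nonneg C''
        gcongr
  linarith [h4, h9, add_mul (|C| * C2) |C''| (e2 (k * (1 / 2 + ε)))]

theorem Fin.prime_of_mem {x p : ℕ} (hp : p ∈ primesUpTo x) : p.Prime := by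
  unfold primesUpTo at hp
  exact (mem_filter.1 hp).2

/-- The construction. -/
theorem construct (hMAS : S_M) (hPOS : S_POS) (hTOT : S_TOT) (hCNT : S_CNT) (hSEL : S_SEL)
    (hBLK : S_BLK) (hSUM : S_SUM) (hMODIF : S_MODIF) (hHEC : S_HEC)
    (h M : ℕ) (τ : ℕ → ℤ) (hτ : IsHecke h τ) (h3 : 3 ≤ h) (hM1 : 1 ≤ M) (hmany : Many M τ)
    (μ : ℕ → ℤ → ℝ) (hμ : IsRef h M τ μ) (c : ℕ → ℕ → ℂ) (hc : ∀ i p, ‖c i p‖ ≤ 1) (δ : ℝ)
    (hδ : 0 < δ) (f : ℕ → ℕ) (hf : ∀ k, (f k : ℝ) ≤ e2 (k * (3 / 4 - δ))) :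
    ∃ A : ℕ → ℤ, IsHecke h A ∧ IsSystem h A ∧ (∀ n : ℕ, 0 < n → (M : ℤ) ∣ A n - τ n) ∧
      HasBound h μ c A ∧ HasBoundP h μ c A ∧
      ∃ k₁ : ℕ, ∀ k, k₁ ≤ k → ((blk k).filter fun p => A p = 0).card = f k := by
  obtain ⟨m, k₀, C', hm⟩ := hMAS h M τ δ f h3 hM1 hδ hmany hf
  obtain ⟨k₁, h01, hpos⟩ := hPOS h M τ μ δ f m k₀ C' h3 hM1 hδ hμ hm
  obtain ⟨htot, hsupp⟩ := hTOT h M τ μ m k₁ hM1 hμ
  obtain ⟨C'', hC''⟩ := hCNT h M τ μ δ f m k₀ C' h3 hM1 hμ hm k₁ h01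
  obtain ⟨a, ha, haM, hbF, hbG, C3, hC3⟩ := hSEL h M τ (nu h M τ μ m k₁) c hpos htot hsupp hc
  have hblk := hBLK h M τ μ δ f m k₀ C' k₁ h3 hM1 hδ hμ hm h01 hpos htot
  have hs := hSUM h M τ μ m k₁ hblk
  have hB : HasBound h μ c a := by
    intro i ε hε
    obtain ⟨C1, hC1⟩ := hbF i
    obtain ⟨C2, -, hC2⟩ := hs ε hε
    refine ⟨|C1| + C2, fun q _ F x => ?_⟩
    exact Fin.conv (h := h) μ (nu h M τ μ m k₁) (c i) a (fun p γ => F (p, γ)) (l2 F)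
      (Fin.l2_nonneg F) C1 C2 ε hε x (hC1 q F x)
      (hC2 (c i) (hc i) q (fun p γ => F (p, γ)) (l2 F) (fun p γ => Fin.le_l2 F _) x)
  have hP : HasBoundP h μ c a := by
    intro i ε hε
    obtain ⟨C1, hC1⟩ := hbG i
    obtain ⟨C2, -, hC2⟩ := hs ε hε
    refine ⟨|C1| + C2, fun q _ G x => ?_⟩
    refine Fin.conv (h := h) μ (nu h M τ μ m k₁) (c i) a
      (fun p γ => if p.Coprime q then G (γ ^ 2 * ((p : ZMod q) ^ h)⁻¹) else 0) (l2 G)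
      (Fin.l2_nonneg G) C1 C2 ε hε x (hC1 q G x)
      (hC2 (c i) (hc i) q (fun p γ => if p.Coprime q then G (γ ^ 2 * ((p : ZMod q) ^ h)⁻¹) else 0)
        (l2 G) (fun p γ => ?_) x)
    show ‖if p.Coprime q then G (γ ^ 2 * ((p : ZMod q) ^ h)⁻¹) else 0‖ ≤ l2 G
    split_ifs
    · exact Fin.le_l2 G _
    · rw [norm_zero]
      exact Fin.l2_nonneg G
  have hN := Fin.numbers a (nu h M τ μ m k₁) f k₁ C3 C'' hC3 hC''
  obtain ⟨a', ha', haM', hB', hP', k₂, hk₂⟩ :=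
    hMODIF h M τ μ c δ f a k₁ h3 hM1 hδ hmany hc hf ha haM hB hP hN
  obtain ⟨A, hA, hAa⟩ := hHEC.1 h a'
  refine ⟨A, hA, fun p hp => ?_, ?_, ?_, ?_, k₂, fun k hk => ?_⟩
  · rw [hAa p hp]; exact ha' p hp
  · exact hHEC.2 h M A τ hA hτ fun p hp => by rw [hAa p hp]; exact haM' p hp
  · intro i ε hε
    obtain ⟨C, hC⟩ := hB' i ε hε
    refine ⟨C, fun q _ F x => ?_⟩
    refine le_trans (le_of_eq ?_) (hC q F x)
    congr 1
    refine sum_congr rfl fun p hp => ?_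
    rw [hAa p (Fin.prime_of_mem hp)]
  · intro i ε hε
    obtain ⟨C, hC⟩ := hP' i ε hε
    refine ⟨C, fun q _ G x => ?_⟩
    refine le_trans (le_of_eq ?_) (hC q G x)
    congr 1
    refine sum_congr rfl fun p hp => ?_
    rw [hAa p (Fin.prime_of_mem hp)]
  · rw [← hk₂ k hk]
    congr 1
    refine filter_congr fun p hp => ?_
    rw [hAa p (Pool.Agent.H414.LT.mem_blk.1 hp).1]

end Pool.Agent.H414.LH
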