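import Pool.Agent.H414.LH.Spec

/-! # `S_HEC`: Hecke systems are given by their values at the primes -/

set_option autoImplicit false

namespace Pool.Agent.H414.LH

open Finset

namespace Hec

/-- the values at the powers of `p` -/
def U (h p : ℕ) (α : ℤ) : ℕ → ℤ
  | 0 => 1
  | 1 => α
  | k + 2 => α * U h p α (k + 1) - (p : ℤ) ^ h * U h p α k

/-- the Hecke system with the values `a p` -/
noncomputable def HA (h : ℕ) (a : ℕ → ℤ) (n : ℕ) : ℤ :=
  n.factorization.prod fun p k => U h p (a p) k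

theorem HA_pow (h : ℕ) (a : ℕ → ℤ) {p : ℕ} (hp : p.Prime) (k : ℕ) :
    HA h a (p ^ k) = U h p (a p) k := by
  unfold HA
  rw [hp.factorization_pow, Finsupp.prod_single_index]
  rw [U]

theorem HA_mul (h : ℕ) (a : ℕ → ℤ) {m n : ℕ} (hmn : m.Coprime n) :
    HA h a (m * n) = HA h a m * HA h a n := by
  unfold HA
  rw [Nat.factorization_mul_of_coprime hmn, Finsupp.prod_add_index_of_disjoint]
  rw [Nat.support_factorization, Nat.support_factorization]
  exact hmn.disjoint_primeFactors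

theorem HA_one (h : ℕ) (a : ℕ → ℤ) : HA h a 1 = 1 := by
  unfold HA
  rw [Nat.factorization_one, Finsupp.prod_zero_index]

theorem HA_prime (h : ℕ) (a : ℕ → ℤ) {p : ℕ} (hp : p.Prime) : HA h a p = a p := by
  have h1 := HA_pow h a hp 1
  rw [pow_one] at h1
  rw [h1, U]

theorem HA_hecke (h : ℕ) (a : ℕ → ℤ) : IsHecke h (HA h a) := by
  refine ⟨HA_one h a, fun m n _ _ hmn => HA_mul h a hmn, fun p k hp => ?_⟩
  rw [HA_pow h a hp, HA_pow h a hp, HA_pow h a hp, HA_prime h a hp, U]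

theorem cong_pow {h M : ℕ} {A τ : ℕ → ℤ} (hA : IsHecke h A) (hτ : IsHecke h τ) {p : ℕ}
    (hp : p.Prime) (hM : τ p ≡ A p [ZMOD M]) (k : ℕ) :
    τ (p ^ k) ≡ A (p ^ k) [ZMOD M] ∧ τ (p ^ (k + 1)) ≡ A (p ^ (k + 1)) [ZMOD M] := by
  induction k with
  | zero =>
    rw [pow_zero, zero_add, pow_one, hA.1, hτ.1]
    exact ⟨Int.ModEq.refl _, hM⟩
  | succ k ih =>
    refine ⟨ih.2, ?_⟩
    rw [show k + 1 + 1 = k + 2 from rfl, hA.2.2 p k hp, hτ.2.2 p k hp]
    exact (hM.mul ih.2).sub ((Int.ModEq.refl _).mul ih.1)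

end Hec

theorem hec : S_HEC := by
  refine ⟨fun h a => ⟨Hec.HA h a, Hec.HA_hecke h a, fun p hp => Hec.HA_prime h a hp⟩, ?_⟩
  intro h M A τ hA hτ hM n hn
  have key : ∀ n : ℕ, 0 < n → τ n ≡ A n [ZMOD M] := by
    intro n
    induction n using Nat.recOnPosPrimePosCoprime with
    | prime_pow p k hp hk =>
      intro _
      exact (Hec.cong_pow hA hτ hp (Int.modEq_iff_dvd.2 (hM p hp)) k).1
    | zero => intro h0; exact absurd h0 (lt_irrefl 0)
    | one => intro _; rw [hA.1, hτ.1]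
    | coprime a b ha hb hab iha ihb =>
      intro _
      rw [hA.2.1 a b (by omega) (by omega) hab, hτ.2.1 a b (by omega) (by omega) hab]
      exact (iha (by omega)).mul (ihb (by omega))
  exact Int.modEq_iff_dvd.1 (key n hn)

end Pool.Agent.H414.LH
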