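import Pool.Agent.H414.LH.Spec

/-! Choice of the masses. -/

set_option autoImplicit false

namespace Pool.Agent.H414.LH

open Finset
open Pool.Agent.H414.LT (primesUpTo blk kk)
open Pool.Agent.H414.DF (l2 e2)

namespace Mas

theorem e2_pos (x : ℝ) : 0 < e2 x := Real.rpow_pos_of_pos (by norm_num) x

theorem one_le_e2 {x : ℝ} (hx : 0 ≤ x) : 1 ≤ e2 x := Real.one_le_rpow (by norm_num) hx

theorem e2_add (x y : ℝ) : e2 (x + y) = e2 x * e2 y := Real.rpow_add (by norm_num) x y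

theorem e2_sub (x y : ℝ) : e2 (x - y) = e2 x / e2 y := Real.rpow_sub (by norm_num) x y

theorem e2_mono {x y : ℝ} (h : x ≤ y) : e2 x ≤ e2 y :=
  Real.rpow_le_rpow_of_exponent_le (by norm_num) h

/-- the bound for the kernel at zero -/
theorem K0_le (hK : DF.S_K) (k : ℕ) : |Kz k 0| ≤ e2 (k / 2) := by
  have h1 := (hK 1 (Q k) (fun _ => 0) le_rfl).1
  unfold Kz
  refine h1.trans ?_
  have h2 : (Q k : ℝ) ≤ e2 (k / 4) := by
    unfold Q
    exact Nat.floor_le (e2_pos _).le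
  have h3 : (Q k : ℝ) ^ (1 + 1) ≤ e2 (k / 4) ^ (1 + 1) := pow_le_pow_left₀ (Nat.cast_nonneg _) h2 _
  refine h3.trans (le_of_eq ?_)
  rw [show (1 + 1 : ℕ) = 2 from rfl, sq, ← e2_add]
  congr 1
  ring

theorem kap_zero (h M k : ℕ) : kap h M k 0 = 1 - (Kz k 0 - Lz h M k) / (2 * B h M k + 1) := by
  have h0 : (0 : ℤ) ∈ Icc (-(B h M k : ℤ)) (B h M k) := by
    rw [Finset.mem_Icc]
    omega
  unfold kap
  rw [if_pos rfl, if_pos h0]

theorem kap_ge (hB : S_B) (hK : DF.S_K) {h M : ℕ} (hh : 3 ≤ h) (hM : 1 ≤ M) {C' : ℝ} (hC' : 0 ≤ C')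
    (hL : ∀ k, |Lz h M k| ≤ C') {k : ℕ} (hk : 8 * M * (1 + C') ≤ e2 k) : 1 / 2 ≤ kap h M k 0 := by
  have hMp : (0 : ℝ) < M := by exact_mod_cast hM
  have h1 := (hB h M k hM).1
  have h2 : e2 (k * (3 / 2)) ≤ e2 (k * h / 2) := by
    apply e2_mono
    have h3 : (3 : ℝ) ≤ h := by exact_mod_cast hh
    have h4 : (0 : ℝ) ≤ k := Nat.cast_nonneg _
    nlinarith
  have h3 : e2 (k * (3 / 2)) = e2 (k / 2) * e2 k := by
    rw [← e2_add]
    congr 1
    ring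
  have h4 : e2 (k / 2) * (8 * M * (1 + C')) ≤ 4 * M * (2 * (B h M k : ℝ) + 1) := by
    calc _ ≤ e2 (k / 2) * e2 k := mul_le_mul_of_nonneg_left hk (e2_pos _).le
      _ ≤ _ := by rw [← h3]; exact h2.trans h1
  have h5 : e2 (k / 2) * (2 * (1 + C')) ≤ 2 * (B h M k : ℝ) + 1 := by
    have h6 : (4 * M) * (e2 (k / 2) * (2 * (1 + C'))) ≤ (4 * M) * (2 * (B h M k : ℝ) + 1) := by
      calc _ = e2 (k / 2) * (8 * M * (1 + C')) := by ring
        _ ≤ _ := h4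
    exact le_of_mul_le_mul_left h6 (by positivity)
  have hone : 1 ≤ e2 ((k : ℝ) / 2) := one_le_e2 (by positivity)
  have hLB : (0 : ℝ) < 2 * (B h M k : ℝ) + 1 := by positivity
  rw [kap_zero]
  have h7 : (Kz k 0 - Lz h M k) / (2 * B h M k + 1) ≤ 1 / 2 := by
    rw [div_le_iff₀ hLB]
    have h8 := le_abs_self (Kz k 0)
    have h9 := neg_abs_le (Lz h M k)
    have h10 := K0_le hK k
    have h11 := hL k
    have h12 : C' ≤ C' * e2 (k / 2) := le_mul_of_one_le_right hC' hone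
    nlinarith
  linarith

theorem exists_e2_ge (A : ℝ) : ∃ k₀ : ℕ, ∀ k : ℕ, k₀ ≤ k → A ≤ e2 k := by
  obtain ⟨n, hn⟩ := pow_unbounded_of_one_lt A (by norm_num : (1 : ℝ) < 2)
  refine ⟨n, fun k hk => ?_⟩
  unfold e2
  rw [Real.rpow_natCast]
  exact hn.le.trans (pow_le_pow_right₀ (by norm_num) hk)

end Mas

open Mas in
theorem mas (hB : S_B) (hK : DF.S_K) (hBIAS : S_BIAS) : S_M := by
  intro h M τ δ f hh hM hδ hmany hf
  obtain ⟨C', hC', hL, -⟩ := hBIAS h M hh hM 1 one_pos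
  obtain ⟨c, k₂, hc, hZ⟩ := hmany (δ / 2) (by positivity)
  obtain ⟨k₁, hk₁⟩ := exists_e2_ge (8 * M * (1 + C'))
  have hkap : ∀ k, max k₁ k₂ ≤ k → 1 / 2 ≤ kap h M k 0 := fun k hk =>
    kap_ge hB hK hh hM hC' hL (hk₁ k ((le_max_left _ _).trans hk))
  have hZ' : ∀ k, max k₁ k₂ ≤ k → c * e2 (k * (1 - δ / 2)) ≤ ((Z M τ k).card : ℝ) := fun k hk =>
    hZ k ((le_max_right _ _).trans hk)
  have hZpos : ∀ k, max k₁ k₂ ≤ k → (0 : ℝ) < ((Z M τ k).card : ℝ) := fun k hk =>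
    (mul_pos hc (e2_pos _)).trans_le (hZ' k hk)
  have hkpos : ∀ k, max k₁ k₂ ≤ k → 0 < kap h M k 0 := fun k hk =>
    lt_of_lt_of_le (by norm_num) (hkap k hk)
  refine ⟨fun k => if max k₁ k₂ ≤ k then f k / (((Z M τ k).card : ℝ) * kap h M k 0) else 0,
    max k₁ k₂, 2 / c, ⟨?_, ?_, ?_, ?_⟩⟩
  · intro k
    split_ifs with hk
    · exact div_nonneg (Nat.cast_nonneg _) (mul_nonneg (hZpos k hk).le (hkpos k hk).le)
    · exact le_rfl
  · intro k hk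
    rw [if_pos hk]
    rw [div_le_iff₀ (mul_pos (hZpos k hk) (hkpos k hk))]
    have h1 : c * e2 (k * (1 - δ / 2)) * (1 / 2) ≤ ((Z M τ k).card : ℝ) * kap h M k 0 :=
      mul_le_mul (hZ' k hk) (hkap k hk) (by norm_num) (hZpos k hk).le
    calc (f k : ℝ) ≤ e2 (k * (3 / 4 - δ)) := hf k
      _ = e2 (-(k * (1 / 4 + δ / 2))) * e2 (k * (1 - δ / 2)) := by
          rw [← e2_add]
          congr 1
          ring
      _ = 2 / c * e2 (-(k * (1 / 4 + δ / 2))) * (c * e2 (k * (1 - δ / 2)) * (1 / 2)) := by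
          field_simp
      _ ≤ _ := mul_le_mul_of_nonneg_left h1 (mul_nonneg (by positivity) (e2_pos _).le)
  · intro k hk
    exact (hkpos k hk).le
  · intro k hk
    rw [if_pos hk]
    have h1 := (hZpos k hk).ne'
    have h2 := (hkpos k hk).ne'
    field_simp

end Pool.Agent.H414.LH
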