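import Pool.Agent.H414.LH.Spec

/-!
Project LH: `S_MODIF` (changing few primes of a system to get exactly the right numbers).
-/

set_option autoImplicit false

namespace Pool.Agent.H414.LH

open Finset
open Pool.Agent.H414.LT (primesUpTo blk kk two_le_kk mem_blk)
open Pool.Agent.H414.DF (l2 e2)

namespace Modif

theorem e2_pos (x : ℝ) : 0 < e2 x := Real.rpow_pos_of_pos (by norm_num) _

theorem e2_nat_mul (x : ℝ) (k : ℕ) : e2 ((k : ℝ) * x) = e2 x ^ k := by
  unfold e2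
  rw [mul_comm, Real.rpow_mul (by norm_num), Real.rpow_natCast]

theorem e2_add (x y : ℝ) : e2 (x + y) = e2 x * e2 y := by
  unfold e2
  rw [Real.rpow_add (by norm_num)]

theorem e2_mono {x y : ℝ} (h : x ≤ y) : e2 x ≤ e2 y :=
  Real.rpow_le_rpow_of_exponent_le (by norm_num) h

theorem e2_nat (k : ℕ) : e2 (k : ℝ) = 2 ^ k := by
  unfold e2
  rw [Real.rpow_natCast]

theorem small (δ : ℝ) (hδ : 0 < δ) (η : ℝ) (hη : 0 < η) :
    ∃ k₀ : ℕ, ∀ k : ℕ, k₀ ≤ k → ((k : ℝ) + 1) * e2 ((k : ℝ) * (-δ)) ≤ η := by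
  have hr0 : 0 < e2 (-δ) := e2_pos _
  have hr1 : e2 (-δ) < 1 := Real.rpow_lt_one_of_one_lt_of_neg (by norm_num) (by linarith)
  have hr2 : |e2 (-δ)| < 1 := by rw [abs_of_pos hr0]; exact hr1
  have h1 := tendsto_pow_const_mul_const_pow_of_abs_lt_one 1 hr2
  have h2 := tendsto_pow_const_mul_const_pow_of_abs_lt_one 0 hr2
  have h3 := h1.add h2
  have h4 := h3.eventually (gt_mem_nhds (show (0 : ℝ) + 0 < η by linarith))
  obtain ⟨k₀, hk₀⟩ := Filter.eventually_atTop.1 h4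
  refine ⟨k₀, fun k hk => ?_⟩
  have h5 := hk₀ k hk
  rw [e2_nat_mul]
  have h6 : (k : ℝ) ^ 1 * e2 (-δ) ^ k + (k : ℝ) ^ 0 * e2 (-δ) ^ k =
      ((k : ℝ) + 1) * e2 (-δ) ^ k := by ring
  have h7 : (k : ℝ) ^ 1 * e2 (-δ) ^ k + (k : ℝ) ^ 0 * e2 (-δ) ^ k < η := h5
  linarith

theorem norm_le_l2 {α : Type} [Fintype α] (G : α → ℂ) (y : α) : ‖G y‖ ≤ l2 G := by
  unfold l2
  refine Real.le_sqrt_of_sq_le ?_
  exact single_le_sum (f := fun x => ‖G x‖ ^ 2) (fun x _ => sq_nonneg _) (mem_univ y)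

theorem l2_nonneg {α : Type} [Fintype α] (G : α → ℂ) : 0 ≤ l2 G := Real.sqrt_nonneg _

/-- the number of the changed primes -/
theorem count (a a' : ℕ → ℤ) (N : ℕ → ℕ) (k₁ : ℕ)
    (h0 : ∀ p, kk p < k₁ → a' p = a p)
    (h1 : ∀ k, k₁ ≤ k → ((blk k).filter fun p => a' p ≠ a p).card ≤ N k)
    (hN : ∀ ε : ℝ, 0 < ε → ∃ C : ℝ, 0 ≤ C ∧ ∀ k, k₁ ≤ k → (N k : ℝ) ≤ C * e2 (k * (1 / 2 + ε)))
    (ε : ℝ) (hε : 0 < ε) :
    ∃ C : ℝ, 0 ≤ C ∧ ∀ x : ℕ, (((primesUpTo x).filter fun p => a' p ≠ a p).card : ℝ) ≤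
      C * ((x : ℝ) + 1) ^ (1 / 2 + ε) := by
  obtain ⟨C, hC0, hC⟩ := hN ε hε
  obtain ⟨ρ, hρ⟩ : ∃ ρ : ℝ, ρ = e2 (1 / 2 + ε) := ⟨_, rfl⟩
  have hρ1 : 1 < ρ := by
    rw [hρ]; exact Real.one_lt_rpow (by norm_num) (by linarith)
  have hρ0 : 0 < ρ := by linarith
  refine ⟨C * (ρ / (ρ - 1)), mul_nonneg hC0 (div_nonneg hρ0.le (by linarith)), ?_⟩
  intro x
  have hx0 : (0 : ℝ) ≤ x := Nat.cast_nonneg x
  have hsub : ((primesUpTo x).filter fun p => a' p ≠ a p) ⊆
      (range (Nat.log 2 x + 1)).biUnion (fun k => (blk k).filter fun p => a' p ≠ a p) := by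
    intro p hp
    rw [mem_filter, primesUpTo, mem_filter, mem_range] at hp
    obtain ⟨⟨hpx, hpp⟩, hne⟩ := hp
    rw [mem_biUnion]
    refine ⟨kk p, ?_, ?_⟩
    · rw [mem_range]
      have h2 := (two_le_kk hpp.two_le).1
      have h3 : kk p ≤ Nat.log 2 x := Nat.le_log_of_pow_le (by norm_num) (by omega)
      omega
    · rw [mem_filter, mem_blk]
      exact ⟨⟨hpp, rfl⟩, hne⟩
  have hcard : (((primesUpTo x).filter fun p => a' p ≠ a p).card : ℝ) ≤
      ∑ k ∈ range (Nat.log 2 x + 1), C * ρ ^ k := by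
    calc (((primesUpTo x).filter fun p => a' p ≠ a p).card : ℝ)
        ≤ ((∑ k ∈ range (Nat.log 2 x + 1), ((blk k).filter fun p => a' p ≠ a p).card : ℕ) : ℝ) := by
          exact_mod_cast (card_le_card hsub).trans card_biUnion_le
      _ = ∑ k ∈ range (Nat.log 2 x + 1), (((blk k).filter fun p => a' p ≠ a p).card : ℝ) := by
          push_cast; rfl
      _ ≤ _ := by
          refine sum_le_sum fun k _ => ?_
          by_cases hk : k₁ ≤ k
          · have h2 : (((blk k).filter fun p => a' p ≠ a p).card : ℝ) ≤ (N k : ℝ) := by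
              exact_mod_cast h1 k hk
            have h3 := hC k hk
            rw [e2_nat_mul, ← hρ] at h3
            exact h2.trans h3
          · have h2 : ((blk k).filter fun p => a' p ≠ a p) = ∅ := by
              rw [filter_eq_empty_iff]
              intro p hp
              rw [mem_blk] at hp
              have := h0 p (by omega)
              simp [this]
            rw [h2]
            simp only [card_empty, Nat.cast_zero]
            positivity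
  have hgeo : ∑ k ∈ range (Nat.log 2 x + 1), C * ρ ^ k ≤
      C * (ρ / (ρ - 1)) * ρ ^ (Nat.log 2 x) := by
    rw [← mul_sum, geom_sum_eq hρ1.ne']
    have h2 : (ρ ^ (Nat.log 2 x + 1) - 1) / (ρ - 1) ≤ ρ / (ρ - 1) * ρ ^ (Nat.log 2 x) := by
      rw [div_mul_eq_mul_div]
      refine div_le_div_of_nonneg_right ?_ (by linarith)
      rw [pow_succ]
      linarith
    calc C * ((ρ ^ (Nat.log 2 x + 1) - 1) / (ρ - 1)) ≤ C * (ρ / (ρ - 1) * ρ ^ (Nat.log 2 x)) :=
          mul_le_mul_of_nonneg_left h2 hC0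
      _ = _ := by ring
  have hpow : ρ ^ (Nat.log 2 x) ≤ ((x : ℝ) + 1) ^ (1 / 2 + ε) := by
    have h2 : (2 : ℕ) ^ (Nat.log 2 x) ≤ x + 1 := by
      rcases Nat.eq_zero_or_pos x with h | h
      · subst h; simp
      · have := Nat.pow_log_le_self 2 (x := x) (by omega)
        omega
    have h3 : ((2 : ℝ) ^ (Nat.log 2 x)) ≤ (x : ℝ) + 1 := by exact_mod_cast h2
    rw [hρ, ← e2_nat_mul]
    unfold e2
    rw [Real.rpow_mul (by norm_num), Real.rpow_natCast]
    exact Real.rpow_le_rpow (by positivity) h3 (by linarith)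
  calc (((primesUpTo x).filter fun p => a' p ≠ a p).card : ℝ)
      ≤ C * (ρ / (ρ - 1)) * ρ ^ (Nat.log 2 x) := hcard.trans hgeo
    _ ≤ _ := mul_le_mul_of_nonneg_left hpow
        (mul_nonneg hC0 (div_nonneg hρ0.le (by linarith)))

/-- the effect of few changes -/
theorem change (c : ℕ → ℂ) (hc : ∀ p, ‖c p‖ ≤ 1) (a a' : ℕ → ℤ) (Φ : ℕ → ℤ → ℂ) (Ψ : ℕ → ℂ) (S : ℝ)
    (hΦ : ∀ p b, ‖Φ p b‖ ≤ S) (x : ℕ) :
    ‖∑ p ∈ primesUpTo x, c p * (Φ p (a' p) - Ψ p)‖ ≤ ‖∑ p ∈ primesUpTo x, c p * (Φ p (a p) - Ψ p)‖ +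
      (((primesUpTo x).filter fun p => a' p ≠ a p).card : ℝ) * (2 * S) := by
  have e1 : ∑ p ∈ primesUpTo x, c p * (Φ p (a' p) - Ψ p) =
      ∑ p ∈ primesUpTo x, c p * (Φ p (a p) - Ψ p) +
      ∑ p ∈ (primesUpTo x).filter (fun p => a' p ≠ a p), c p * (Φ p (a' p) - Φ p (a p)) := by
    rw [sum_filter, ← sum_add_distrib]
    refine sum_congr rfl fun p _ => ?_
    by_cases h : a' p ≠ a p
    · rw [if_pos h]; ring
    · rw [if_neg h]
      rw [not_not] at h
      rw [h]; ring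
  rw [e1]
  refine (norm_add_le _ _).trans ?_
  have e2' : ‖∑ p ∈ (primesUpTo x).filter (fun p => a' p ≠ a p),
      c p * (Φ p (a' p) - Φ p (a p))‖ ≤
      (((primesUpTo x).filter fun p => a' p ≠ a p).card : ℝ) * (2 * S) := by
    calc _ ≤ ∑ p ∈ (primesUpTo x).filter (fun p => a' p ≠ a p),
        ‖c p * (Φ p (a' p) - Φ p (a p))‖ := norm_sum_le _ _
      _ ≤ ∑ p ∈ (primesUpTo x).filter (fun p => a' p ≠ a p), 2 * S := by
          refine sum_le_sum fun p _ => ?_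
          rw [norm_mul]
          calc ‖c p‖ * ‖Φ p (a' p) - Φ p (a p)‖ ≤ 1 * ‖Φ p (a' p) - Φ p (a p)‖ :=
                mul_le_mul_of_nonneg_right (hc p) (norm_nonneg _)
            _ ≤ 1 * (‖Φ p (a' p)‖ + ‖Φ p (a p)‖) :=
                mul_le_mul_of_nonneg_left (norm_sub_le _ _) zero_le_one
            _ ≤ 2 * S := by
                have h1 := hΦ p (a' p)
                have h2 := hΦ p (a p)
                linarith
      _ = _ := by rw [sum_const, nsmul_eq_mul]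
  linarith

theorem arith {C D q l X K : ℝ} (hq : 1 ≤ q) (hl : 0 ≤ l) (hX : 0 ≤ X) (hD : 0 ≤ D)
    (hK : K ≤ D * X) : C * q * l * X + K * (2 * l) ≤ (C + 2 * D) * q * l * X := by
  have h1 : K * (2 * l) ≤ D * X * (2 * l) := mul_le_mul_of_nonneg_right hK (by linarith)
  have h2 : D * X * (2 * l) * 1 ≤ D * X * (2 * l) * q :=
    mul_le_mul_of_nonneg_left hq (by positivity)
  have e : (C + 2 * D) * q * l * X = C * q * l * X + D * X * (2 * l) * q := by ring
  rw [e]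
  linarith

/-- few changes preserve the bounds -/
theorem bound (h : ℕ) (μ : ℕ → ℤ → ℝ) (c : ℕ → ℕ → ℂ) (a a' : ℕ → ℤ)
    (hc : ∀ i p, ‖c i p‖ ≤ 1) (hB : HasBound h μ c a)
    (hcount : ∀ ε : ℝ, 0 < ε → ∃ C : ℝ, 0 ≤ C ∧ ∀ x : ℕ,
      (((primesUpTo x).filter fun p => a' p ≠ a p).card : ℝ) ≤ C * ((x : ℝ) + 1) ^ (1 / 2 + ε)) :
    HasBound h μ c a' := by
  intro i ε hε
  obtain ⟨C, hC⟩ := hB i ε hε
  obtain ⟨D, hD0, hD⟩ := hcount ε hε
  refine ⟨C + 2 * D, ?_⟩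
  intro q _ F x
  have hq : (1 : ℝ) ≤ (q : ℝ) := by exact_mod_cast NeZero.one_le
  have hx : (0 : ℝ) ≤ ((x : ℝ) + 1) ^ (1 / 2 + ε) := by positivity
  refine (change (c i) (hc i) a a' (fun p b => F (p, b))
    (fun p => ∑ b ∈ ival h p, (μ p b : ℂ) * F (p, b)) (l2 F)
    (fun p b => norm_le_l2 F _) x).trans ?_
  refine le_trans ?_ (arith (C := C) hq (l2_nonneg F) hx hD0 (hD x))
  exact add_le_add_left (hC q F x) _

/-- few changes preserve the bounds -/
theorem boundP (h : ℕ) (μ : ℕ → ℤ → ℝ) (c : ℕ → ℕ → ℂ) (a a' : ℕ → ℤ)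
    (hc : ∀ i p, ‖c i p‖ ≤ 1) (hB : HasBoundP h μ c a)
    (hcount : ∀ ε : ℝ, 0 < ε → ∃ C : ℝ, 0 ≤ C ∧ ∀ x : ℕ,
      (((primesUpTo x).filter fun p => a' p ≠ a p).card : ℝ) ≤ C * ((x : ℝ) + 1) ^ (1 / 2 + ε)) :
    HasBoundP h μ c a' := by
  intro i ε hε
  obtain ⟨C, hC⟩ := hB i ε hε
  obtain ⟨D, hD0, hD⟩ := hcount ε hε
  refine ⟨C + 2 * D, ?_⟩
  intro q _ G x
  have hq : (1 : ℝ) ≤ (q : ℝ) := by exact_mod_cast NeZero.one_le
  have hx : (0 : ℝ) ≤ ((x : ℝ) + 1) ^ (1 / 2 + ε) := by positivity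
  refine (change (c i) (hc i) a a' (fun p b => proj h G p b)
    (fun p => ∑ b ∈ ival h p, (μ p b : ℂ) * proj h G p b) (l2 G) (fun p b => ?_) x).trans ?_
  · unfold proj
    split_ifs
    · exact norm_le_l2 G _
    · rw [norm_zero]
      exact l2_nonneg G
  refine le_trans ?_ (arith (C := C) hq (l2_nonneg G) hx hD0 (hD x))
  exact add_le_add_left (hC q G x) _

end Modif

open Modif

theorem modif (hASG : DF.S_ASG) : S_MODIF := by
  intro h M τ μ c δ f a k₀ hh hM hδ hmany hc hf ha haM hB hBP happ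
  obtain ⟨N, hN⟩ : ∃ N : ℕ → ℕ, ∀ k, N k =
      ((((blk k).filter fun p => a p = 0).card : ℤ) - (f k : ℤ)).natAbs := ⟨_, fun _ => rfl⟩
  have hNr : ∀ k, (N k : ℝ) = |(((blk k).filter fun p => a p = 0).card : ℝ) - f k| := by
    intro k
    rw [hN k, Nat.cast_natAbs]
    push_cast
    rfl
  have hNε : ∀ ε : ℝ, 0 < ε → ∃ C : ℝ, 0 ≤ C ∧ ∀ k, k₀ ≤ k →
      (N k : ℝ) ≤ C * e2 (k * (1 / 2 + ε)) := by
    intro ε hε
    obtain ⟨C, hC⟩ := happ ε hε
    refine ⟨|C|, abs_nonneg _, fun k hk => ?_⟩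
    rw [hNr k]
    exact (hC k hk).trans (mul_le_mul_of_nonneg_right (le_abs_self C) (e2_pos _).le)
  have hZ0 : ∀ k, ((Z M τ k).filter fun p => a p = 0) = (blk k).filter fun p => a p = 0 := by
    intro k
    unfold Z
    rw [filter_filter]
    refine filter_congr fun p hp => ?_
    constructor
    · exact fun h => h.2
    · intro h0
      refine ⟨?_, h0⟩
      have h1 := haM p (mem_blk.1 hp).1
      rw [h0, zero_sub, dvd_neg] at h1
      exact h1
  obtain ⟨c0, kM, hc0, hkM⟩ := hmany (1 / 8) (by norm_num)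
  obtain ⟨C, hC0, hC⟩ := hNε (1 / 4) (by norm_num)
  obtain ⟨A, hA⟩ := small (1 / 8) (by norm_num) (c0 / (1 + 2 * C)) (by positivity)
  obtain ⟨k₁, hk₁⟩ : ∃ k₁ : ℕ, k₁ = max (max k₀ kM) (max A (2 * M)) := ⟨_, rfl⟩
  have hk0 : k₀ ≤ k₁ := by rw [hk₁]; exact (le_max_left _ _).trans (le_max_left _ _)
  have hkM1 : kM ≤ k₁ := by rw [hk₁]; exact (le_max_right _ _).trans (le_max_left _ _)
  have hkA : A ≤ k₁ := by rw [hk₁]; exact (le_max_left _ _).trans (le_max_right _ _)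
  have hkB : 2 * M ≤ k₁ := by rw [hk₁]; exact (le_max_right _ _).trans (le_max_right _ _)
  have hcap : ∀ k, k₁ ≤ k → f k + 2 * N k ≤ (Z M τ k).card := by
    intro k hk
    have hk' : (0 : ℝ) ≤ k := Nat.cast_nonneg k
    have h1 : (f k : ℝ) ≤ e2 ((k : ℝ) * (3 / 4)) := by
      refine (hf k).trans (e2_mono ?_)
      exact mul_le_mul_of_nonneg_left (by linarith) hk'
    have h2 : (N k : ℝ) ≤ C * e2 ((k : ℝ) * (3 / 4)) := by
      have := hC k (hk0.trans hk)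
      have e : (1 / 2 + 1 / 4 : ℝ) = 3 / 4 := by norm_num
      rwa [e] at this
    have h3 := hkM k (hkM1.trans hk)
    have h4 := hA k (hkA.trans hk)
    have h5 : e2 ((k : ℝ) * (3 / 4)) = e2 ((k : ℝ) * (-(1 / 8))) * e2 ((k : ℝ) * (1 - 1 / 8)) := by
      rw [← e2_add]
      congr 1
      ring
    have h6 : (1 + 2 * C) * e2 ((k : ℝ) * (-(1 / 8))) ≤ c0 := by
      have h7 : e2 ((k : ℝ) * (-(1 / 8))) ≤ c0 / (1 + 2 * C) := by
        refine le_trans ?_ h4
        exact le_mul_of_one_le_left (e2_pos _).le (by linarith)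
      rw [le_div_iff₀ (by positivity)] at h7
      linarith
    have h8 : ((f k + 2 * N k : ℕ) : ℝ) ≤ ((Z M τ k).card : ℝ) := by
      push_cast
      calc (f k : ℝ) + 2 * N k ≤ (1 + 2 * C) * e2 ((k : ℝ) * (3 / 4)) := by linarith
        _ = ((1 + 2 * C) * e2 ((k : ℝ) * (-(1 / 8)))) * e2 ((k : ℝ) * (1 - 1 / 8)) := by
            rw [h5]; ring
        _ ≤ c0 * e2 ((k : ℝ) * (1 - 1 / 8)) := mul_le_mul_of_nonneg_right h6 (e2_pos _).le
        _ ≤ _ := h3
    exact_mod_cast h8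
  have hM0 : (M : ℤ) ∉ ({0} : Finset ℤ) := by
    rw [mem_singleton]
    exact_mod_cast (by omega : M ≠ 0)
  have hex : ∀ k, k₁ ≤ k → ∃ g : ℕ → ℤ,
      ((Z M τ k).filter fun x => g x = 0).card = f k ∧
      ((Z M τ k).filter fun x => g x ≠ a x).card ≤ N k ∧
      (∀ x, x ∉ Z M τ k → g x = a x) ∧
      ∀ x ∈ Z M τ k, g x = a x ∨ g x = M ∨ g x = 0 := by
    intro k hk
    obtain ⟨g, h1, h2, h3, h4⟩ := hASG ℕ ℤ (Z M τ k) {0} (M : ℤ) a (fun _ => f k) (N k) hM0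
      (by
        rw [sum_singleton, hZ0, hN k]
        exact le_of_eq (Int.natCast_natAbs _).symm)
      (by
        rw [sum_singleton]
        exact hcap k hk)
    refine ⟨g, h1 0 (mem_singleton_self 0), h2, h3, fun x hx => ?_⟩
    rcases h4 x hx with h5 | h5 | h5
    · exact Or.inl h5
    · exact Or.inr (Or.inl h5)
    · exact Or.inr (Or.inr (mem_singleton.1 h5))
  choose! g hg using hex
  obtain ⟨a', ha'⟩ : ∃ a' : ℕ → ℤ, ∀ p, a' p = if k₁ ≤ kk p then g (kk p) p else a p :=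
    ⟨_, fun _ => rfl⟩
  have hblk : ∀ k, k₁ ≤ k → ∀ p ∈ blk k, a' p = g k p := by
    intro k hk p hp
    rw [mem_blk] at hp
    rw [ha' p, hp.2, if_pos hk]
  have hnot : ∀ k, k₁ ≤ k → ∀ p ∈ blk k, ¬ (M : ℤ) ∣ τ p → a' p = a p := by
    intro k hk p hp hd
    rw [hblk k hk p hp]
    refine (hg k hk).2.2.1 p ?_
    unfold Z
    rw [mem_filter]
    exact fun h => hd h.2
  have hcases : ∀ p : ℕ, p.Prime → a' p = a p ∨
      (k₁ ≤ kk p ∧ (M : ℤ) ∣ τ p ∧ (a' p = M ∨ a' p = 0)) := by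
    intro p hp
    by_cases hk : k₁ ≤ kk p
    · have hpb : p ∈ blk (kk p) := mem_blk.2 ⟨hp, rfl⟩
      by_cases hd : (M : ℤ) ∣ τ p
      · have hpZ : p ∈ Z M τ (kk p) := by
          unfold Z
          rw [mem_filter]
          exact ⟨hpb, hd⟩
        have h1 := hblk (kk p) hk p hpb
        rcases (hg (kk p) hk).2.2.2 p hpZ with h | h
        · left
          rw [h1, h]
        · right
          rw [h1]
          exact ⟨hk, hd, h⟩
      · exact Or.inl (hnot (kk p) hk p hpb hd)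
    · left
      rw [ha' p, if_neg hk]
  have hcount : ∀ ε : ℝ, 0 < ε → ∃ C : ℝ, 0 ≤ C ∧ ∀ x : ℕ,
      (((primesUpTo x).filter fun p => a' p ≠ a p).card : ℝ) ≤
        C * ((x : ℝ) + 1) ^ (1 / 2 + ε) := by
    intro ε hε
    refine count a a' N k₁ ?_ ?_ ?_ ε hε
    · intro p hp
      rw [ha' p, if_neg (by omega)]
    · intro k hk
      refine (card_le_card ?_).trans (hg k hk).2.1
      intro p hp
      rw [mem_filter] at hp ⊢
      have h1 : (M : ℤ) ∣ τ p := by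
        by_contra h
        exact hp.2 (hnot k hk p hp.1 h)
      refine ⟨?_, ?_⟩
      · unfold Z
        rw [mem_filter]
        exact ⟨hp.1, h1⟩
      · rw [← hblk k hk p hp.1]
        exact hp.2
    · intro ε hε
      obtain ⟨C, hC0, hC⟩ := hNε ε hε
      exact ⟨C, hC0, fun k hk => hC k (hk0.trans hk)⟩
  refine ⟨a', ?_, ?_, bound h μ c a a' hc hB hcount, boundP h μ c a a' hc hBP hcount, k₁, ?_⟩
  · intro p hp
    rcases hcases p hp with h1 | ⟨hk, -, h1⟩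
    · rw [h1]
      exact ha p hp
    · have hpos : (0 : ℤ) ≤ 4 * (p : ℤ) ^ h := by positivity
      rcases h1 with h1 | h1
      · rw [h1]
        have h2 := (two_le_kk hp.two_le).1
        have h3 : M ^ 2 ≤ p := by
          have h4 : M ≤ 2 ^ M := Nat.lt_two_pow_self.le
          calc M ^ 2 ≤ (2 ^ M) ^ 2 := Nat.pow_le_pow_left h4 2
            _ = 2 ^ (2 * M) := by rw [← pow_mul, mul_comm]
            _ ≤ 2 ^ (kk p) := Nat.pow_le_pow_right (by norm_num) (hkB.trans hk)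
            _ ≤ p := by omega
        have h5 : p ≤ p ^ h := Nat.le_self_pow (by omega) p
        have h6 : M ^ 2 ≤ 4 * p ^ h := by omega
        exact_mod_cast h6
      · rw [h1]
        simp
  · intro p hp
    rcases hcases p hp with h1 | ⟨hk, hd, h1⟩
    · rw [h1]
      exact haM p hp
    · rcases h1 with h1 | h1
      · rw [h1]
        exact dvd_sub (dvd_refl _) hd
      · rw [h1, zero_sub, dvd_neg]
        exact hd
  · intro k hk
    rw [← (hg k hk).1]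
    congr 1
    unfold Z
    rw [filter_filter]
    refine filter_congr fun p hp => ?_
    rw [hblk k hk p hp]
    constructor
    · intro h0
      refine ⟨?_, h0⟩
      by_contra hd
      have h1 := hnot k hk p hp hd
      rw [hblk k hk p hp, h0] at h1
      have h2 := haM p (mem_blk.1 hp).1
      rw [← h1, zero_sub, dvd_neg] at h2
      exact hd h2
    · exact fun h => h.2

end Pool.Agent.H414.LH
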