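import Pool.Agent.H414.LH.Spec

/-!
Positivity of the laws `ν`.
-/

set_option autoImplicit false

namespace Pool.Agent.H414.LH

open Finset
open Pool.Agent.H414.LT (primesUpTo blk kk two_le_kk)
open Pool.Agent.H414.DF (l2 e2)

namespace Pos

theorem e2_pos (x : ℝ) : 0 < e2 x := Real.rpow_pos_of_pos (by norm_num) x
theorem e2_add (x y : ℝ) : e2 (x + y) = e2 x * e2 y := Real.rpow_add (by norm_num) x y
theorem e2_le {x y : ℝ} (h : x ≤ y) : e2 x ≤ e2 y :=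
  Real.rpow_le_rpow_of_exponent_le (by norm_num) h
theorem e2_nat (n : ℕ) : e2 n = 2 ^ n := Real.rpow_natCast 2 n
theorem one_le_e2 {x : ℝ} (h : 0 ≤ x) : 1 ≤ e2 x := Real.one_le_rpow (by norm_num) h
theorem e2_rpow (x y : ℝ) : e2 x ^ y = e2 (x * y) := (Real.rpow_mul (by norm_num) x y).symm

theorem Q_le (k : ℕ) : (Q k : ℝ) ≤ e2 (k / 4) := Nat.floor_le (e2_pos _).le

theorem B_le (hB : S_B) (h M k : ℕ) (hM : 1 ≤ M) : (B h M k : ℝ) ≤ e2 (k * h / 2) := by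
  have h1 := (hB h M k hM).2
  have h2 : B h M k ≤ Nat.sqrt (2 ^ (k * h)) := le_trans (Nat.le_mul_of_pos_left _ hM) h1
  have h3 : (B h M k : ℝ) ≤ (Nat.sqrt (2 ^ (k * h)) : ℝ) := by exact_mod_cast h2
  refine h3.trans (Real.nat_sqrt_le_real_sqrt.trans ?_)
  refine Real.sqrt_le_iff.2 ⟨(e2_pos _).le, ?_⟩
  rw [sq, ← e2_add]
  have e : (k * h / 2 + k * h / 2 : ℝ) = ((k * h : ℕ) : ℝ) := by push_cast; ring
  rw [e, e2_nat]
  push_cast
  exact le_rfl

/-- the lower bound for `κ` -/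
theorem kap_ge (hK : DF.S_K) (h M k : ℕ) (b : ℤ) (hb : b ≠ 0)
    (hbB : b ∈ Icc (-(B h M k : ℤ)) (B h M k)) :
    -(((Q k : ℝ) * (b.natAbs.divisors.card : ℝ) + |Lz h M k|) / (2 * B h M k + 1)) ≤
      kap h M k b := by
  unfold kap
  rw [if_neg hb, if_pos hbB, zero_sub]
  have h1 := ((hK 1 (Q k) (fun _ => b) le_rfl).2.1 0 hb)
  rw [pow_one] at h1
  have h2 : Kz k b ≤ (Q k : ℝ) * (b.natAbs.divisors.card : ℝ) := (le_abs_self _).trans h1
  have h3 : -Lz h M k ≤ |Lz h M k| := neg_le_abs _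
  have h4 : (0 : ℝ) < 2 * B h M k + 1 := by positivity
  rw [neg_le_neg_iff]
  exact div_le_div_of_nonneg_right (by linarith) h4.le

/-- the choice of `k₁` -/
theorem exists_k (D c y : ℝ) (hc : 0 < c) (hy : 0 < y) : ∃ k₁ : ℕ, ∀ k : ℕ, k₁ ≤ k →
    D * e2 (-(k * y)) ≤ c := by
  have h0 : e2 (-y) < 1 := by
    unfold e2
    exact Real.rpow_lt_one_of_one_lt_of_neg (by norm_num) (by linarith)
  obtain ⟨k₁, hk₁⟩ := exists_pow_lt_of_lt_one (show 0 < c / (|D| + 1) by positivity) h0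
  refine ⟨k₁, fun k hk => ?_⟩
  have h1 : e2 (-(k * y)) = e2 (-y) ^ k := by
    rw [← Real.rpow_natCast, e2_rpow]
    congr 1; ring
  have h2 : e2 (-y) ^ k ≤ e2 (-y) ^ k₁ := pow_le_pow_of_le_one (e2_pos _).le h0.le hk
  rw [h1]
  have h3 : 0 ≤ e2 (-y) ^ k := pow_nonneg (e2_pos _).le _
  have h4 : 0 < |D| + 1 := by positivity
  have h5 : e2 (-y) ^ k ≤ c / (|D| + 1) := h2.trans hk₁.le
  rw [le_div_iff₀ h4] at h5
  calc D * e2 (-y) ^ k ≤ (|D| + 1) * e2 (-y) ^ k := by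
        refine mul_le_mul_of_nonneg_right ?_ h3
        linarith [le_abs_self D]
    _ ≤ c := by linarith

end Pos

open Pos in
theorem pos (hB : S_B) (hK : DF.S_K) (hTAU : DF.S_TAU) (hBIAS : S_BIAS) : S_POS := by
  intro h M τ μ δ f m k₀ C' hh hM hδ hμ hm
  have hh0 : (0 : ℝ) < h := by
    have : 0 < h := by omega
    exact_mod_cast this
  -- the constants
  obtain ⟨C1, hC1⟩ := hTAU (δ / 8 * (2 / h)) (by positivity)
  obtain ⟨C2, hC20, hC2, -⟩ := hBIAS h M hh hM 1 one_pos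
  obtain ⟨c, hc, hlow⟩ := hμ.lower (δ / 8) (by positivity)
  have hC10 : 0 ≤ C1 := by
    have h1 := hC1 1 le_rfl
    simp at h1
    linarith
  obtain ⟨k₂, hk₂⟩ := exists_k (C' * ((C1 + C2) * (4 * M))) (c * e2 (-(δ / 8 + h / 2))) (δ / 4)
    (mul_pos hc (e2_pos _)) (by positivity)
  refine ⟨max k₀ k₂, le_max_left _ _, fun p hp b => ?_⟩
  unfold nu
  split_ifs with hcond
  swap
  · rw [add_zero]; exact hμ.nonneg p hp b
  obtain ⟨hkp, hτ, b', rfl⟩ := hcond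
  set k := kk p with hkdef
  have hk0 : k₀ ≤ k := (le_max_left _ _).trans hkp
  have hk2 : k₂ ≤ k := (le_max_right _ _).trans hkp
  have hMz : (M : ℤ) ≠ 0 := by
    have : 0 < M := hM
    exact_mod_cast this.ne'
  rw [Int.mul_ediv_cancel_left b' hMz]
  have hmk := hm.nonneg k
  have hμ0 := hμ.nonneg p hp (M * b')
  by_cases hb0 : b' = 0
  · rw [hb0]
    rw [hb0] at hμ0
    exact add_nonneg hμ0 (mul_nonneg hmk (hm.diag k hk0))
  by_cases hbB : b' ∈ Icc (-(B h M k : ℤ)) (B h M k)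
  swap
  · have : kap h M k b' = 0 := by
      unfold kap
      rw [if_neg hb0, if_neg hbB, sub_zero]
    rw [this, mul_zero, add_zero]
    exact hμ0
  -- the main case
  have hkap := kap_ge hK h M k b' hb0 hbB
  have hbabs : b'.natAbs ≤ B h M k := by
    rw [Finset.mem_Icc] at hbB
    omega
  have hL0 : (0 : ℝ) < 2 * B h M k + 1 := by positivity
  have hM0 : (0 : ℝ) < M := by
    have : 0 < M := hM
    exact_mod_cast this
  -- the divisor bound
  have hdiv : (b'.natAbs.divisors.card : ℝ) ≤ C1 * e2 (k * (δ / 8)) := by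
    have h1 : 1 ≤ b'.natAbs := Nat.one_le_iff_ne_zero.2 (Int.natAbs_ne_zero.2 hb0)
    refine (hC1 _ h1).trans (mul_le_mul_of_nonneg_left ?_ hC10)
    have h2 : (b'.natAbs : ℝ) ≤ e2 (k * h / 2) :=
      le_trans (by exact_mod_cast hbabs) (B_le hB h M k hM)
    calc (b'.natAbs : ℝ) ^ (δ / 8 * (2 / h)) ≤ e2 (k * h / 2) ^ (δ / 8 * (2 / h)) :=
          Real.rpow_le_rpow (Nat.cast_nonneg _) h2 (by positivity)
      _ = e2 (k * (δ / 8)) := by
          rw [e2_rpow]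
          congr 1
          field_simp
  have hkn : (0 : ℝ) ≤ k := Nat.cast_nonneg k
  have hnum : (Q k : ℝ) * (b'.natAbs.divisors.card : ℝ) + |Lz h M k| ≤
      (C1 + C2) * e2 (k * (1 / 4 + δ / 8)) := by
    have h1 : (Q k : ℝ) * (b'.natAbs.divisors.card : ℝ) ≤ C1 * e2 (k * (1 / 4 + δ / 8)) := by
      calc (Q k : ℝ) * (b'.natAbs.divisors.card : ℝ) ≤ e2 (k / 4) * (C1 * e2 (k * (δ / 8))) :=
            mul_le_mul (Q_le k) hdiv (Nat.cast_nonneg _) (e2_pos _).le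
        _ = C1 * e2 (k * (1 / 4 + δ / 8)) := by
            rw [show (k : ℝ) * (1 / 4 + δ / 8) = k / 4 + k * (δ / 8) by ring, e2_add]; ring
    have h2 : |Lz h M k| ≤ C2 * e2 (k * (1 / 4 + δ / 8)) := by
      calc |Lz h M k| ≤ C2 := hC2 k
        _ = C2 * 1 := (mul_one _).symm
        _ ≤ C2 * e2 (k * (1 / 4 + δ / 8)) :=
            mul_le_mul_of_nonneg_left (one_le_e2 (by positivity)) hC20
    rw [add_mul]
    linarith
  have hBk := (hB h M k hM).1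
  -- `1 / (2 B + 1)`
  have hinv : 1 / (2 * (B h M k : ℝ) + 1) ≤ 4 * M * e2 (-(k * h / 2)) := by
    rw [div_le_iff₀ hL0]
    have h1 : e2 (-(k * h / 2)) * e2 (k * h / 2) = 1 := by
      rw [← e2_add, neg_add_cancel]
      exact Real.rpow_zero 2
    calc (1 : ℝ) = e2 (-(k * h / 2)) * e2 (k * h / 2) := h1.symm
      _ ≤ e2 (-(k * h / 2)) * (4 * M * (2 * (B h M k : ℝ) + 1)) :=
          mul_le_mul_of_nonneg_left hBk (e2_pos _).le
      _ = _ := by ring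
  have hkap2 : -((C1 + C2) * (4 * M) * e2 (k * (1 / 4 + δ / 8) - k * h / 2)) ≤ kap h M k b' := by
    refine le_trans ?_ hkap
    rw [neg_le_neg_iff]
    calc ((Q k : ℝ) * (b'.natAbs.divisors.card : ℝ) + |Lz h M k|) / (2 * B h M k + 1)
        = ((Q k : ℝ) * (b'.natAbs.divisors.card : ℝ) + |Lz h M k|) *
            (1 / (2 * (B h M k : ℝ) + 1)) := by ring
      _ ≤ ((C1 + C2) * e2 (k * (1 / 4 + δ / 8))) * (4 * M * e2 (-(k * h / 2))) := by
          refine mul_le_mul hnum hinv (by positivity) ?_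
          have := e2_pos (k * (1 / 4 + δ / 8))
          positivity
      _ = (C1 + C2) * (4 * M) * e2 (k * (1 / 4 + δ / 8) - k * h / 2) := by
          rw [sub_eq_add_neg, e2_add]; ring
  -- the product
  have hprod : -(C' * ((C1 + C2) * (4 * M)) * e2 (-(k * (3 * δ / 8)) - k * h / 2)) ≤
      m k * kap h M k b' := by
    have h1 := hm.le k hk0
    have h2 : 0 ≤ (C1 + C2) * (4 * M) * e2 (k * (1 / 4 + δ / 8) - k * h / 2) := by
      have := e2_pos (k * (1 / 4 + δ / 8) - k * h / 2)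
      positivity
    have h3 : m k * ((C1 + C2) * (4 * M) * e2 (k * (1 / 4 + δ / 8) - k * h / 2)) ≤
        C' * e2 (-(k * (1 / 4 + δ / 2))) *
          ((C1 + C2) * (4 * M) * e2 (k * (1 / 4 + δ / 8) - k * h / 2)) :=
      mul_le_mul_of_nonneg_right h1 h2
    have h4 : C' * e2 (-(k * (1 / 4 + δ / 2))) *
          ((C1 + C2) * (4 * M) * e2 (k * (1 / 4 + δ / 8) - k * h / 2)) =
        C' * ((C1 + C2) * (4 * M)) * e2 (-(k * (3 * δ / 8)) - k * h / 2) := by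
      have e : -(k * (3 * δ / 8)) - k * h / 2 =
          -((k : ℝ) * (1 / 4 + δ / 2)) + (k * (1 / 4 + δ / 8) - k * h / 2) := by ring
      rw [e, e2_add]; ring
    have h5 := mul_le_mul_of_nonneg_left hkap2 hmk
    rw [h4] at h3
    linarith
  -- the lower bound for `μ`
  obtain ⟨hp1, hp2⟩ := two_le_kk hp.two_le
  rw [← hkdef] at hp1 hp2
  have hsq : ((M : ℤ) * b') ^ 2 ≤ (p : ℤ) ^ h := by
    have h1 := (hB h M k hM).2
    have h2 : M * b'.natAbs ≤ Nat.sqrt (2 ^ (k * h)) := (Nat.mul_le_mul_left _ hbabs).trans h1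
    have h3 : (M * b'.natAbs) ^ 2 ≤ 2 ^ (k * h) := by
      calc (M * b'.natAbs) ^ 2 ≤ (Nat.sqrt (2 ^ (k * h))) ^ 2 := Nat.pow_le_pow_left h2 2
        _ ≤ 2 ^ (k * h) := Nat.sqrt_le' _
    have h4 : 2 ^ (k * h) ≤ p ^ h := by
      rw [pow_mul]
      exact Nat.pow_le_pow_left hp1.le h
    have h5 : (M * b'.natAbs) ^ 2 ≤ p ^ h := h3.trans h4
    have h6 : (((M : ℤ) * b') ^ 2) = (((M * b'.natAbs) ^ 2 : ℕ) : ℤ) := by
      push_cast
      rw [mul_pow, mul_pow, sq_abs]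
    rw [h6]
    exact_mod_cast h5
  have hdvd : (M : ℤ) ∣ (M : ℤ) * b' - τ p := dvd_sub (dvd_mul_right _ _) hτ
  have hlo := hlow p hp ((M : ℤ) * b') hdvd hsq
  have hp0 : (0 : ℝ) < p := by exact_mod_cast hp.pos
  have hple : (p : ℝ) ≤ e2 ((k : ℝ) + 1) := by
    have : (p : ℝ) ≤ ((2 ^ (k + 1) : ℕ) : ℝ) := by exact_mod_cast hp2
    rw [show ((k : ℝ) + 1) = ((k + 1 : ℕ) : ℝ) by push_cast; ring, e2_nat]
    exact_mod_cast this
  have hrp : e2 (-(((k : ℝ) + 1) * (δ / 8 + h / 2))) ≤ (p : ℝ) ^ (-(δ / 8) - h / 2 : ℝ) := by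
    have h1 : (e2 ((k : ℝ) + 1)) ^ (-(δ / 8) - h / 2 : ℝ) ≤ (p : ℝ) ^ (-(δ / 8) - h / 2 : ℝ) :=
      Real.rpow_le_rpow_of_nonpos hp0 hple (by linarith)
    rw [e2_rpow] at h1
    have e : ((k : ℝ) + 1) * (-(δ / 8) - h / 2) = -(((k : ℝ) + 1) * (δ / 8 + h / 2)) := by ring
    rw [e] at h1
    exact h1
  have hfin : C' * ((C1 + C2) * (4 * M)) * e2 (-(k * (3 * δ / 8)) - k * h / 2) ≤
      c * (p : ℝ) ^ (-(δ / 8) - h / 2 : ℝ) := by
    have h1 := hk₂ k hk2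
    have e : -((k : ℝ) * (3 * δ / 8)) - k * h / 2 =
        -(k * (δ / 4)) + -(k * (δ / 8 + h / 2)) := by ring
    rw [e, e2_add, ← mul_assoc]
    calc C' * ((C1 + C2) * (4 * M)) * e2 (-(k * (δ / 4))) * e2 (-(k * (δ / 8 + h / 2)))
        ≤ c * e2 (-(δ / 8 + h / 2)) * e2 (-(k * (δ / 8 + h / 2))) :=
          mul_le_mul_of_nonneg_right h1 (e2_pos _).le
      _ = c * e2 (-(((k : ℝ) + 1) * (δ / 8 + h / 2))) := by
          rw [mul_assoc, ← e2_add]
          congr 2; ring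
      _ ≤ c * (p : ℝ) ^ (-(δ / 8) - h / 2 : ℝ) := mul_le_mul_of_nonneg_left hrp hc.le
  linarith

end Pool.Agent.H414.LH
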