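import Pool.Agent.H414.LH.Spec

/-! Selection of the system (helper407 for helper414; after the file `DF/Sel.lean` of helper685). -/

set_option autoImplicit false

namespace Pool.Agent.H414.LH

open Finset
open Pool.Agent.H414.LT (primesUpTo blk kk)
open Pool.Agent.H414.DF (l2 e2)

namespace Sel

/-- Second moments of a complex random variable minus its mean. -/
theorem variance {Ω : Type} [Fintype Ω] (π : Ω → ℝ) (h1 : ∑ ω, π ω = 1) (X : Ω → ℂ) :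
    ∑ v, π v * ‖X v - ∑ v', (π v' : ℂ) * X v'‖ ^ 2 =
      ∑ v, π v * ‖X v‖ ^ 2 - ‖∑ v', (π v' : ℂ) * X v'‖ ^ 2 := by
  set m := ∑ v', (π v' : ℂ) * X v' with hm
  have e : ∀ v, π v * ‖X v - m‖ ^ 2 = π v * ‖X v‖ ^ 2 -
      2 * (starRingEnd ℂ m * ((π v : ℂ) * X v)).re + π v * ‖m‖ ^ 2 := by
    intro v
    rw [← Complex.normSq_eq_norm_sq, ← Complex.normSq_eq_norm_sq, ← Complex.normSq_eq_norm_sq,
      Complex.normSq_apply, Complex.normSq_apply, Complex.normSq_apply]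
    simp
    ring
  rw [sum_congr rfl fun v _ => e v, sum_add_distrib, sum_sub_distrib, ← sum_mul, h1, one_mul,
    ← mul_sum, ← Complex.re_sum, ← mul_sum, ← hm]
  have : (starRingEnd ℂ m * m).re = ‖m‖ ^ 2 := by
    rw [← Complex.normSq_eq_norm_sq, Complex.normSq_apply]
    simp
  rw [this]
  ring

theorem mean_sq_le {Ω : Type} [Fintype Ω] (π : Ω → ℝ) (h0 : ∀ ω, 0 ≤ π ω) (h1 : ∑ ω, π ω = 1)
    (X : Ω → ℂ) : ‖∑ v', (π v' : ℂ) * X v'‖ ^ 2 ≤ ∑ v, π v * ‖X v‖ ^ 2 := by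
  have h2 := variance π h1 X
  have h3 : 0 ≤ ∑ v, π v * ‖X v - ∑ v', (π v' : ℂ) * X v'‖ ^ 2 :=
    sum_nonneg fun v _ => mul_nonneg (h0 v) (sq_nonneg _)
  linarith

theorem var_le {Ω : Type} [Fintype Ω] (π : Ω → ℝ) (h1 : ∑ ω, π ω = 1)
    (X : Ω → ℂ) : ∑ v, π v * ‖X v - ∑ v', (π v' : ℂ) * X v'‖ ^ 2 ≤ ∑ v, π v * ‖X v‖ ^ 2 := by
  rw [variance π h1 X]
  linarith [sq_nonneg ‖∑ v', (π v' : ℂ) * X v'‖]

/-- The engine for tests with bounded square sums. -/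
theorem eng_raw (hENG : DF.S_ENG) (J : Type) (I : J → Type) [∀ j, Fintype (I j)] (Ω : ℕ → Type)
    [∀ n, Fintype (Ω n)] (π : ∀ n, Ω n → ℝ) (raw : ∀ (n : ℕ) (j : J), I j → Ω n → ℂ) (w : J → ℝ)
    (h0 : ∀ n ω, 0 ≤ π n ω) (h1 : ∀ n, ∑ ω, π n ω = 1) (hw : ∀ j, 0 < w j) (hws : Summable w)
    (hB : ∀ n j ω, ∑ s, ‖raw n j s ω‖ ^ 2 ≤ 1) :
    ∃ ω : ∀ n, Ω n, ∀ (j : J) (N : ℕ),
      ∑ s, ‖∑ n ∈ range N, (raw n j s (ω n) - ∑ v, (π n v : ℂ) * raw n j s v)‖ ^ 2 ≤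
        (∑' i, w i) / w j * N := by
  have hsec : ∀ n j, ∑ ω, π n ω * ∑ s, ‖raw n j s ω‖ ^ 2 ≤ 1 := by
    intro n j
    calc ∑ ω, π n ω * ∑ s, ‖raw n j s ω‖ ^ 2 ≤ ∑ ω, π n ω * 1 :=
          sum_le_sum fun ω _ => mul_le_mul_of_nonneg_left (hB n j ω) (h0 n ω)
      _ = 1 := by simp only [mul_one]; exact h1 n
  have hswap : ∀ n j (G : I j → Ω n → ℝ), ∑ ω, π n ω * ∑ s, G s ω =
      ∑ s, ∑ ω, π n ω * G s ω := by
    intro n j G
    rw [sum_comm]
    exact sum_congr rfl fun ω _ => mul_sum _ _ _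
  have key := hENG J I Ω π (fun n j s v => raw n j s v - ∑ v', (π n v' : ℂ) * raw n j s v') w
    (fun _ => 1) h0 h1 hw (fun _ => zero_le_one) (by simpa using hws) ?_ ?_ ?_
  · simpa using key
  · intro n j s
    simp only [mul_sub, sum_sub_distrib]
    rw [← sum_mul, ← Complex.ofReal_sum, h1, Complex.ofReal_one, one_mul, sub_self]
  · intro n j
    refine le_trans ?_ (hsec n j)
    rw [hswap n j, hswap n j]
    exact sum_le_sum fun s _ => var_le (π n) (h1 n) (raw n j s)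
  · intro n v
    refine Summable.of_nonneg_of_le (fun j => mul_nonneg (hw j).le (sum_nonneg fun s _ => sq_nonneg _))
      (fun j => ?_) (hws.mul_right 4)
    refine mul_le_mul_of_nonneg_left ?_ (hw j).le
    have h2 : ∑ s, ‖∑ v', (π n v' : ℂ) * raw n j s v'‖ ^ 2 ≤ 1 := by
      refine le_trans ?_ (hsec n j)
      rw [hswap n j]
      exact sum_le_sum fun s _ => mean_sq_le (π n) (h0 n) (h1 n) (raw n j s)
    have h3 : ∀ s, ‖raw n j s v - ∑ v', (π n v' : ℂ) * raw n j s v'‖ ^ 2 ≤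
        2 * ‖raw n j s v‖ ^ 2 + 2 * ‖∑ v', (π n v' : ℂ) * raw n j s v'‖ ^ 2 := by
      intro s
      have h4 := norm_sub_le (raw n j s v) (∑ v', (π n v' : ℂ) * raw n j s v')
      have h5 : ‖raw n j s v - ∑ v', (π n v' : ℂ) * raw n j s v'‖ ^ 2 ≤
          (‖raw n j s v‖ + ‖∑ v', (π n v' : ℂ) * raw n j s v'‖) ^ 2 :=
        pow_le_pow_left₀ (norm_nonneg _) h4 2
      nlinarith [sq_nonneg (‖raw n j s v‖ - ‖∑ v', (π n v' : ℂ) * raw n j s v'‖)]
    calc ∑ s, ‖raw n j s v - ∑ v', (π n v' : ℂ) * raw n j s v'‖ ^ 2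
        ≤ ∑ s, (2 * ‖raw n j s v‖ ^ 2 + 2 * ‖∑ v', (π n v' : ℂ) * raw n j s v'‖ ^ 2) :=
          sum_le_sum fun s _ => h3 s
      _ = 2 * ∑ s, ‖raw n j s v‖ ^ 2 + 2 * ∑ s, ‖∑ v', (π n v' : ℂ) * raw n j s v'‖ ^ 2 := by
          rw [sum_add_distrib, ← mul_sum, ← mul_sum]
      _ ≤ 4 := by linarith [hB n j v]

theorem cs {α : Type} [Fintype α] (F S : α → ℂ) (V : ℝ) (hS : ∑ s, ‖S s‖ ^ 2 ≤ V) :
    ‖∑ s, F s * S s‖ ≤ l2 F * √V := by
  have hV : 0 ≤ V := le_trans (sum_nonneg fun s _ => sq_nonneg _) hS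
  have h1 : ‖∑ s, F s * S s‖ ≤ ∑ s, ‖F s‖ * ‖S s‖ :=
    (norm_sum_le _ _).trans (le_of_eq (sum_congr rfl fun s _ => norm_mul _ _))
  have h2 := Finset.sum_mul_sq_le_sq_mul_sq univ (fun s => ‖F s‖) (fun s => ‖S s‖)
  have h3 : 0 ≤ ∑ s, ‖F s‖ ^ 2 := sum_nonneg fun s _ => sq_nonneg _
  have h4 : 0 ≤ ∑ s, ‖F s‖ * ‖S s‖ :=
    sum_nonneg fun s _ => mul_nonneg (norm_nonneg _) (norm_nonneg _)
  refine h1.trans ?_
  unfold l2
  rw [← Real.sqrt_mul h3]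
  refine Real.le_sqrt_of_sq_le (h2.trans ?_)
  exact mul_le_mul_of_nonneg_left hS h3

/-- The index sets of the tests. -/
def Ix : (ℕ × ℕ) ⊕ ((ℕ × ℕ) ⊕ ℕ) → Type
  | Sum.inl x => ZMod (x.2 + 1) × ZMod (x.2 + 1)
  | Sum.inr (Sum.inl x) => ZMod (x.2 + 1)
  | Sum.inr (Sum.inr _) => Unit

noncomputable instance : ∀ j, Fintype (Ix j)
  | Sum.inl x => inferInstanceAs (Fintype (ZMod (x.2 + 1) × ZMod (x.2 + 1)))
  | Sum.inr (Sum.inl x) => inferInstanceAs (Fintype (ZMod (x.2 + 1)))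
  | Sum.inr (Sum.inr _) => inferInstanceAs (Fintype Unit)

open Classical in
/-- The set of the outcomes. -/
noncomputable def So (h M : ℕ) (τ : ℕ → ℤ) (n : ℕ) : Finset ℤ :=
  if n.Prime then (ival h n).filter (fun b => (M : ℤ) ∣ b - τ n) else {0}

/-- The outcomes. -/
abbrev Om (h M : ℕ) (τ : ℕ → ℤ) (n : ℕ) : Type := {b : ℤ // b ∈ So h M τ n}

variable {h M : ℕ} {τ : ℕ → ℤ}

/-- The weights of the outcomes. -/
noncomputable def pw (ν : ℕ → ℤ → ℝ) (n : ℕ) (b : Om h M τ n) : ℝ :=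
  if n.Prime then ν n b.1 else 1

/-- The tests of the first kind. -/
noncomputable def rawA (c : ℕ → ℕ → ℂ) (n i s : ℕ)
    (u : ZMod (s + 1) × ZMod (s + 1)) (b : Om h M τ n) : ℂ :=
  if n.Prime then c i n * (if ((n : ZMod (s + 1)), (b.1 : ZMod (s + 1))) = u then 1 else 0) else 0

/-- The tests of the second kind. -/
noncomputable def rawP (c : ℕ → ℕ → ℂ) (n i s : ℕ)
    (u : ZMod (s + 1)) (b : Om h M τ n) : ℂ :=
  if n.Prime then c i n * (if n.Coprime (s + 1) ∧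
    (b.1 : ZMod (s + 1)) ^ 2 * ((n : ZMod (s + 1)) ^ h)⁻¹ = u then 1 else 0) else 0

/-- The tests of the third kind. -/
noncomputable def rawB (n k : ℕ) (b : Om h M τ n) : ℂ :=
  if n ∈ blk k ∧ b.1 = 0 then 1 else 0

/-- The tests. -/
noncomputable def raw (c : ℕ → ℕ → ℂ) (n : ℕ) : ∀ j, Ix j → Om h M τ n → ℂ
  | Sum.inl x => rawA c n x.1 x.2
  | Sum.inr (Sum.inl x) => rawP c n x.1 x.2
  | Sum.inr (Sum.inr k) => fun _ b => rawB n k b

/-- The weights of the tests. -/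
noncomputable def wj : (ℕ × ℕ) ⊕ ((ℕ × ℕ) ⊕ ℕ) → ℝ
  | Sum.inl x => (1 / 2) ^ x.1 * (1 / ((x.2 : ℝ) + 1) ^ 2)
  | Sum.inr (Sum.inl x) => (1 / 2) ^ x.1 * (1 / ((x.2 : ℝ) + 1) ^ 2)
  | Sum.inr (Sum.inr k) => 1 / ((k : ℝ) + 1) ^ 2

theorem wj_pos (j : (ℕ × ℕ) ⊕ ((ℕ × ℕ) ⊕ ℕ)) : 0 < wj j := by
  rcases j with x | x | k <;> simp only [wj] <;> positivity

theorem wj_summable : Summable wj := by
  have h1 : Summable fun x : ℕ × ℕ => ((1 : ℝ) / 2) ^ x.1 * (1 / ((x.2 : ℝ) + 1) ^ 2) :=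
    Summable.mul_of_nonneg (f := fun e : ℕ => ((1 : ℝ) / 2) ^ e)
      (g := fun d : ℕ => 1 / ((d : ℝ) + 1) ^ 2)
      (summable_geometric_of_lt_one (by norm_num) (by norm_num)) Pool.Agent.H414.LT.summable_sq
      (fun d => pow_nonneg (by norm_num) _) (fun e => div_nonneg zero_le_one (sq_nonneg _))
  have h2 : Summable fun k : ℕ => 1 / ((k : ℝ) + 1) ^ 2 := Pool.Agent.H414.LT.summable_sq
  have e1 : wj ∘ Sum.inl = fun x : ℕ × ℕ => ((1 : ℝ) / 2) ^ x.1 * (1 / ((x.2 : ℝ) + 1) ^ 2) := by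
    funext x
    simp only [Function.comp_apply, wj]
  have e2 : (wj ∘ Sum.inr) ∘ Sum.inl =
      fun x : ℕ × ℕ => ((1 : ℝ) / 2) ^ x.1 * (1 / ((x.2 : ℝ) + 1) ^ 2) := by
    funext x
    simp only [Function.comp_apply, wj]
  have e3 : (wj ∘ Sum.inr) ∘ Sum.inr = fun k : ℕ => 1 / ((k : ℝ) + 1) ^ 2 := by
    funext k
    simp only [Function.comp_apply, wj]
  have h3 : Summable (wj ∘ Sum.inr) := Summable.sum (f := wj ∘ Sum.inr) (e2 ▸ h1) (e3 ▸ h2)
  exact Summable.sum (f := wj) (e1 ▸ h1) h3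

theorem zero_mem_ival (h n : ℕ) : (0 : ℤ) ∈ ival h n := by
  unfold ival
  rw [mem_Icc]
  have : (0 : ℤ) ≤ (Nat.sqrt (4 * n ^ h) : ℤ) := Int.natCast_nonneg _
  constructor <;> omega

theorem So_mem {p : ℕ} (hp : p.Prime) {b : ℤ} (hb : b ∈ So h M τ p) :
    b ∈ ival h p ∧ (M : ℤ) ∣ b - τ p := by
  unfold So at hb
  rw [if_pos hp, mem_filter] at hb
  exact hb

theorem pw_nonneg (ν : ℕ → ℤ → ℝ) (h0 : ∀ p : ℕ, p.Prime → ∀ b, 0 ≤ ν p b)
    (n : ℕ) (b : Om h M τ n) : 0 ≤ pw ν n b := by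
  unfold pw
  split_ifs with h
  · exact h0 n h _
  · exact zero_le_one

/-- Sums over the outcomes. -/
theorem sum_out (ν : ℕ → ℤ → ℝ) (hs : ∀ p : ℕ, p.Prime → ∀ b, ¬ (M : ℤ) ∣ b - τ p → ν p b = 0)
    {n : ℕ} (hn : n.Prime) (X : ℤ → ℂ) :
    ∑ b : Om h M τ n, (pw ν n b : ℂ) * X b.1 = ∑ b ∈ ival h n, (ν n b : ℂ) * X b := by
  classical
  have e1 : ∑ b : Om h M τ n, (pw ν n b : ℂ) * X b.1 =
      ∑ b : {b : ℤ // b ∈ So h M τ n}, (ν n b.1 : ℂ) * X b.1 := by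
    refine sum_congr rfl fun b _ => ?_
    unfold pw
    rw [if_pos hn]
  rw [e1, Finset.sum_coe_sort (So h M τ n) (fun b => (ν n b : ℂ) * X b)]
  unfold So
  rw [if_pos hn, sum_filter]
  refine sum_congr rfl fun b _ => ?_
  split_ifs with hb
  · rfl
  · rw [hs n hn b hb, Complex.ofReal_zero, zero_mul]

theorem pw_sum (ν : ℕ → ℤ → ℝ) (h1 : ∀ p : ℕ, p.Prime → ∑ b ∈ ival h p, ν p b = 1)
    (hs : ∀ p : ℕ, p.Prime → ∀ b, ¬ (M : ℤ) ∣ b - τ p → ν p b = 0) (n : ℕ) :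
    ∑ b : Om h M τ n, pw ν n b = 1 := by
  by_cases hn : n.Prime
  · have h2 := sum_out (h := h) (M := M) (τ := τ) ν hs hn (fun _ => 1)
    simp only [mul_one] at h2
    rw [← Complex.ofReal_sum, ← Complex.ofReal_sum, h1 n hn] at h2
    exact_mod_cast h2
  · have h2 : ∀ b : Om h M τ n, pw ν n b = 1 := fun b => by
      unfold pw
      rw [if_neg hn]
    rw [sum_congr rfl fun b _ => h2 b]
    rw [Finset.sum_coe_sort (So h M τ n) (fun _ => (1 : ℝ))]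
    unfold So
    rw [if_neg hn, sum_singleton]

theorem ind_sum {α : Type} [Fintype α] (f : α → ℂ) (u0 : α) (h0 : ‖f u0‖ ≤ 1)
    (h1 : ∀ u, u ≠ u0 → f u = 0) : ∑ u, ‖f u‖ ^ 2 ≤ 1 := by
  rw [Finset.sum_eq_single u0]
  · have h2 := norm_nonneg (f u0)
    nlinarith
  · intro u _ hu
    rw [h1 u hu, norm_zero, zero_pow two_ne_zero]
  · intro h3
    exact absurd (mem_univ _) h3

theorem rawA_sum (c : ℕ → ℕ → ℂ) (hc : ∀ i p, ‖c i p‖ ≤ 1) (n i s : ℕ)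
    (b : Om h M τ n) : ∑ u, ‖rawA c n i s u b‖ ^ 2 ≤ 1 := by
  refine ind_sum (fun u => rawA c n i s u b) ((n : ZMod (s + 1)), (b.1 : ZMod (s + 1))) ?_ ?_
  · unfold rawA
    split_ifs with h h'
    · rw [mul_one]
      exact hc i n
    · exact absurd rfl h'
    · rw [norm_zero]
      exact zero_le_one
  · intro u hu
    unfold rawA
    split_ifs with h h'
    · exact absurd h' (Ne.symm hu)
    · rw [mul_zero]
    · rfl

theorem rawP_sum (c : ℕ → ℕ → ℂ) (hc : ∀ i p, ‖c i p‖ ≤ 1) (n i s : ℕ)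
    (b : Om h M τ n) : ∑ u, ‖rawP c n i s u b‖ ^ 2 ≤ 1 := by
  refine ind_sum (fun u => rawP c n i s u b)
    ((b.1 : ZMod (s + 1)) ^ 2 * ((n : ZMod (s + 1)) ^ h)⁻¹) ?_ ?_
  · unfold rawP
    split_ifs with h h'
    · rw [mul_one]
      exact hc i n
    · rw [mul_zero, norm_zero]
      exact zero_le_one
    · rw [norm_zero]
      exact zero_le_one
  · intro u hu
    unfold rawP
    split_ifs with h h'
    · exact absurd h'.2 (Ne.symm hu)
    · rw [mul_zero]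
    · rfl

theorem raw_sum (c : ℕ → ℕ → ℂ) (hc : ∀ i p, ‖c i p‖ ≤ 1) (n : ℕ) :
    ∀ (j : (ℕ × ℕ) ⊕ ((ℕ × ℕ) ⊕ ℕ)) (b : Om h M τ n), ∑ s, ‖raw c n j s b‖ ^ 2 ≤ 1
  | Sum.inl x, b => rawA_sum c hc n x.1 x.2 b
  | Sum.inr (Sum.inl x), b => rawP_sum c hc n x.1 x.2 b
  | Sum.inr (Sum.inr k), b => by
    refine ind_sum (α := Unit) (fun _ => rawB n k b) () ?_ ?_
    · unfold rawB
      split_ifs
      · rw [norm_one]
      · rw [norm_zero]
        exact zero_le_one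
    · intro u hu
      exact absurd rfl hu

theorem sum_ind {α : Type} [Fintype α] [DecidableEq α] (F : α → ℂ) (u0 : α) (Q : Prop)
    [Decidable Q] : ∑ u, F u * (if Q ∧ u0 = u then (1 : ℂ) else 0) = if Q then F u0 else 0 := by
  by_cases hQ : Q
  · rw [Finset.sum_eq_single u0]
    · rw [if_pos ⟨hQ, rfl⟩, if_pos hQ, mul_one]
    · intro u _ hu
      rw [if_neg (fun h => hu h.2.symm), mul_zero]
    · intro h3
      exact absurd (mem_univ _) h3
  · rw [if_neg hQ]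
    refine Finset.sum_eq_zero fun u _ => ?_
    rw [if_neg (fun h => hQ h.1), mul_zero]

/-- Expansion of `F` in the indicator functions. -/
theorem expandA (c : ℕ → ℕ → ℂ) (n i s : ℕ)
    (F : ZMod (s + 1) × ZMod (s + 1) → ℂ) (b : Om h M τ n) :
    ∑ u, F u * rawA c n i s u b =
      if n.Prime then c i n * F ((n : ZMod (s + 1)), (b.1 : ZMod (s + 1))) else 0 := by
  unfold rawA
  by_cases h : n.Prime
  · simp only [if_pos h]
    have h1 := sum_ind F ((n : ZMod (s + 1)), (b.1 : ZMod (s + 1))) True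
    simp only [true_and, if_true] at h1
    rw [← h1, mul_sum]
    refine sum_congr rfl fun u _ => ?_
    ring
  · simp only [if_neg h, mul_zero, sum_const_zero]

/-- Expansion of `G` in the indicator functions. -/
theorem expandP (c : ℕ → ℕ → ℂ) (n i s : ℕ)
    (G : ZMod (s + 1) → ℂ) (b : Om h M τ n) :
    ∑ u, G u * rawP c n i s u b = if n.Prime then c i n * proj h G n b.1 else 0 := by
  unfold rawP proj
  by_cases hn : n.Prime
  · simp only [if_pos hn]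
    have h1 := sum_ind G ((b.1 : ZMod (s + 1)) ^ 2 * ((n : ZMod (s + 1)) ^ h)⁻¹) (n.Coprime (s + 1))
    rw [← h1, mul_sum]
    refine sum_congr rfl fun u _ => ?_
    ring
  · simp only [if_neg hn, mul_zero, sum_const_zero]

/-- From the bound for the tests to the bound for the functions. -/
theorem conv {α : Type} [Fintype α] (ν : ℕ → ℤ → ℝ)
    (hs : ∀ p : ℕ, p.Prime → ∀ b, ¬ (M : ℤ) ∣ b - τ p → ν p b = 0)
    (ra : ∀ n : ℕ, α → Om h M τ n → ℂ) (c : ℕ → ℂ) (F : α → ℂ) (H : ℕ → ℤ → ℂ)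
    (hex : ∀ n (b : Om h M τ n), ∑ u, F u * ra n u b = if n.Prime then c n * H n b.1 else 0)
    (ω : ∀ n, Om h M τ n) (x : ℕ) (V : ℝ)
    (hV : ∑ u, ‖∑ n ∈ range (x + 1), (ra n u (ω n) - ∑ v, (pw ν n v : ℂ) * ra n u v)‖ ^ 2 ≤ V) :
    ‖∑ p ∈ primesUpTo x, c p * (H p (ω p).1 - ∑ b ∈ ival h p, (ν p b : ℂ) * H p b)‖ ≤
      l2 F * √V := by
  have h3 := cs F (fun u => ∑ n ∈ range (x + 1), (ra n u (ω n) -
    ∑ v, (pw ν n v : ℂ) * ra n u v)) _ hV
  refine le_trans (le_of_eq ?_) h3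
  congr 1
  have e1 : ∀ u, F u * (∑ n ∈ range (x + 1), (ra n u (ω n) - ∑ v, (pw ν n v : ℂ) * ra n u v)) =
      ∑ n ∈ range (x + 1), (F u * ra n u (ω n) - ∑ v, (pw ν n v : ℂ) * (F u * ra n u v)) := by
    intro u
    rw [mul_sum]
    refine sum_congr rfl fun n _ => ?_
    rw [mul_sub, mul_sum]
    congr 1
    refine sum_congr rfl fun v _ => ?_
    ring
  rw [sum_congr rfl fun s' _ => e1 s', sum_comm]
  unfold primesUpTo
  rw [sum_filter]
  refine sum_congr rfl fun n _ => ?_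
  rw [sum_sub_distrib, hex n (ω n), sum_comm]
  have e2 : ∀ v : Om h M τ n, ∑ u, (pw ν n v : ℂ) * (F u * ra n u v) =
      (pw ν n v : ℂ) * (if n.Prime then c n * H n v.1 else 0) := by
    intro v
    rw [← mul_sum, hex n v]
  rw [sum_congr rfl fun v _ => e2 v]
  by_cases hn : n.Prime
  · simp only [if_pos hn]
    rw [sum_out ν hs hn (fun b => c n * H n b), mul_sub, mul_sum]
    congr 1
    refine sum_congr rfl fun b _ => ?_
    ring
  · simp only [if_neg hn, mul_zero, sum_const_zero, sub_zero]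

theorem bound_eq {W : ℝ} (hW0 : 0 ≤ W) (i s x : ℕ) (l : ℝ) :
    l * √(W / ((1 / 2) ^ i * (1 / ((s : ℝ) + 1) ^ 2)) * ((x + 1 : ℕ) : ℝ)) =
      √(W * 2 ^ i) * ((s + 1 : ℕ) : ℝ) * l * √((x : ℝ) + 1) := by
  have h5 : W / ((1 / 2) ^ i * (1 / ((s : ℝ) + 1) ^ 2)) * ((x + 1 : ℕ) : ℝ) =
      (W * 2 ^ i) * (((s + 1 : ℕ) : ℝ) ^ 2 * ((x : ℝ) + 1)) := by
    push_cast
    rw [one_div_pow]
    field_simp
  rw [h5, Real.sqrt_mul (mul_nonneg hW0 (pow_nonneg (by norm_num) _)),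
    Real.sqrt_mul (sq_nonneg _), Real.sqrt_sq (Nat.cast_nonneg _)]
  ring

end Sel

open Sel in
theorem sel (hENG : DF.S_ENG) : S_SEL := by
  intro h M τ ν c h0 h1 hs hc
  obtain ⟨ω, hω⟩ := eng_raw hENG ((ℕ × ℕ) ⊕ ((ℕ × ℕ) ⊕ ℕ)) Ix (Om h M τ) (pw ν) (raw c) wj
    (pw_nonneg ν h0) (pw_sum ν h1 hs) wj_pos wj_summable (raw_sum c hc)
  obtain ⟨W, hW⟩ : ∃ W : ℝ, W = ∑' i, wj i := ⟨_, rfl⟩
  have hW0 : 0 ≤ W := by
    rw [hW]
    exact tsum_nonneg fun j => (wj_pos j).le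
  rw [← hW] at hω
  have hmem : ∀ p : ℕ, p.Prime → (ω p).1 ∈ ival h p ∧ (M : ℤ) ∣ (ω p).1 - τ p := by
    intro p hp
    exact So_mem hp (ω p).2
  refine ⟨fun n => (ω n).1, ?_, fun p hp => (hmem p hp).2, fun i => ⟨√(W * 2 ^ i), ?_⟩,
    fun i => ⟨√(W * 2 ^ i), ?_⟩, ⟨√(3 * W), ?_⟩⟩
  · intro p hp
    have h2 := (hmem p hp).1
    unfold ival at h2
    rw [mem_Icc] at h2
    have h3 : (Nat.sqrt (4 * p ^ h) : ℤ) ^ 2 ≤ 4 * (p : ℤ) ^ h := by
      have h4 := Nat.sqrt_le' (4 * p ^ h)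
      exact_mod_cast h4
    have h5 : (ω p).1 ^ 2 ≤ (Nat.sqrt (4 * p ^ h) : ℤ) ^ 2 := sq_le_sq' h2.1 h2.2
    exact h5.trans h3
  · intro q hq F x
    obtain ⟨s, rfl⟩ : ∃ s, q = s + 1 := ⟨q - 1, by have := hq.out; omega⟩
    have h2 := hω (Sum.inl (i, s)) (x + 1)
    have h3 := conv (α := ZMod (s + 1) × ZMod (s + 1)) ν hs (fun n => rawA c n i s) (c i) F
      (fun n b => F ((n : ZMod (s + 1)), (b : ZMod (s + 1))))
      (fun n b => expandA c n i s F b) ω x _ h2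
    exact h3.trans (le_of_eq (bound_eq hW0 i s x (l2 F)))
  · intro q hq G x
    obtain ⟨s, rfl⟩ : ∃ s, q = s + 1 := ⟨q - 1, by have := hq.out; omega⟩
    have h2 := hω (Sum.inr (Sum.inl (i, s))) (x + 1)
    have h3 := conv (α := ZMod (s + 1)) ν hs (fun n => rawP c n i s) (c i) G
      (fun n b => proj h G n b) (fun n b => expandP c n i s G b) ω x _ h2
    exact h3.trans (le_of_eq (bound_eq hW0 i s x (l2 G)))
  · intro k
    have h2 : ∑ _u : Unit, ‖∑ n ∈ range (2 ^ (k + 1) + 1), (rawB n k (ω n) -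
        ∑ v, (pw ν n v : ℂ) * rawB n k v)‖ ^ 2 ≤
        W / wj (Sum.inr (Sum.inr k)) * ((2 ^ (k + 1) + 1 : ℕ) : ℝ) :=
      hω (Sum.inr (Sum.inr k)) (2 ^ (k + 1) + 1)
    have e1 : ∑ n ∈ range (2 ^ (k + 1) + 1), (rawB n k (ω n) -
        ∑ v : Om h M τ n, (pw ν n v : ℂ) * rawB n k v) =
        (((((blk k).filter fun p => (ω p).1 = 0).card : ℝ) - ∑ p ∈ blk k, ν p 0 : ℝ) : ℂ) := by
      have hsub : blk k ⊆ range (2 ^ (k + 1) + 1) := by
        intro n hn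
        unfold blk at hn
        rw [mem_filter, mem_Ioc] at hn
        rw [mem_range]
        omega
      rw [← Finset.sum_subset hsub]
      · rw [Finset.card_filter]
        push_cast
        rw [← sum_sub_distrib]
        refine sum_congr rfl fun n hn => ?_
        have hnp : n.Prime := (mem_filter.1 hn).2
        have h3 : ∀ b : Om h M τ n, rawB n k b = if b.1 = 0 then (1 : ℂ) else 0 := by
          intro b
          unfold rawB
          by_cases hb : b.1 = 0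
          · rw [if_pos ⟨hn, hb⟩, if_pos hb]
          · rw [if_neg (fun h' => hb h'.2), if_neg hb]
        rw [sum_congr rfl fun v _ => by rw [h3 v],
          sum_out ν hs hnp (fun b => if b = 0 then (1 : ℂ) else 0), h3,
          Finset.sum_eq_single (0 : ℤ)]
        · rw [if_pos rfl, mul_one]
          by_cases hz : (ω n).1 = 0
          · rw [if_pos hz, if_pos hz, Complex.ofReal_one]
          · rw [if_neg hz, if_neg hz, Complex.ofReal_zero]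
        · intro b _ hb
          rw [if_neg hb, mul_zero]
        · intro hb
          exact absurd (zero_mem_ival h n) hb
      · intro n _ hn
        have h3 : ∀ b : Om h M τ n, rawB n k b = 0 := fun b => by
          unfold rawB
          rw [if_neg (fun h' => hn h'.1)]
        rw [h3, sum_congr rfl fun v _ => by rw [h3 v, mul_zero], sum_const_zero, sub_zero]
    rw [sum_const, card_univ, Fintype.card_unit, one_smul, e1, Complex.norm_real,
      Real.norm_eq_abs] at h2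
    have h5 : W / wj (Sum.inr (Sum.inr k)) * ((2 ^ (k + 1) + 1 : ℕ) : ℝ) =
        W * ((k : ℝ) + 1) ^ 2 * (2 * 2 ^ k + 1) := by
      simp only [wj]
      push_cast
      field_simp
      ring
    rw [h5] at h2
    have h6 : (1 : ℝ) ≤ 2 ^ k := one_le_pow₀ (by norm_num)
    have h7 : 0 ≤ W * ((k : ℝ) + 1) ^ 2 := mul_nonneg hW0 (sq_nonneg _)
    have h8 : e2 ((k : ℝ) / 2) ^ 2 = 2 ^ k := by
      unfold e2
      rw [← Real.rpow_natCast, ← Real.rpow_mul (by norm_num)]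
      have : (k : ℝ) / 2 * ((2 : ℕ) : ℝ) = (k : ℝ) := by push_cast; ring
      rw [this, Real.rpow_natCast]
    have h9 : 0 ≤ e2 ((k : ℝ) / 2) := by
      unfold e2
      positivity
    refine abs_le_of_sq_le_sq' ?_ (by positivity) |> abs_le.2
    rw [mul_pow, mul_pow, Real.sq_sqrt (by positivity), h8]
    rw [sq_abs] at h2
    nlinarith

end Pool.Agent.H414.LH
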