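import Pool.Agent.H414.LH.Defs
import Pool.Agent.H414.DF.Spec

/-!
The statements which are put together in the project LH. Paper proofs are in the docstrings. Every
`S_X` is true and is to be proved as a theorem (with the hypotheses given in the task). From `DF.Spec`:
`e2 x = 2 ^ x`, the statements `DF.S_K`, `DF.S_TAU`, `DF.S_CRT`, `DF.S_MOB`, `DF.S_ENG`, `DF.S_ASG` are proved and
may be used as hypotheses where the task says so. From `LT.St1`: `kk p` is the number `k` with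
`2^k < p ≤ 2^(k+1)` (`two_le_kk`, `mem_blk : p ∈ blk k ↔ p.Prime ∧ kk p = k`).
-/

set_option autoImplicit false

namespace Pool.Agent.H414.LH

open Finset
open Pool.Agent.H414.LT (primesUpTo blk kk)
open Pool.Agent.H414.DF (l2 e2)

/-- `⌊2 ^ (k / 4)⌋`, at least `1` -/
noncomputable def Q (k : ℕ) : ℕ := ⌊e2 (k / 4)⌋₊

/-- the number `B` such that `|M b'| ≤ √(2 ^ (k h))` for `|b'| ≤ B` -/
def B (h M k : ℕ) : ℕ := Nat.sqrt (2 ^ (k * h)) / M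

/-- the kernel: the sum over `n ≤ Q k` of the Ramanujan sums `∑_{d ∣ n} μ(n / d) d [d ∣ b]` -/
noncomputable def Kz (k : ℕ) (b : ℤ) : ℝ := DF.Kr 1 (Q k) (fun _ => b)

/-- the correction which makes the total mass zero -/
noncomputable def Lz (h M k : ℕ) : ℝ :=
  (∑ b ∈ Icc (-(B h M k : ℤ)) (B h M k), Kz k b) / (2 * B h M k + 1) - 1

/-- the signed measure `δ_0 - (K - L) / (2 B + 1)` on `[-B, B]`, of total mass zero -/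
noncomputable def kap (h M k : ℕ) (b : ℤ) : ℝ :=
  (if b = 0 then 1 else 0) -
    if b ∈ Icc (-(B h M k : ℤ)) (B h M k) then (Kz k b - Lz h M k) / (2 * B h M k + 1) else 0

/-- The laws `ν`: `μ` plus small multiples of the `κ` on the multiples of `M`, for the primes
`p ∈ blk k`, `k ≥ k₀`, with `M ∣ τ p`. -/
noncomputable def nu (h M : ℕ) (τ : ℕ → ℤ) (μ : ℕ → ℤ → ℝ) (m : ℕ → ℝ) (k₀ p : ℕ) (b : ℤ) : ℝ :=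
  μ p b + if k₀ ≤ kk p ∧ (M : ℤ) ∣ τ p ∧ (M : ℤ) ∣ b then m (kk p) * kap h M (kk p) (b / M) else 0

/-- the primes of the block `k` with `M ∣ τ p` -/
noncomputable def Z (M : ℕ) (τ : ℕ → ℤ) (k : ℕ) : Finset ℕ := (blk k).filter fun p => (M : ℤ) ∣ τ p

/-- there are many primes with `M ∣ τ p` -/
def Many (M : ℕ) (τ : ℕ → ℤ) : Prop := ∀ η : ℝ, 0 < η → ∃ (c : ℝ) (k₀ : ℕ), 0 < c ∧
  ∀ k, k₀ ≤ k → c * e2 (k * (1 - η)) ≤ ((Z M τ k).card : ℝ)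

/-- THE KERNEL ACTS AS `δ_0` on functions modulo `q ≤ Q`. Write `B = B h M k`, `L = 2 B + 1`. First
`L ≥ 2^(kh/2) / (4 M)` (if `2^(kh/2) / M ≥ 4` because `L ≥ 2 (√(2^(kh)) - 1) / M - 1`, otherwise because `L ≥ 1`).
`∑_b K(b) Γ(b) / L = ∑_{n ≤ Q} ∑_{x₁ x₂ = n} μ(x₁) x₂ (1/L) ∑_b [x₂ ∣ b] Γ(b)`. The function `[d ∣ b] Γ(b)`
(`d = x₂ ≤ Q`) is periodic modulo `D = d q`; its mean over `L` consecutive integers differs from its mean over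
the classes modulo `D` by at most `2 D / L` (full periods; fewer than `D` terms remain, so the error is at most
`D / L + D / L`). By `DF.S_CRT` (`r = 1`, `t = 0`; functions on `Fin 1 → ZMod q`) the mean over the classes is
`(d q)⁻¹ gcd(d, q) ∑_{α mod q, α ≡ 0 mod gcd(d, q)} Γ(α) = d⁻¹ H(gcd(d, q))`,
`H g = (g / q) ∑_{α ≡ 0 mod g} Γ(α)` for `g ∣ q`, `0` otherwise; `H q = Γ(0)`, `|H g| ≤ 1`. By `DF.S_MOB` the main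
term is `Γ(0)` if `q ≤ Q` and at most `d(q)^2` always. The error is at most
`∑_{n ≤ Q} ∑_{d ∣ n} d 2 d q / L ≤ ∑_{d ≤ Q} (Q / d) 2 d^2 q / L ≤ 2 q Q^3 / L ≤ 8 M q 2^(3k/4 - kh/2)`
(`Q ≤ 2^(k/4)`), and `h ≥ 3`: for `q ≤ Q` it is `≤ 8 M 2^(k - 3k/2)`, for `q ≤ 2^(k/2)` it is `≤ 8 M`. -/
def S_DEL : Prop := ∀ h M : ℕ, 3 ≤ h → 1 ≤ M → ∃ C' : ℝ, ∀ (k q : ℕ) [NeZero q] (Γ : ZMod q → ℂ),
  (q : ℝ) ≤ e2 (k / 2) → (∀ γ, ‖Γ γ‖ ≤ 1) →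
  (q ≤ Q k → ‖(∑ b ∈ Icc (-(B h M k : ℤ)) (B h M k), (Kz k b : ℂ) * Γ (b : ZMod q)) /
      (2 * B h M k + 1) - Γ 0‖ ≤ C' * e2 (-(k / 2))) ∧
  ‖(∑ b ∈ Icc (-(B h M k : ℤ)) (B h M k), (Kz k b : ℂ) * Γ (b : ZMod q)) / (2 * B h M k + 1)‖ ≤
      (q.divisors.card : ℝ) ^ 2 + C'

/-- `L = 2 B + 1 ≥ 2^(kh/2) / (4 M)`, and `M B ≤ √(2^(kh))`. -/
def S_B : Prop := ∀ h M k : ℕ, 1 ≤ M → e2 (k * h / 2) ≤ 4 * M * (2 * (B h M k : ℝ) + 1) ∧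
  M * B h M k ≤ Nat.sqrt (2 ^ (k * h))

/-- THE BIAS. First `|L_k| ≤ C' 2^(-k/2)` (`S_DEL` with `q = 1`, `Γ = 1`; `1 ≤ Q k`). Then
`∑ κ Γ = Γ(0) - ∑ K Γ / L + L_k ∑ Γ / L` and `S_DEL`; `d(q)^2 ≤ C 2^(ε k)` for `q ≤ 2^(k/2)` by `DF.S_TAU`. (For
the functions `Γ` with `‖Γ‖ ≤ S` by scaling; `S = 0` is trivial.) -/
def S_BIAS : Prop := ∀ h M : ℕ, 3 ≤ h → 1 ≤ M → ∀ ε : ℝ, 0 < ε → ∃ C' : ℝ, 0 ≤ C' ∧
  (∀ k, |Lz h M k| ≤ C') ∧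
  ∀ (k q : ℕ) [NeZero q] (Γ : ZMod q → ℂ) (S : ℝ), (q : ℝ) ≤ e2 (k / 2) → (∀ γ, ‖Γ γ‖ ≤ S) →
  (q ≤ Q k → ‖∑ b ∈ Icc (-(B h M k : ℤ)) (B h M k), (kap h M k b : ℂ) * Γ (b : ZMod q)‖ ≤
      C' * S * e2 (-(k / 2))) ∧
  ‖∑ b ∈ Icc (-(B h M k : ℤ)) (B h M k), (kap h M k b : ℂ) * Γ (b : ZMod q)‖ ≤ C' * S * e2 (ε * k)

/-- The masses. -/
structure IsM (h M : ℕ) (τ : ℕ → ℤ) (δ : ℝ) (f : ℕ → ℕ) (m : ℕ → ℝ) (k₀ : ℕ) (C' : ℝ) : Prop where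
  nonneg : ∀ k, 0 ≤ m k
  le : ∀ k, k₀ ≤ k → m k ≤ C' * e2 (-(k * (1 / 4 + δ / 2)))
  diag : ∀ k, k₀ ≤ k → 0 ≤ kap h M k 0
  eq : ∀ k, k₀ ≤ k → ((Z M τ k).card : ℝ) * (m k * kap h M k 0) = f k

/-- CHOICE OF THE MASSES. `κ(0) = 1 - (K(0) - L_k) / (2 B + 1)` with `|K(0)| ≤ Q^2 ≤ 2^(k/2)` (`DF.S_K` (1),
`r = 1`), `|L_k| ≤ C'`, `2 B + 1 ≥ 2^(3k/2) / (4 M)`, so `κ(0) ≥ 1/2` for large `k`. `m k = f k / (#Z κ(0))`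
for large `k`, `0` otherwise. With `#Z ≥ c 2^(k (1 - δ/2))` (`Many` with `η = δ/2`):
`m k ≤ (2/c) 2^(k (3/4 - δ)) 2^(-k (1 - δ/2)) = (2/c) 2^(-k (1/4 + δ/2))`. -/
def S_M : Prop := ∀ (h M : ℕ) (τ : ℕ → ℤ) (δ : ℝ) (f : ℕ → ℕ), 3 ≤ h → 1 ≤ M → 0 < δ → Many M τ →
  (∀ k, (f k : ℝ) ≤ e2 (k * (3 / 4 - δ))) →
  ∃ (m : ℕ → ℝ) (k₀ : ℕ) (C' : ℝ), IsM h M τ δ f m k₀ C'

/-- POSITIVITY. Let `p ∈ blk k`, `k ≥ k₁`, `M ∣ τ p`, `M ∣ b`, `b = M b'`. If `|b'| > B` then `κ(b') = 0`. If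
`b' = 0` then `m κ(0) ≥ 0`. Otherwise `b ^ 2 ≤ 2^(kh) ≤ p^h` and `M ∣ b - τ p`, so
`μ ≥ c_ε p^(-ε - h/2) ≥ c_ε 2^(-(k+1)(ε + h/2))`, and `κ(b') ≥ - (|K(b')| + |L_k|) / (2 B + 1) ≥
- (Q d(b') + C') 4 M 2^(-kh/2)` (`DF.S_K` (2), `S_B`), `d(b') ≤ C_ε 2^(ε k)` (`DF.S_TAU`, `|b'| ≤ 2^(kh/2)`; use
`ε / (h + 1)` there), so `m κ(b') ≥ - C'' 2^(-k (1/4 + δ/2)) 2^(k/4 + ε k) 2^(-kh/2)`; take `ε = δ/8` and `k` large. -/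
def S_POS : Prop := ∀ (h M : ℕ) (τ : ℕ → ℤ) (μ : ℕ → ℤ → ℝ) (δ : ℝ) (f : ℕ → ℕ) (m : ℕ → ℝ)
  (k₀ : ℕ) (C' : ℝ), 3 ≤ h → 1 ≤ M → 0 < δ → IsRef h M τ μ → IsM h M τ δ f m k₀ C' →
  ∃ k₁ : ℕ, k₀ ≤ k₁ ∧ ∀ p : ℕ, p.Prime → ∀ b, 0 ≤ nu h M τ μ m k₁ p b

/-- TOTAL MASS and support. `∑ κ = 0` over `[-B, B]` (by definition of `L_k`), and for `p ∈ blk k` the `M b'`,
`|b'| ≤ B`, are in `ival h p` (`S_B`); the other multiples of `M` have `κ = 0`. -/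
def S_TOT : Prop := ∀ (h M : ℕ) (τ : ℕ → ℤ) (μ : ℕ → ℤ → ℝ) (m : ℕ → ℝ) (k₁ : ℕ), 1 ≤ M →
  IsRef h M τ μ →
  (∀ p : ℕ, p.Prime → ∑ b ∈ ival h p, nu h M τ μ m k₁ p b = 1) ∧
  ∀ p : ℕ, p.Prime → ∀ b, ¬ (M : ℤ) ∣ b - τ p → nu h M τ μ m k₁ p b = 0

/-- THE NUMBERS of zeros. `∑_{p ∈ blk k} ν p 0 = ∑_{p ∈ blk k} μ p 0 + #Z m κ(0)`, and `μ p 0 ≤ C p^(1/2 - h/2)`
`≤ C p^(-1)`. -/
def S_CNT : Prop := ∀ (h M : ℕ) (τ : ℕ → ℤ) (μ : ℕ → ℤ → ℝ) (δ : ℝ) (f : ℕ → ℕ) (m : ℕ → ℝ)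
  (k₀ : ℕ) (C' : ℝ), 3 ≤ h → 1 ≤ M → IsRef h M τ μ → IsM h M τ δ f m k₀ C' → ∀ k₁, k₀ ≤ k₁ →
    ∃ C'' : ℝ, ∀ k, k₁ ≤ k → |∑ p ∈ blk k, nu h M τ μ m k₁ p 0 - f k| ≤ C''

/-- SELECTION. For laws `ν p` on the `b ∈ ival h p` with `b ≡ τ p (mod M)` there is a system with square root
fluctuations, uniformly in `q`, and in the numbers of zeros.

Proof. `DF.S_ENG` with `J = (ℕ × ℕ) ⊕ ((ℕ × ℕ) ⊕ ℕ)`: `(i, s)` for the `F` modulo `q = s + 1`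
(`I = ZMod (s + 1) × ZMod (s + 1)`), `(i, s)` for the `G` modulo `q = s + 1` (`I = ZMod (s + 1)`), and `k` for the
zeros in the block `k` (`I = Unit`); outcomes `Ω n = {b // b ∈ ival h n ∧ M ∣ b - τ n}` with the weights `ν n` for
primes `n`, `{0}` otherwise. Tests: `c i n [n = u] ([b = α] - ∑_{b'} ν n b' [b' = α])`;
`c i n [n coprime to q] ([b^2 / n^h = s] - ∑_{b'} ν n b' [b'^2 / n^h = s])`; `[n ∈ blk k] ([b = 0] - ν n 0)` (all `0` if `n` is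
not prime). Means are `0`, the sums over `I` of the second moments at most `1` (variance at most second
moment), the sums over `I` of the squares at most `4` always. Weights `2^(-i) / (s + 1)^2` and `1 / (k + 1)^2`. See
the proof of the analogous `DF.S_SEL` in `Pool/Agent/H414/DF/Sel.lean` (team-store file
helper414_DF_Sel.lean); Cauchy-Schwarz gives the bounds for `F` and `G`. -/
def S_SEL : Prop := ∀ (h M : ℕ) (τ : ℕ → ℤ) (ν : ℕ → ℤ → ℝ) (c : ℕ → ℕ → ℂ),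
  (∀ p : ℕ, p.Prime → ∀ b, 0 ≤ ν p b) → (∀ p : ℕ, p.Prime → ∑ b ∈ ival h p, ν p b = 1) →
  (∀ p : ℕ, p.Prime → ∀ b, ¬ (M : ℤ) ∣ b - τ p → ν p b = 0) → (∀ i p, ‖c i p‖ ≤ 1) →
  ∃ a : ℕ → ℤ, IsSystem h a ∧ (∀ p : ℕ, p.Prime → (M : ℤ) ∣ a p - τ p) ∧
    (∀ i : ℕ, ∃ C : ℝ, ∀ (q : ℕ) [NeZero q] (F : ZMod q × ZMod q → ℂ) (x : ℕ),
      ‖∑ p ∈ primesUpTo x, c i p * (F (p, a p) - ∑ b ∈ ival h p, (ν p b : ℂ) * F (p, b))‖ ≤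
        C * q * l2 F * √((x : ℝ) + 1)) ∧
    (∀ i : ℕ, ∃ C : ℝ, ∀ (q : ℕ) [NeZero q] (G : ZMod q → ℂ) (x : ℕ),
      ‖∑ p ∈ primesUpTo x, c i p * (proj h G p (a p) -
        ∑ b ∈ ival h p, (ν p b : ℂ) * proj h G p b)‖ ≤ C * q * l2 G * √((x : ℝ) + 1)) ∧
    ∃ C : ℝ, ∀ k : ℕ, |(((blk k).filter fun p => a p = 0).card : ℝ) - ∑ p ∈ blk k, ν p 0| ≤
      C * (k + 1) * e2 (k / 2)

/-- FROM `ν` TO `μ` in one block. Let `ν = nu h M τ μ m k₁`, `k ≥ k₁`, and for every `p` let `Γ p` be a function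
modulo `q` bounded by `S`. Then `∑_{p ∈ blk k} ‖∑_b (ν p b - μ p b) Γ_p(b)‖ ≤ C'' q S 2^(k (1/2 + ε))`.

Proof. If `q ≤ 2^(k/2)`: the inner sum is `0` or `m k ∑_{|b'| ≤ B} κ(b') Γ_p(M b')`, and `γ ↦ Γ_p(M γ)` is a
function modulo `q` bounded by `S`. If `q ≤ Q`: by `S_BIAS` the sum over the block is at most
`2^k m k C' S 2^(-k/2) ≤ C C' S 2^(k/2)` (`#(blk k) ≤ 2^k`, `m k ≤ C`). If `q > Q`, so `q ≥ 2^(k/4)`: it is at most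
`2^k C 2^(-k/4) C' S 2^(ε k) = C C' S 2^(3k/4 + ε k) ≤ C C' S q 2^(k/2 + ε k)`.
If `q > 2^(k/2)`: the inner sum is at most `2 S` (`ν` and `μ` are probabilities), the sum over the block at most
`2 2^k S ≤ 2 q 2^(k/2) S`. -/
def S_BLK : Prop := ∀ (h M : ℕ) (τ : ℕ → ℤ) (μ : ℕ → ℤ → ℝ) (δ : ℝ) (f : ℕ → ℕ) (m : ℕ → ℝ)
  (k₀ : ℕ) (C' : ℝ) (k₁ : ℕ), 3 ≤ h → 1 ≤ M → 0 < δ → IsRef h M τ μ → IsM h M τ δ f m k₀ C' →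
  k₀ ≤ k₁ →
  (∀ p : ℕ, p.Prime → ∀ b, 0 ≤ nu h M τ μ m k₁ p b) →
  (∀ p : ℕ, p.Prime → ∑ b ∈ ival h p, nu h M τ μ m k₁ p b = 1) →
  ∀ ε : ℝ, 0 < ε → ∃ C'' : ℝ, 0 ≤ C'' ∧ ∀ (q : ℕ) [NeZero q] (Γ : ℕ → ZMod q → ℂ) (S : ℝ),
    (∀ p γ, ‖Γ p γ‖ ≤ S) → ∀ k, k₁ ≤ k →
    ∑ p ∈ blk k, ‖∑ b ∈ ival h p, ((nu h M τ μ m k₁ p b - μ p b : ℝ) : ℂ) * Γ p (b : ZMod q)‖ ≤
      C'' * q * S * e2 (k * (1 / 2 + ε))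

/-- SUMMATION OVER THE BLOCKS. The primes with `kk p < k₁` contribute `0` (`nu = μ`), every other prime
`p ≤ x` is in a block `k ≥ k₁` with `2^k ≤ x`; the triangle inequality and a geometric series. -/
def S_SUM : Prop := ∀ (h M : ℕ) (τ : ℕ → ℤ) (μ : ℕ → ℤ → ℝ) (m : ℕ → ℝ) (k₁ : ℕ),
  (∀ ε : ℝ, 0 < ε → ∃ C'' : ℝ, 0 ≤ C'' ∧ ∀ (q : ℕ) [NeZero q] (Γ : ℕ → ZMod q → ℂ) (S : ℝ),
    (∀ p γ, ‖Γ p γ‖ ≤ S) → ∀ k, k₁ ≤ k →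
    ∑ p ∈ blk k, ‖∑ b ∈ ival h p, ((nu h M τ μ m k₁ p b - μ p b : ℝ) : ℂ) * Γ p (b : ZMod q)‖ ≤
      C'' * q * S * e2 (k * (1 / 2 + ε))) →
  ∀ ε : ℝ, 0 < ε → ∃ C'' : ℝ, 0 ≤ C'' ∧ ∀ (c : ℕ → ℂ), (∀ p, ‖c p‖ ≤ 1) → ∀ (q : ℕ) [NeZero q]
    (Γ : ℕ → ZMod q → ℂ) (S : ℝ), (∀ p γ, ‖Γ p γ‖ ≤ S) → ∀ x : ℕ,
    ‖∑ p ∈ primesUpTo x, c p * ∑ b ∈ ival h p,
      ((nu h M τ μ m k₁ p b - μ p b : ℝ) : ℂ) * Γ p (b : ZMod q)‖ ≤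
      C'' * q * S * ((x : ℝ) + 1) ^ (1 / 2 + ε)

/-- MODIFICATION. `k₁` large. In the block `k ≥ k₁` apply `DF.S_ASG` with `A = Z M τ k`, `T = {0}`, `u = M`,
`n = |N - f k|`, `N` the number of the zeros of `a` in the block (they are all in `Z M τ k`, as
`M ∣ a p - τ p`); `n ≤ C 2^(k (1/2 + ε))`, so `f k + 2 n ≤ #Z` for large `k` (`Many`). In the other blocks and
outside `Z M τ k` nothing is changed. New values are `0` or `M` (`M^2 ≤ 4 * 2^(kh)` for large `k`), so `a'` is a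
system and `M ∣ a' p - τ p`. The bounds: the difference of the two sums is at most `∑_{p ≤ x, changed} 2 sup |F|`,
`sup |F| ≤ l2 F`, and the number of the changed primes `≤ x` is at most
`∑_{k : 2^k ≤ x} n_k ≤ C (x + 1)^(1/2 + ε)`. (The same for `proj h G`.) -/
def S_MODIF : Prop := ∀ (h M : ℕ) (τ : ℕ → ℤ) (μ : ℕ → ℤ → ℝ) (c : ℕ → ℕ → ℂ) (δ : ℝ) (f : ℕ → ℕ)
  (a : ℕ → ℤ) (k₀ : ℕ), 3 ≤ h → 1 ≤ M → 0 < δ → Many M τ → (∀ i p, ‖c i p‖ ≤ 1) →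
  (∀ k, (f k : ℝ) ≤ e2 (k * (3 / 4 - δ))) →
  IsSystem h a → (∀ p : ℕ, p.Prime → (M : ℤ) ∣ a p - τ p) → HasBound h μ c a →
  HasBoundP h μ c a →
  (∀ ε : ℝ, 0 < ε → ∃ C : ℝ, ∀ k, k₀ ≤ k →
    |(((blk k).filter fun p => a p = 0).card : ℝ) - f k| ≤ C * e2 (k * (1 / 2 + ε))) →
  ∃ a' : ℕ → ℤ, IsSystem h a' ∧ (∀ p : ℕ, p.Prime → (M : ℤ) ∣ a' p - τ p) ∧ HasBound h μ c a' ∧
    HasBoundP h μ c a' ∧
    ∃ k₁ : ℕ, ∀ k, k₁ ≤ k → ((blk k).filter fun p => a' p = 0).card = f k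

/-- UPPER BOUND. Let `x = 2 ^ (k + 1)`, `q` a prime with `2^(k/4) ≤ q ≤ 4 2^(k/4)`
(`Nat.exists_prime_lt_and_le_two_mul`), `G s = 1` if `s = 0`, `0` otherwise; `l2 G = 1`; `i = 0`, `c 0 = 1`. The number
of the zeros `p ∈ blk k`, `p ≠ q`, is at most `Re ∑_{p ≤ x} proj h G p (a p)`, so at most
`C q (x + 1)^(1/2 + ε) + ∑_{p ≤ x, p ≠ q} μ p {b ∈ ival h p : q ∣ b}` (`p ^ h` is invertible modulo `q`, and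
`b ^ 2 / p ^ h = 0` modulo the prime `q` iff `q ∣ b`). For `p ≤ q ^ 2` the mass is at most `1`, together `q^2`; for
`p > q ^ 2` there are at most `4 p^(h/2) / q + 1 ≤ 5 p^(h/2) / q` such `b` (`h ≥ 1`, `q ≤ √p ≤ p^(h/2)`), so the mass is at
most `5 C' p^ε / q`; together `≤ 5 C' (x + 1)^(1 + ε) / q`. All terms are at most `C'' 2^(k (3/4 + ε))`, up to a
factor `2^(O(1))` (`q^2 ≤ 16 2^(k/2)`). -/
def S_UP : Prop := ∀ (h M : ℕ) (τ : ℕ → ℤ) (μ : ℕ → ℤ → ℝ), 1 ≤ h → IsRef h M τ μ →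
  ∀ a : ℕ → ℤ, IsSystem h a → HasBoundP h μ (fun _ _ => 1) a →
  ∀ ε : ℝ, 0 < ε → ∃ C : ℝ, ∀ k : ℕ,
    (((blk k).filter fun p => a p = 0).card : ℝ) ≤ C * e2 (k * (3 / 4 + ε))

/-- The uniform laws are reference laws. (The number `N` of the `b ∈ ival h p` with `M ∣ b - τ p` is at least `1`
(`b = τ p`) and at least `(2 ⌊√(4 p^h)⌋ + 1) / M - 1 ≥ 2 p^(h/2) / M - 1`, so `N ≥ p^(h/2) / (2 M)`; and
`N ≤ 4 p^(h/2) + 1 ≤ 5 p^(h/2)`.) -/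
def S_UNI : Prop := ∀ (h M : ℕ) (τ : ℕ → ℤ), 1 ≤ M → IsSystem h τ → IsRef h M τ fun p b =>
  if b ∈ (ival h p).filter (fun b => (M : ℤ) ∣ b - τ p) then
    1 / (((ival h p).filter (fun b => (M : ℤ) ∣ b - τ p)).card : ℝ) else 0

/-- HECKE SYSTEMS are given by their values at the primes: `A n = ∏_{p ∣ n} U (a p) (v_p n)`, where
`U 0 = 1`, `U 1 = a p`, `U (k + 2) = a p U (k + 1) - p^h U k` (`Nat.factorization`, `Finsupp.prod`,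
`Nat.factorization_mul_of_coprime`; put `A 0 = 0`); and the values of two Hecke systems are congruent
modulo `M` at all `n ≥ 1` if they are at the primes (induction on the factorisation,
`Nat.recOnPosPrimePosCoprime` or `Nat.recOnPrimeCoprime`, and induction on `k` for the prime powers). -/
def S_HEC : Prop := (∀ (h : ℕ) (a : ℕ → ℤ), ∃ A : ℕ → ℤ, IsHecke h A ∧ ∀ p : ℕ, p.Prime → A p = a p) ∧
  ∀ (h M : ℕ) (A τ : ℕ → ℤ), IsHecke h A → IsHecke h τ →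
    (∀ p : ℕ, p.Prime → (M : ℤ) ∣ A p - τ p) → ∀ n : ℕ, 0 < n → (M : ℤ) ∣ A n - τ n

end Pool.Agent.H414.LH
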