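import Pool.Agent.H414.LH.Spec

set_option autoImplicit false

namespace Pool.Agent.H414.LH

open Finset
open Pool.Agent.H414.LT (primesUpTo blk kk)
open Pool.Agent.H414.DF (l2 e2)

namespace Tot

theorem card_Icc_B (B : ℕ) : ((Icc (-(B : ℤ)) (B : ℤ)).card : ℝ) = 2 * B + 1 := by
  rw [Int.card_Icc]
  have h1 : ((B : ℤ) + 1 - -(B : ℤ)).toNat = 2 * B + 1 := by omega
  rw [h1]
  push_cast
  ring

/-- the total mass of `κ` is zero -/
theorem sum_kap (h M k : ℕ) :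
    ∑ b ∈ Icc (-(B h M k : ℤ)) (B h M k), kap h M k b = 0 := by
  have h0 : (0 : ℤ) ∈ Icc (-(B h M k : ℤ)) (B h M k : ℤ) := by
    rw [mem_Icc]
    constructor <;> simp
  have hpos : (0 : ℝ) < 2 * (B h M k : ℝ) + 1 := by positivity
  have h1 : ∀ b ∈ Icc (-(B h M k : ℤ)) (B h M k : ℤ), kap h M k b =
      (if b = 0 then 1 else 0) - (Kz k b - Lz h M k) / (2 * B h M k + 1) := by
    intro b hb
    unfold kap
    rw [if_pos hb]
  rw [sum_congr rfl h1, sum_sub_distrib, sum_ite_eq' (Icc (-(B h M k : ℤ)) (B h M k : ℤ)) 0,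
    if_pos h0, ← sum_div, sum_sub_distrib, sum_const, nsmul_eq_mul, card_Icc_B]
  have h2 : Lz h M k = (∑ b ∈ Icc (-(B h M k : ℤ)) (B h M k), Kz k b) / (2 * B h M k + 1) - 1 :=
    rfl
  rw [h2]
  field_simp
  ring

theorem kap_off (h M k : ℕ) (b : ℤ) (hb : b ∉ Icc (-(B h M k : ℤ)) (B h M k : ℤ)) :
    kap h M k b = 0 := by
  unfold kap
  rw [if_neg hb, if_neg, sub_zero]
  rintro rfl
  apply hb
  rw [mem_Icc]
  constructor <;> simp

end Tot

theorem tot (hB : S_B) : S_TOT := by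
  intro h M τ μ m k₁ hM hμ
  have hM0 : (M : ℤ) ≠ 0 := by
    have : M ≠ 0 := by omega
    exact_mod_cast this
  constructor
  · intro p hp
    unfold nu
    rw [sum_add_distrib, hμ.sum p hp]
    suffices hs : ∑ b ∈ ival h p, (if k₁ ≤ kk p ∧ (M : ℤ) ∣ τ p ∧ (M : ℤ) ∣ b then
        m (kk p) * kap h M (kk p) (b / M) else 0) = 0 by
      rw [hs, add_zero]
    by_cases hc : k₁ ≤ kk p ∧ (M : ℤ) ∣ τ p
    · have hsub : (Icc (-(B h M (kk p) : ℤ)) (B h M (kk p) : ℤ)).image (fun b => (M : ℤ) * b) ⊆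
          ival h p := by
        intro b hb
        obtain ⟨b', hb', rfl⟩ := mem_image.1 hb
        rw [mem_Icc] at hb'
        have h1 := (hB h M (kk p) hM).2
        have h2 : Nat.sqrt (2 ^ (kk p * h)) ≤ Nat.sqrt (4 * p ^ h) := by
          apply Nat.sqrt_le_sqrt
          have h3 : 2 ^ kk p ≤ p := (Pool.Agent.H414.LT.two_le_kk hp.two_le).1.le
          calc 2 ^ (kk p * h) = (2 ^ kk p) ^ h := by rw [pow_mul]
            _ ≤ p ^ h := Nat.pow_le_pow_left h3 h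
            _ ≤ 4 * p ^ h := by omega
        have h4 : (M : ℤ) * B h M (kk p) ≤ Nat.sqrt (4 * p ^ h) := by
          exact_mod_cast h1.trans h2
        have hM1 : (0 : ℤ) ≤ M := by positivity
        unfold ival
        rw [mem_Icc]
        constructor
        · have h5 : (M : ℤ) * (-(B h M (kk p) : ℤ)) ≤ M * b' := mul_le_mul_of_nonneg_left hb'.1 hM1
          linarith
        · have h5 : (M : ℤ) * b' ≤ M * (B h M (kk p) : ℤ) := mul_le_mul_of_nonneg_left hb'.2 hM1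
          linarith
      rw [← sum_subset hsub]
      · rw [sum_image (fun a _ b _ hab => mul_left_cancel₀ hM0 hab)]
        have h5 : ∀ b ∈ Icc (-(B h M (kk p) : ℤ)) (B h M (kk p) : ℤ),
            (if k₁ ≤ kk p ∧ (M : ℤ) ∣ τ p ∧ (M : ℤ) ∣ (M : ℤ) * b then
              m (kk p) * kap h M (kk p) ((M : ℤ) * b / M) else 0) =
            m (kk p) * kap h M (kk p) b := by
          intro b _
          rw [if_pos ⟨hc.1, hc.2, dvd_mul_right _ _⟩, Int.mul_ediv_cancel_left _ hM0]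
        rw [sum_congr rfl h5, ← mul_sum, Tot.sum_kap, mul_zero]
      · intro b _ hb
        by_cases hd : (M : ℤ) ∣ b
        · obtain ⟨b', rfl⟩ := hd
          rw [if_pos ⟨hc.1, hc.2, dvd_mul_right _ _⟩, Int.mul_ediv_cancel_left _ hM0,
            Tot.kap_off, mul_zero]
          intro hb'
          exact hb (mem_image.2 ⟨b', hb', rfl⟩)
        · rw [if_neg]
          rintro ⟨_, _, h6⟩
          exact hd h6
    · apply sum_eq_zero
      intro b _
      rw [if_neg]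
      rintro ⟨h1, h2, _⟩
      exact hc ⟨h1, h2⟩
  · intro p hp b hb
    unfold nu
    rw [hμ.supp p hp b hb, if_neg, add_zero]
    rintro ⟨_, h1, h2⟩
    exact hb (dvd_sub h2 h1)

theorem cnt : S_CNT := by
  intro h M τ μ δ f m k₀ C' hh hM hμ hm k₁ hk₁
  obtain ⟨C, hC⟩ := hμ.upper (1 / 2) (by norm_num)
  refine ⟨|C|, fun k hk => ?_⟩
  have e1 : ∑ p ∈ blk k, nu h M τ μ m k₁ p 0 = ∑ p ∈ blk k, μ p 0 + f k := by
    unfold nu
    rw [sum_add_distrib]
    congr 1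
    rw [← hm.eq k (hk₁.trans hk)]
    unfold Z
    have h1 : ∀ p ∈ blk k, (if k₁ ≤ kk p ∧ (M : ℤ) ∣ τ p ∧ (M : ℤ) ∣ (0 : ℤ) then
        m (kk p) * kap h M (kk p) (0 / M) else 0) =
        if (M : ℤ) ∣ τ p then m k * kap h M k 0 else 0 := by
      intro p hp
      obtain ⟨_, h2⟩ := Pool.Agent.H414.LT.mem_blk.1 hp
      rw [h2]
      by_cases h3 : (M : ℤ) ∣ τ p
      · rw [if_pos h3, if_pos ⟨hk, h3, dvd_zero _⟩, Int.zero_ediv]
      · rw [if_neg h3, if_neg]
        rintro ⟨_, h4, _⟩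
        exact h3 h4
    rw [sum_congr rfl h1, ← sum_filter, sum_const, nsmul_eq_mul]
  rw [e1, add_sub_cancel_right]
  have h0 : 0 ≤ ∑ p ∈ blk k, μ p 0 :=
    sum_nonneg fun p hp => hμ.nonneg p (Pool.Agent.H414.LT.mem_blk.1 hp).1 0
  rw [abs_of_nonneg h0]
  have h2k : (0 : ℝ) < 2 ^ k := by positivity
  have h1 : ∀ p ∈ blk k, μ p 0 ≤ |C| * (1 / 2 ^ k) := by
    intro p hp
    have hpp := (Pool.Agent.H414.LT.mem_blk.1 hp).1
    have hp1 : (1 : ℝ) ≤ p := by exact_mod_cast hpp.one_lt.le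
    have hp0 : (0 : ℝ) < p := by linarith
    have hpk : (2 : ℝ) ^ k ≤ p := by
      have h3 := (Pool.Agent.H414.LT.two_le_kk hpp.two_le).1
      rw [(Pool.Agent.H414.LT.mem_blk.1 hp).2] at h3
      exact_mod_cast h3.le
    have h4 : (p : ℝ) ^ ((1 : ℝ) / 2 - h / 2) ≤ 1 / 2 ^ k := by
      have hh' : (3 : ℝ) ≤ h := by exact_mod_cast hh
      calc (p : ℝ) ^ ((1 : ℝ) / 2 - h / 2) ≤ (p : ℝ) ^ (-1 : ℝ) := by
            apply Real.rpow_le_rpow_of_exponent_le hp1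
            linarith
        _ = 1 / p := by rw [Real.rpow_neg_one, one_div]
        _ ≤ 1 / 2 ^ k := one_div_le_one_div_of_le h2k hpk
    calc μ p 0 ≤ C * (p : ℝ) ^ ((1 : ℝ) / 2 - h / 2) := hC p hpp 0
      _ ≤ |C| * (p : ℝ) ^ ((1 : ℝ) / 2 - h / 2) := by
        gcongr
        exact le_abs_self C
      _ ≤ |C| * (1 / 2 ^ k) := by gcongr
  have hcard : ((blk k).card : ℝ) ≤ 2 ^ k := by
    have h3 : (blk k).card ≤ 2 ^ k := by
      unfold blk
      refine (card_filter_le _ _).trans ?_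
      rw [Nat.card_Ioc, pow_succ]
      omega
    exact_mod_cast h3
  calc ∑ p ∈ blk k, μ p 0 ≤ ∑ p ∈ blk k, |C| * (1 / 2 ^ k) := sum_le_sum h1
    _ = (blk k).card * (|C| * (1 / 2 ^ k)) := by rw [sum_const, nsmul_eq_mul]
    _ ≤ 2 ^ k * (|C| * (1 / 2 ^ k)) := by gcongr
    _ = |C| := by field_simp

end Pool.Agent.H414.LH
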