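import Pool.Agent.H414.LH.Spec

/-!
The uniform laws on the integers `b` with `b ^ 2 ≤ 4 p ^ h` and `b ≡ τ p (mod M)` are reference laws.
-/

set_option autoImplicit false

namespace Pool.Agent.H414.LH

open Finset

namespace Uni

theorem mem_ival {h p : ℕ} {b : ℤ} (hb : b ^ 2 ≤ 4 * (p : ℤ) ^ h) : b ∈ ival h p := by
  unfold ival
  rw [Finset.mem_Icc]
  have h1 : b.natAbs ^ 2 ≤ 4 * p ^ h := by
    zify
    rw [sq_abs]
    exact hb
  have h2 : b.natAbs ≤ Nat.sqrt (4 * p ^ h) := Nat.le_sqrt'.2 h1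
  omega

theorem pow_half {h : ℕ} {x : ℝ} (hx : 0 ≤ x) : x ^ ((h : ℝ) / 2) = (√x) ^ h := by
  rw [Real.sqrt_eq_rpow, ← Real.rpow_natCast, ← Real.rpow_mul hx]
  congr 1
  ring

theorem sq_half {h : ℕ} {x : ℝ} (hx : 0 ≤ x) : (x ^ ((h : ℝ) / 2)) ^ 2 = x ^ h := by
  rw [pow_half hx, ← pow_mul, mul_comm, pow_mul, Real.sq_sqrt hx]

/-- the number of the integers in a class modulo `M` in an interval -/
theorem card_mod (M s : ℕ) (hM : 1 ≤ M) (t : ℤ) :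
    (2 * (s : ℝ) + 1) / M - 1 ≤
      (((Icc (-(s : ℤ)) s).filter (fun b => (M : ℤ) ∣ b - t)).card : ℝ) := by
  have hM0 : (0 : ℤ) < M := by exact_mod_cast hM
  have h1 := Int.Ico_filter_modEq_card (-(s : ℤ)) (s + 1) hM0 t
  have h2 : (Icc (-(s : ℤ)) s).filter (fun b => (M : ℤ) ∣ b - t) =
      (Ico (-(s : ℤ)) (s + 1)).filter (fun x => x ≡ t [ZMOD M]) := by
    ext b
    rw [Finset.mem_filter, Finset.mem_filter, Finset.mem_Icc, Finset.mem_Ico]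
    constructor
    · rintro ⟨h3, h4⟩
      refine ⟨by omega, ?_⟩
      exact (Int.modEq_iff_dvd.2 h4).symm
    · rintro ⟨h3, h4⟩
      refine ⟨by omega, ?_⟩
      exact Int.modEq_iff_dvd.1 h4.symm
  rw [h2]
  have h3 : (⌈(((s : ℤ) + 1 : ℤ) - t : ℚ) / ((M : ℤ) : ℚ)⌉ - ⌈((-(s : ℤ) : ℤ) - t : ℚ) / ((M : ℤ) : ℚ)⌉ : ℤ) ≤
      (((Ico (-(s : ℤ)) (s + 1)).filter (fun x => x ≡ t [ZMOD M])).card : ℤ) := by
    rw [h1]
    exact le_max_left _ _
  have h4 := Int.le_ceil ((((s : ℤ) + 1 : ℤ) - t : ℚ) / ((M : ℤ) : ℚ))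
  have h5 := (Int.ceil_lt_add_one (((-(s : ℤ) : ℤ) - t : ℚ) / ((M : ℤ) : ℚ))).le
  have h6 : (((⌈(((s : ℤ) + 1 : ℤ) - t : ℚ) / ((M : ℤ) : ℚ)⌉ -
      ⌈((-(s : ℤ) : ℤ) - t : ℚ) / ((M : ℤ) : ℚ)⌉ : ℤ)) : ℚ) ≤
      ((((Ico (-(s : ℤ)) (s + 1)).filter (fun x => x ≡ t [ZMOD M])).card : ℤ) : ℚ) := by
    exact_mod_cast h3
  have h7 : (2 * (s : ℚ) + 1) / M - 1 ≤
      (((Ico (-(s : ℤ)) (s + 1)).filter (fun x => x ≡ t [ZMOD M])).card : ℚ) := by
    push_cast at h4 h5 h6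
    have e : (2 * (s : ℚ) + 1) / M = ((s : ℚ) + 1 - t) / M - (-(s : ℚ) - t) / M := by ring
    rw [e]
    linarith
  have h8 := (Rat.cast_le (K := ℝ)).2 h7
  push_cast at h8
  exact h8

/-- bounds of `√(4 p ^ h)` -/
theorem sqrt_lt (h p : ℕ) :
    2 * (p : ℝ) ^ ((h : ℝ) / 2) < (Nat.sqrt (4 * p ^ h) : ℝ) + 1 := by
  have h1 : 4 * p ^ h < (Nat.sqrt (4 * p ^ h) + 1) * (Nat.sqrt (4 * p ^ h) + 1) :=
    Nat.lt_succ_sqrt _
  have h2 : (4 : ℝ) * (p : ℝ) ^ h < ((Nat.sqrt (4 * p ^ h) : ℝ) + 1) ^ 2 := by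
    rw [sq]
    exact_mod_cast h1
  have h3 := sq_half (h := h) (Nat.cast_nonneg p : (0 : ℝ) ≤ p)
  have h4 : (2 * (p : ℝ) ^ ((h : ℝ) / 2)) ^ 2 < ((Nat.sqrt (4 * p ^ h) : ℝ) + 1) ^ 2 := by
    rw [mul_pow, h3]
    linarith
  exact lt_of_pow_lt_pow_left₀ 2 (by positivity) h4

theorem sqrt_le (h p : ℕ) : (Nat.sqrt (4 * p ^ h) : ℝ) ≤ 2 * (p : ℝ) ^ ((h : ℝ) / 2) := by
  have h1 : Nat.sqrt (4 * p ^ h) * Nat.sqrt (4 * p ^ h) ≤ 4 * p ^ h := Nat.sqrt_le _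
  have h2 : (Nat.sqrt (4 * p ^ h) : ℝ) ^ 2 ≤ 4 * (p : ℝ) ^ h := by
    rw [sq]
    exact_mod_cast h1
  have h3 := sq_half (h := h) (Nat.cast_nonneg p : (0 : ℝ) ≤ p)
  have h4 : (Nat.sqrt (4 * p ^ h) : ℝ) ^ 2 ≤ (2 * (p : ℝ) ^ ((h : ℝ) / 2)) ^ 2 := by
    rw [mul_pow, h3]
    linarith
  exact le_of_sq_le_sq₀ h4 (by positivity)
where
  le_of_sq_le_sq₀ {x y : ℝ} (h : x ^ 2 ≤ y ^ 2) (hy : 0 ≤ y) : x ≤ y := by
    nlinarith [abs_le_of_sq_le_sq' h hy]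

end Uni

theorem uni : S_UNI := by
  intro h M τ hM hτ
  have hM0 : (0 : ℝ) < M := by exact_mod_cast hM
  have hP : ∀ p : ℕ, p.Prime → (1 : ℝ) ≤ (p : ℝ) ^ ((h : ℝ) / 2) := by
    intro p hp
    exact Real.one_le_rpow (by exact_mod_cast hp.one_le) (by positivity)
  -- the number of elements
  have hN1 : ∀ p : ℕ, p.Prime →
      (1 : ℝ) ≤ (((ival h p).filter (fun b => (M : ℤ) ∣ b - τ p)).card : ℝ) := by
    intro p hp
    have h1 : τ p ∈ (ival h p).filter (fun b => (M : ℤ) ∣ b - τ p) := by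
      rw [Finset.mem_filter]
      exact ⟨Uni.mem_ival (hτ p hp), by simp⟩
    exact_mod_cast Finset.card_pos.2 ⟨_, h1⟩
  have hlow : ∀ p : ℕ, p.Prime → (p : ℝ) ^ ((h : ℝ) / 2) ≤
      M * (((ival h p).filter (fun b => (M : ℤ) ∣ b - τ p)).card : ℝ) := by
    intro p hp
    have h1 := Uni.card_mod M (Nat.sqrt (4 * p ^ h)) hM (τ p)
    have h2 := Uni.sqrt_lt h p
    have h3 := hN1 p hp
    have h4 := hP p hp
    unfold ival at h3 ⊢
    rw [sub_le_iff_le_add, div_le_iff₀ hM0] at h1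
    nlinarith
  have hupp : ∀ p : ℕ, p.Prime →
      (((ival h p).filter (fun b => (M : ℤ) ∣ b - τ p)).card : ℝ) ≤
        5 * (p : ℝ) ^ ((h : ℝ) / 2) := by
    intro p hp
    have h1 : ((ival h p).filter (fun b => (M : ℤ) ∣ b - τ p)).card ≤
        2 * Nat.sqrt (4 * p ^ h) + 1 := by
      refine (Finset.card_filter_le _ _).trans ?_
      unfold ival
      rw [Int.card_Icc]
      omega
    have h2 : (((ival h p).filter (fun b => (M : ℤ) ∣ b - τ p)).card : ℝ) ≤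
        2 * (Nat.sqrt (4 * p ^ h) : ℝ) + 1 := by exact_mod_cast h1
    have h3 := Uni.sqrt_le h p
    have h4 := hP p hp
    linarith
  refine ⟨?_, ?_, ?_, ?_, ?_⟩
  · intro p hp b
    show (0 : ℝ) ≤ if b ∈ (ival h p).filter (fun b => (M : ℤ) ∣ b - τ p) then
      1 / (((ival h p).filter (fun b => (M : ℤ) ∣ b - τ p)).card : ℝ) else 0
    split_ifs
    · positivity
    · exact le_rfl
  · intro p hp
    show ∑ b ∈ ival h p, (if b ∈ (ival h p).filter (fun b => (M : ℤ) ∣ b - τ p) then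
      1 / (((ival h p).filter (fun b => (M : ℤ) ∣ b - τ p)).card : ℝ) else 0) = 1
    have h3 := hN1 p hp
    rw [← Finset.sum_filter, Finset.filter_mem_eq_inter,
      Finset.inter_eq_right.2 (Finset.filter_subset _ _), Finset.sum_const, nsmul_eq_mul,
      mul_one_div, div_self (by linarith)]
  · intro p hp b hb
    show (if b ∈ (ival h p).filter (fun b => (M : ℤ) ∣ b - τ p) then
      1 / (((ival h p).filter (fun b => (M : ℤ) ∣ b - τ p)).card : ℝ) else 0) = 0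
    rw [if_neg]
    intro hmem
    exact hb (Finset.mem_filter.1 hmem).2
  · intro ε hε
    refine ⟨M, fun p hp b => ?_⟩
    show (if b ∈ (ival h p).filter (fun b => (M : ℤ) ∣ b - τ p) then
      1 / (((ival h p).filter (fun b => (M : ℤ) ∣ b - τ p)).card : ℝ) else 0) ≤ _
    have hp1 : (1 : ℝ) ≤ p := by exact_mod_cast hp.one_le
    have hp0 : (0 : ℝ) < p := by linarith
    have h1 : (0 : ℝ) < (p : ℝ) ^ (ε - (h : ℝ) / 2) := Real.rpow_pos_of_pos hp0 _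
    split_ifs
    · have h3 := hN1 p hp
      have h4 := hlow p hp
      have h5 := hP p hp
      have h6 : 1 / (((ival h p).filter (fun b => (M : ℤ) ∣ b - τ p)).card : ℝ) ≤
          M * (p : ℝ) ^ (-((h : ℝ) / 2)) := by
        rw [Real.rpow_neg hp0.le, ← div_eq_mul_inv, div_le_div_iff₀ (by linarith) (by linarith)]
        linarith
      refine h6.trans ?_
      exact mul_le_mul_of_nonneg_left (Real.rpow_le_rpow_of_exponent_le hp1 (by linarith)) hM0.le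
    · positivity
  · intro ε hε
    refine ⟨1 / 5, by norm_num, fun p hp b hb hb2 => ?_⟩
    show _ ≤ (if b ∈ (ival h p).filter (fun b => (M : ℤ) ∣ b - τ p) then
      1 / (((ival h p).filter (fun b => (M : ℤ) ∣ b - τ p)).card : ℝ) else 0)
    have hp1 : (1 : ℝ) ≤ p := by exact_mod_cast hp.one_le
    have hp0 : (0 : ℝ) < p := by linarith
    have hmem : b ∈ (ival h p).filter (fun b => (M : ℤ) ∣ b - τ p) := by
      rw [Finset.mem_filter]
      refine ⟨Uni.mem_ival (hb2.trans ?_), hb⟩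
      have : (0 : ℤ) ≤ (p : ℤ) ^ h := by positivity
      linarith
    rw [if_pos hmem]
    have h3 := hN1 p hp
    have h4 := hupp p hp
    have h5 := hP p hp
    calc 1 / 5 * (p : ℝ) ^ (-ε - (h : ℝ) / 2) ≤ 1 / 5 * (p : ℝ) ^ (-((h : ℝ) / 2)) := by
          refine mul_le_mul_of_nonneg_left ?_ (by norm_num)
          exact Real.rpow_le_rpow_of_exponent_le hp1 (by linarith)
      _ = 1 / (5 * (p : ℝ) ^ ((h : ℝ) / 2)) := by
          rw [Real.rpow_neg hp0.le]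
          field_simp
      _ ≤ _ := one_div_le_one_div_of_le (by linarith) h4

end Pool.Agent.H414.LH
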