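import Pool.Agent.H414.LH.Spec

/-!
The upper bound (`S_UP`).
-/

set_option autoImplicit false

namespace Pool.Agent.H414.LH

open Finset
open Pool.Agent.H414.LT (primesUpTo blk)
open Pool.Agent.H414.DF (l2 e2)

namespace Upp

lemma e2_add (x y : ℝ) : e2 (x + y) = e2 x * e2 y := Real.rpow_add (by norm_num) x y

lemma e2_pos (x : ℝ) : 0 < e2 x := Real.rpow_pos_of_pos (by norm_num) x

lemma e2_mono {x y : ℝ} (h : x ≤ y) : e2 x ≤ e2 y :=
  Real.rpow_le_rpow_of_exponent_le (by norm_num) h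

lemma e2_nat (k : ℕ) : e2 k = 2 ^ k := Real.rpow_natCast 2 k

lemma e2_pow (x : ℝ) (n : ℕ) : e2 x ^ n = e2 (x * n) := by
  unfold e2
  rw [Real.rpow_mul (by norm_num), Real.rpow_natCast]

lemma e2_rpow (x y : ℝ) : e2 x ^ y = e2 (x * y) := by
  unfold e2
  rw [Real.rpow_mul (by norm_num)]

lemma one_le_e2 {x : ℝ} (h : 0 ≤ x) : 1 ≤ e2 x := by
  have := e2_mono h
  have h0 : e2 0 = 1 := Real.rpow_zero 2
  linarith

lemma cls_card (q N : ℕ) (hq : 0 < q) (t : ℤ) :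
    (((Icc (-(N : ℤ)) N).filter fun b : ℤ => (b : ZMod q) = (t : ZMod q)).card : ℝ) ≤
      (2 * N + 1) / q + 1 := by
  have h1 : (Icc (-(N : ℤ)) N).filter (fun b : ℤ => (b : ZMod q) = (t : ZMod q)) =
      (Ico (-(N : ℤ)) (N + 1)).filter (fun b => b ≡ t [ZMOD q]) := by
    ext b
    rw [mem_filter, mem_filter, mem_Icc, mem_Ico, ZMod.intCast_eq_intCast_iff,
      Int.lt_add_one_iff]
  rw [h1]
  have h2 := Int.Ico_filter_modEq_card (-(N : ℤ)) (N + 1) (r := q) (by exact_mod_cast hq) t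
  have hq' : (0 : ℚ) < (q : ℚ) := by exact_mod_cast hq
  have h3 : ((((Ico (-(N : ℤ)) (N + 1)).filter (fun b => b ≡ t [ZMOD q])).card : ℤ) : ℚ) ≤
      (2 * N + 1) / q + 1 := by
    rw [h2]
    have a3 : (0 : ℚ) ≤ (2 * N + 1) / q + 1 := by positivity
    have a1 := Int.ceil_lt_add_one ((((N + 1 : ℤ) : ℚ) - (t : ℚ)) / ((q : ℤ) : ℚ))
    have a2 := Int.le_ceil ((((-(N : ℤ) : ℤ) : ℚ) - (t : ℚ)) / ((q : ℤ) : ℚ))
    have a4 : (((N + 1 : ℤ) : ℚ) - (t : ℚ)) / ((q : ℤ) : ℚ) -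
        (((-(N : ℤ) : ℤ) : ℚ) - (t : ℚ)) / ((q : ℤ) : ℚ) = (2 * N + 1) / q := by
      push_cast
      rw [← sub_div]
      congr 1
      ring
    rw [Int.cast_max, max_le_iff]
    constructor
    · rw [Int.cast_sub]
      linarith
    · rw [Int.cast_zero]
      exact a3
  have h4 : ((((Ico (-(N : ℤ)) (N + 1)).filter (fun b => b ≡ t [ZMOD q])).card : ℕ) : ℚ) ≤
      (2 * N + 1) / q + 1 := by
    rw [Int.cast_natCast] at h3
    exact h3
  have h5 := (Rat.cast_le (K := ℝ)).mpr h4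
  rw [Rat.cast_natCast, Rat.cast_add, Rat.cast_div, Rat.cast_add, Rat.cast_mul, Rat.cast_natCast,
    Rat.cast_natCast, Rat.cast_one, Rat.cast_ofNat] at h5
  exact h5


/-- the indicator of the multiples of `q` (and `p` prime to `q`) -/
noncomputable def ind (q p : ℕ) (b : ℤ) : ℝ :=
  if p.Coprime q ∧ (b : ZMod q) = ((0 : ℤ) : ZMod q) then 1 else 0

lemma ind_nonneg (q p : ℕ) (b : ℤ) : 0 ≤ ind q p b := by
  unfold ind
  split_ifs
  · exact zero_le_one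
  · exact le_rfl

lemma ind_le (q p : ℕ) (b : ℤ) :
    ind q p b ≤ if (b : ZMod q) = ((0 : ℤ) : ZMod q) then 1 else 0 := by
  unfold ind
  by_cases h : (b : ZMod q) = ((0 : ℤ) : ZMod q)
  · rw [if_pos h]
    split_ifs
    · exact le_rfl
    · exact zero_le_one
  · rw [if_neg h, if_neg fun h' => h h'.2]

lemma proj_eq (h q : ℕ) (hq : q.Prime) (p : ℕ) (b : ℤ) :
    proj h (fun s : ZMod q => if s = 0 then (1 : ℂ) else 0) p b = ((ind q p b : ℝ) : ℂ) := by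
  have : Fact q.Prime := ⟨hq⟩
  unfold proj ind
  by_cases hc : p.Coprime q
  · have h1 : (p : ZMod q) ≠ 0 := by
      rw [Ne, ZMod.natCast_eq_zero_iff]
      intro h2
      exact hq.one_lt.ne' ((Nat.coprime_comm.1 hc).eq_one_of_dvd h2)
    have h2 : ((b : ZMod q) ^ 2 * ((p : ZMod q) ^ h)⁻¹ = 0) ↔ ((b : ZMod q) = ((0 : ℤ) : ZMod q)) := by
      rw [Int.cast_zero, mul_eq_zero]
      constructor
      · rintro (h3 | h3)
        · exact pow_eq_zero_iff (two_ne_zero) |>.1 h3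
        · exact absurd h3 (inv_ne_zero (pow_ne_zero _ h1))
      · intro h3
        left
        rw [h3]
        ring
    rw [if_pos hc]
    change (if (b : ZMod q) ^ 2 * ((p : ZMod q) ^ h)⁻¹ = 0 then (1 : ℂ) else 0) = _
    by_cases h3 : (b : ZMod q) = ((0 : ℤ) : ZMod q)
    · rw [if_pos (h2.2 h3), if_pos ⟨hc, h3⟩, Complex.ofReal_one]
    · rw [if_neg (fun h4 => h3 (h2.1 h4)), if_neg (fun h4 => h3 h4.2), Complex.ofReal_zero]
  · rw [if_neg hc, if_neg fun h' => hc h'.1, Complex.ofReal_zero]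


lemma real_part (h q : ℕ) (hq : q.Prime) (μ : ℕ → ℤ → ℝ) (a : ℕ → ℤ) (x : ℕ) :
    ∑ p ∈ primesUpTo x, ind q p (a p) -
      ∑ p ∈ primesUpTo x, ∑ b ∈ ival h p, μ p b * ind q p b ≤
    ‖∑ p ∈ primesUpTo x, (1 : ℂ) *
      (proj h (fun s : ZMod q => if s = 0 then (1 : ℂ) else 0) p (a p) -
      ∑ b ∈ ival h p, (μ p b : ℂ) *
        proj h (fun s : ZMod q => if s = 0 then (1 : ℂ) else 0) p b)‖ := by
  have h1 : ∑ p ∈ primesUpTo x, (1 : ℂ) *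
      (proj h (fun s : ZMod q => if s = 0 then (1 : ℂ) else 0) p (a p) -
      ∑ b ∈ ival h p, (μ p b : ℂ) *
        proj h (fun s : ZMod q => if s = 0 then (1 : ℂ) else 0) p b) =
      ((∑ p ∈ primesUpTo x, ind q p (a p) -
      ∑ p ∈ primesUpTo x, ∑ b ∈ ival h p, μ p b * ind q p b : ℝ) : ℂ) := by
    rw [← sum_sub_distrib, Complex.ofReal_sum]
    refine sum_congr rfl fun p _ => ?_
    rw [one_mul, Complex.ofReal_sub, Complex.ofReal_sum, proj_eq h q hq]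
    congr 1
    refine sum_congr rfl fun b _ => ?_
    rw [Complex.ofReal_mul, proj_eq h q hq]
  rw [h1, Complex.norm_real]
  exact le_abs_self _

lemma mass (h M : ℕ) (τ : ℕ → ℤ) (μ : ℕ → ℤ → ℝ) (hh : 1 ≤ h) (hμ : IsRef h M τ μ) (ε C : ℝ)
    (hε : 0 < ε) (hC : 0 ≤ C)
    (hup : ∀ p : ℕ, p.Prime → ∀ b, μ p b ≤ C * (p : ℝ) ^ (ε - h / 2))
    (q : ℕ) (hq : 0 < q) (p x : ℕ) (hp : p.Prime) (hpx : p ≤ x) :
    ∑ b ∈ ival h p, μ p b * ind q p b ≤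
      (if p ≤ q ^ 2 then 1 else 0) + C * 6 * (x : ℝ) ^ ε / (q : ℝ) := by
  have hq' : (0 : ℝ) < q := by exact_mod_cast hq
  have hD : 0 ≤ C * 6 * (x : ℝ) ^ ε / (q : ℝ) := by positivity
  by_cases h' : p ≤ q ^ 2
  · rw [if_pos h']
    have h1 : ∑ b ∈ ival h p, μ p b * ind q p b ≤ ∑ b ∈ ival h p, μ p b := by
      refine sum_le_sum fun b _ => ?_
      have := hμ.nonneg p hp b
      unfold ind
      split_ifs
      · rw [mul_one]
      · rw [mul_zero]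
        exact this
    rw [hμ.sum p hp] at h1
    linarith
  · rw [if_neg h', zero_add]
    push Not at h'
    have hp1 : (1 : ℝ) ≤ p := by exact_mod_cast hp.one_lt.le
    have hp0 : (0 : ℝ) < p := by linarith
    have hs2 : (q : ℝ) ≤ √((p : ℝ) ^ h) := by
      apply Real.le_sqrt_of_sq_le
      have e1 : (q : ℝ) ^ 2 ≤ p := by exact_mod_cast h'.le
      have e2 : (p : ℝ) ^ 1 ≤ (p : ℝ) ^ h := pow_le_pow_right₀ hp1 hh
      rw [pow_one] at e2
      linarith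
    have hs1 : 1 ≤ √((p : ℝ) ^ h) := by
      rw [Real.one_le_sqrt]
      exact one_le_pow₀ hp1
    have hs3 : ((Nat.sqrt (4 * p ^ h) : ℕ) : ℝ) ≤ 2 * √((p : ℝ) ^ h) := by
      have e1 := Real.nat_sqrt_le_real_sqrt (a := 4 * p ^ h)
      have e2 : √((4 * p ^ h : ℕ) : ℝ) = 2 * √((p : ℝ) ^ h) := by
        push_cast
        rw [Real.sqrt_mul (by norm_num)]
        have : √(4 : ℝ) = 2 := by
          rw [show (4 : ℝ) = 2 ^ 2 by norm_num]
          exact Real.sqrt_sq (by norm_num)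
        rw [this]
      linarith
    have h1 : ∑ b ∈ ival h p, μ p b * ind q p b ≤
        ∑ b ∈ (ival h p).filter (fun b : ℤ => (b : ZMod q) = ((0 : ℤ) : ZMod q)), μ p b := by
      rw [sum_filter]
      refine sum_le_sum fun b _ => ?_
      have e1 := hμ.nonneg p hp b
      have e2 := mul_le_mul_of_nonneg_left (ind_le q p b) e1
      refine e2.trans (le_of_eq ?_)
      split_ifs
      · rw [mul_one]
      · rw [mul_zero]
    have h2 : ∑ b ∈ (ival h p).filter (fun b : ℤ => (b : ZMod q) = ((0 : ℤ) : ZMod q)), μ p b ≤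
        (((ival h p).filter (fun b : ℤ => (b : ZMod q) = ((0 : ℤ) : ZMod q))).card : ℝ) *
          (C * (p : ℝ) ^ (ε - h / 2)) := by
      have := sum_le_card_nsmul
        ((ival h p).filter (fun b : ℤ => (b : ZMod q) = ((0 : ℤ) : ZMod q))) (μ p)
        (C * (p : ℝ) ^ (ε - h / 2)) (fun b _ => hup p hp b)
      rw [nsmul_eq_mul] at this
      exact this
    have h3 : (((ival h p).filter (fun b : ℤ => (b : ZMod q) = ((0 : ℤ) : ZMod q))).card : ℝ) ≤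
        (2 * (Nat.sqrt (4 * p ^ h) : ℝ) + 1) / q + 1 :=
      cls_card q (Nat.sqrt (4 * p ^ h)) hq 0
    have h4 : ((2 * (Nat.sqrt (4 * p ^ h) : ℝ) + 1) / q + 1) ≤ 6 * √((p : ℝ) ^ h) / q := by
      rw [div_add_one hq'.ne']
      apply div_le_div_of_nonneg_right _ hq'.le
      linarith
    have h6 : (p : ℝ) ^ (ε - h / 2) * √((p : ℝ) ^ h) = (p : ℝ) ^ ε := by
      rw [Real.sqrt_eq_rpow, ← Real.rpow_natCast, ← Real.rpow_mul hp0.le, ← Real.rpow_add hp0]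
      congr 1
      ring
    have hpos : 0 ≤ C * (p : ℝ) ^ (ε - h / 2) := by positivity
    calc ∑ b ∈ ival h p, μ p b * ind q p b
        ≤ ∑ b ∈ (ival h p).filter (fun b : ℤ => (b : ZMod q) = ((0 : ℤ) : ZMod q)), μ p b := h1
      _ ≤ (((ival h p).filter (fun b : ℤ => (b : ZMod q) = ((0 : ℤ) : ZMod q))).card : ℝ) *
          (C * (p : ℝ) ^ (ε - h / 2)) := h2
      _ ≤ (6 * √((p : ℝ) ^ h) / q) * (C * (p : ℝ) ^ (ε - h / 2)) :=
          mul_le_mul_of_nonneg_right (h3.trans h4) hpos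
      _ = C * 6 * ((p : ℝ) ^ (ε - h / 2) * √((p : ℝ) ^ h)) / (q : ℝ) := by ring
      _ = C * 6 * (p : ℝ) ^ ε / (q : ℝ) := by rw [h6]
      _ ≤ C * 6 * (x : ℝ) ^ ε / (q : ℝ) := by
          apply div_le_div_of_nonneg_right _ hq'.le
          apply mul_le_mul_of_nonneg_left _ (by positivity)
          exact Real.rpow_le_rpow hp0.le (by exact_mod_cast hpx) hε.le

lemma sum_mass (h M : ℕ) (τ : ℕ → ℤ) (μ : ℕ → ℤ → ℝ) (hh : 1 ≤ h) (hμ : IsRef h M τ μ)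
    (ε C : ℝ) (hε : 0 < ε) (hC : 0 ≤ C)
    (hup : ∀ p : ℕ, p.Prime → ∀ b, μ p b ≤ C * (p : ℝ) ^ (ε - h / 2))
    (q : ℕ) (hq : 0 < q) (x : ℕ) :
    ∑ p ∈ primesUpTo x, ∑ b ∈ ival h p, μ p b * ind q p b ≤
      (q : ℝ) ^ 2 + ((x : ℝ) + 1) * (C * 6 * (x : ℝ) ^ ε / (q : ℝ)) := by
  have hq' : (0 : ℝ) < q := by exact_mod_cast hq
  have hD : 0 ≤ C * 6 * (x : ℝ) ^ ε / (q : ℝ) := by positivity
  have h1 : ∑ p ∈ primesUpTo x, ∑ b ∈ ival h p, μ p b * ind q p b ≤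
      ∑ p ∈ primesUpTo x, ((if p ≤ q ^ 2 then (1 : ℝ) else 0) +
        C * 6 * (x : ℝ) ^ ε / (q : ℝ)) := by
    refine sum_le_sum fun p hp => ?_
    unfold primesUpTo at hp
    rw [mem_filter, mem_range] at hp
    exact mass h M τ μ hh hμ ε C hε hC hup q hq p x hp.2 (by omega)
  refine h1.trans ?_
  rw [sum_add_distrib, sum_const, nsmul_eq_mul]
  have h2 : ∑ p ∈ primesUpTo x, (if p ≤ q ^ 2 then (1 : ℝ) else 0) ≤ (q : ℝ) ^ 2 := by
    rw [← sum_filter, sum_const, nsmul_eq_mul, mul_one]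
    have : ((primesUpTo x).filter fun p => p ≤ q ^ 2) ⊆ Icc 1 (q ^ 2) := by
      intro p hp
      rw [mem_filter] at hp
      unfold primesUpTo at hp
      rw [mem_filter] at hp
      rw [mem_Icc]
      exact ⟨hp.1.2.one_lt.le, hp.2⟩
    have h3 := card_le_card this
    rw [Nat.card_Icc] at h3
    have h4 : ((primesUpTo x).filter fun p => p ≤ q ^ 2).card ≤ q ^ 2 := by omega
    exact_mod_cast h4
  have h5 : (((primesUpTo x).card : ℕ) : ℝ) ≤ (x : ℝ) + 1 := by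
    have : (primesUpTo x).card ≤ x + 1 := by
      unfold primesUpTo
      refine (card_filter_le _ _).trans ?_
      rw [card_range]
    exact_mod_cast this
  have h6 := mul_le_mul_of_nonneg_right h5 hD
  linarith

lemma num_le (q k : ℕ) (hq : q.Prime) (a : ℕ → ℤ) :
    (((blk k).filter fun p => a p = 0).card : ℝ) ≤
      1 + ∑ p ∈ primesUpTo (2 ^ (k + 1)), ind q p (a p) := by
  unfold ind
  rw [← sum_filter, sum_const, nsmul_eq_mul, mul_one]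
  have h1 : ((blk k).filter fun p => a p = 0) ⊆
      insert q ((primesUpTo (2 ^ (k + 1))).filter fun p =>
        p.Coprime q ∧ ((a p : ℤ) : ZMod q) = ((0 : ℤ) : ZMod q)) := by
    intro p hp
    unfold blk at hp
    rw [mem_filter, mem_filter, Finset.mem_Ioc] at hp
    unfold primesUpTo
    rw [mem_insert, mem_filter, mem_filter, mem_range]
    by_cases h2 : p = q
    · exact Or.inl h2
    · right
      exact ⟨⟨by omega, hp.1.2⟩, (Nat.coprime_primes hp.1.2 hq).2 h2, by rw [hp.2]⟩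
  have h2 := (card_le_card h1).trans (card_insert_le _ _)
  have h3 : (((blk k).filter fun p => a p = 0).card : ℝ) ≤
      ((((primesUpTo (2 ^ (k + 1))).filter fun p =>
        p.Coprime q ∧ ((a p : ℤ) : ZMod q) = ((0 : ℤ) : ZMod q)).card + 1 : ℕ) : ℝ) := by
    exact_mod_cast h2
  rw [Nat.cast_add, Nat.cast_one] at h3
  linarith

lemma l2G (q : ℕ) [NeZero q] :
    l2 (fun s : ZMod q => if s = 0 then (1 : ℂ) else 0) = 1 := by
  unfold l2
  have h1 : ∑ s : ZMod q, ‖(if s = 0 then (1 : ℂ) else 0)‖ ^ 2 = 1 := by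
    rw [sum_eq_single (0 : ZMod q)]
    · rw [if_pos rfl, norm_one, one_pow]
    · intro y _ hy
      rw [if_neg hy, norm_zero]
      norm_num
    · intro h
      exact absurd (mem_univ _) h
  rw [h1, Real.sqrt_one]

lemma exists_q (k : ℕ) : ∃ q : ℕ, q.Prime ∧ e2 (k / 4) ≤ q ∧ (q : ℝ) ≤ 4 * e2 (k / 4) := by
  have h0 : (0 : ℝ) ≤ (k : ℝ) / 4 := by positivity
  have h1 : 0 < ⌈e2 (k / 4)⌉₊ := Nat.ceil_pos.mpr (e2_pos _)
  obtain ⟨q, hq, hq1, hq2⟩ := Nat.exists_prime_lt_and_le_two_mul _ h1.ne'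
  refine ⟨q, hq, ?_, ?_⟩
  · have h2 : ((⌈e2 (k / 4)⌉₊ : ℕ) : ℝ) ≤ q := by exact_mod_cast hq1.le
    exact (Nat.le_ceil _).trans h2
  · have h2 : (q : ℝ) ≤ 2 * ((⌈e2 (k / 4)⌉₊ : ℕ) : ℝ) := by exact_mod_cast hq2
    have h3 := Nat.ceil_lt_add_one (e2_pos ((k : ℝ) / 4)).le
    have h4 := one_le_e2 h0
    linarith

end Upp

open Upp in
/-- **UP.** -/
theorem upp : S_UP := by
  intro h M τ μ hh hμ a _ hb ε hε
  obtain ⟨C₁, hC₁⟩ := hb 0 ε hε
  obtain ⟨C₂, hC₂⟩ := hμ.upper ε hε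
  refine ⟨|C₁| * (4 * 4 ^ (1 / 2 + ε)) + 17 + 4 * (|C₂| * 6 * 2 ^ ε), fun k => ?_⟩
  have hk0 : (0 : ℝ) ≤ k := Nat.cast_nonneg k
  have hE : 0 ≤ (k : ℝ) * ε := mul_nonneg hk0 hε.le
  obtain ⟨q, hqp, hq1, hq2⟩ := exists_q k
  have hq0 : 0 < q := hqp.pos
  have : NeZero q := ⟨hq0.ne'⟩
  have hq' : (0 : ℝ) < q := by exact_mod_cast hq0
  have hup : ∀ p : ℕ, p.Prime → ∀ b, μ p b ≤ |C₂| * (p : ℝ) ^ (ε - h / 2) := by
    intro p hp b
    refine (hC₂ p hp b).trans ?_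
    exact mul_le_mul_of_nonneg_right (le_abs_self _) (Real.rpow_nonneg (Nat.cast_nonneg p) _)
  have A1 := num_le q k hqp a
  have A2 := real_part h q hqp μ a (2 ^ (k + 1))
  have A3 := sum_mass h M τ μ hh hμ ε |C₂| hε (abs_nonneg _) hup q hq0 (2 ^ (k + 1))
  have A4 := hC₁ q (fun s : ZMod q => if s = 0 then (1 : ℂ) else 0) (2 ^ (k + 1))
  rw [l2G, mul_one] at A4
  have hx : ((2 ^ (k + 1) : ℕ) : ℝ) = 2 * e2 k := by
    rw [e2_nat]
    push_cast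
    ring
  have hek : 1 ≤ e2 (k : ℝ) := one_le_e2 hk0
  have hx1 : ((2 ^ (k + 1) : ℕ) : ℝ) + 1 ≤ 4 * e2 k := by rw [hx]; linarith
  have hpow : 1 ≤ e2 (k * (3 / 4 + ε)) := one_le_e2 (by positivity)
  -- first term
  have B1 : C₁ * (q : ℝ) * (((2 ^ (k + 1) : ℕ) : ℝ) + 1) ^ (1 / 2 + ε) ≤
      |C₁| * (4 * 4 ^ (1 / 2 + ε)) * e2 (k * (3 / 4 + ε)) := by
    have c3 : (((2 ^ (k + 1) : ℕ) : ℝ) + 1) ^ (1 / 2 + ε) ≤
        4 ^ (1 / 2 + ε) * e2 (k * (1 / 2 + ε)) := by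
      rw [← e2_rpow, ← Real.mul_rpow (by norm_num) (e2_pos _).le]
      exact Real.rpow_le_rpow (by positivity) hx1 (by positivity)
    have c4 : e2 (k / 4) * e2 (k * (1 / 2 + ε)) = e2 (k * (3 / 4 + ε)) := by
      rw [← e2_add]
      congr 1
      ring
    have p1 := e2_pos ((k : ℝ) / 4)
    have p3 := e2_pos (k * (1 / 2 + ε))
    have d1 : (q : ℝ) * (((2 ^ (k + 1) : ℕ) : ℝ) + 1) ^ (1 / 2 + ε) ≤
        (4 * e2 (k / 4)) * (4 ^ (1 / 2 + ε) * e2 (k * (1 / 2 + ε))) :=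
      mul_le_mul hq2 c3 (by positivity) (by positivity)
    have d2 : C₁ * (q : ℝ) * (((2 ^ (k + 1) : ℕ) : ℝ) + 1) ^ (1 / 2 + ε) ≤
        |C₁| * ((q : ℝ) * (((2 ^ (k + 1) : ℕ) : ℝ) + 1) ^ (1 / 2 + ε)) := by
      rw [mul_assoc]
      exact mul_le_mul_of_nonneg_right (le_abs_self _) (by positivity)
    refine d2.trans ((mul_le_mul_of_nonneg_left d1 (abs_nonneg _)).trans (le_of_eq ?_))
    rw [← c4]
    ring
  -- second term
  have B2 : 1 + (q : ℝ) ^ 2 ≤ 17 * e2 (k * (3 / 4 + ε)) := by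
    have c1 : (q : ℝ) ^ 2 ≤ 16 * e2 (k / 4 * 2) := by
      have h1 := pow_le_pow_left₀ hq'.le hq2 2
      rw [mul_pow, e2_pow] at h1
      have h2 : (k : ℝ) / 4 * ((2 : ℕ) : ℝ) = k / 4 * 2 := by norm_num
      rw [h2] at h1
      norm_num at h1
      exact h1
    have c2 : (k : ℝ) / 4 * 2 ≤ k * (3 / 4 + ε) := by nlinarith
    have c3 := e2_mono c2
    linarith
  -- third term
  have B3 : (((2 ^ (k + 1) : ℕ) : ℝ) + 1) *
      (|C₂| * 6 * ((2 ^ (k + 1) : ℕ) : ℝ) ^ ε / (q : ℝ)) ≤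
      4 * (|C₂| * 6 * 2 ^ ε) * e2 (k * (3 / 4 + ε)) := by
    have c1 : ((2 ^ (k + 1) : ℕ) : ℝ) ^ ε = 2 ^ ε * e2 (k * ε) := by
      rw [hx, Real.mul_rpow (by norm_num) (e2_pos _).le, e2_rpow]
    rw [c1]
    have p1 := e2_pos ((k : ℝ) / 4)
    have p2 := e2_pos (k * ε)
    have c3 : |C₂| * 6 * (2 ^ ε * e2 (k * ε)) / (q : ℝ) ≤
        |C₂| * 6 * (2 ^ ε * e2 (k * ε)) / e2 (k / 4) :=
      div_le_div_of_nonneg_left (by positivity) p1 hq1
    have c4 : e2 k * e2 (k * ε) / e2 (k / 4) = e2 (k * (3 / 4 + ε)) := by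
      rw [div_eq_iff p1.ne', ← e2_add, ← e2_add]
      congr 1
      ring
    calc (((2 ^ (k + 1) : ℕ) : ℝ) + 1) * (|C₂| * 6 * (2 ^ ε * e2 (k * ε)) / (q : ℝ))
        ≤ (4 * e2 k) * (|C₂| * 6 * (2 ^ ε * e2 (k * ε)) / e2 (k / 4)) :=
          mul_le_mul hx1 c3 (by positivity) (by positivity)
      _ = 4 * (|C₂| * 6 * 2 ^ ε) * (e2 k * e2 (k * ε) / e2 (k / 4)) := by ring
      _ = _ := by rw [c4]
  have hfin : (((blk k).filter fun p => a p = 0).card : ℝ) ≤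
      C₁ * (q : ℝ) * (((2 ^ (k + 1) : ℕ) : ℝ) + 1) ^ (1 / 2 + ε) +
      (1 + (q : ℝ) ^ 2 + (((2 ^ (k + 1) : ℕ) : ℝ) + 1) *
      (|C₂| * 6 * ((2 ^ (k + 1) : ℕ) : ℝ) ^ ε / (q : ℝ))) := by
    linarith
  have : (|C₁| * (4 * 4 ^ (1 / 2 + ε)) + 17 + 4 * (|C₂| * 6 * 2 ^ ε)) *
      e2 (k * (3 / 4 + ε)) =
      |C₁| * (4 * 4 ^ (1 / 2 + ε)) * e2 (k * (3 / 4 + ε)) +
      17 * e2 (k * (3 / 4 + ε)) +
      4 * (|C₂| * 6 * 2 ^ ε) * e2 (k * (3 / 4 + ε)) := by ring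
  rw [this]
  linarith

end Pool.Agent.H414.LH
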